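import Mathlib
import Pool.Agent.H69.M6b.F1e

set_option autoImplicit false
set_option linter.unusedSectionVars false
set_option linter.unusedVariables false
open Finset

/-! # The factorization of an abstract family of amplitudes

`𝒜 S ζ` : amplitude with coupons at the columns of `S` in the glued configuration `ζ`. From the three
relations of a window (`WFam`) follow the factorization `AmpData` and the reference of the first
crossings. The same proofs as `H69/M6b/F1`, `F1e`. -/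

namespace Pool.Agent.H81.W

open Pool.Agent.H75.Perc Pool.Agent.H75.TwoArm Pool.Agent.Q1 Pool.Agent.H81.G1 Pool.Agent.H69.M6b
open Pool.Agent.H30.Mid (RS rl rp rcr HasRow AR cA cB ug cs)
open Pool.Agent.Q1.M6b.Gl (gE tr mem_tr)
open Pool.Agent.Q1.M6b.Gd
open Pool.Agent.Q1.M6b (dy mem_dy cells)
open Pool.Agent.H47.NC (Bq mem_Bq)

/-- near the window the wires on the side `e` are arcs which do not jump over the column `x1`, except for
two of them (`Wr e c c'` : the wire of the column `c` on the side `e` leads to the column `c'`) -/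
def NearW {N : ℕ} (Xc y0 : ℤ) (h w : ℕ) (cl : ℕ → Fin N) (In : Finset (ℤ × ℤ))
    (Wr : Bool → Fin N → Fin N → Prop) (e : Bool) (x1 : ℕ) : Prop :=
  ∃ S : Finset ℕ, S.card ≤ 2 ∧ ∀ c < w, gl Xc y0 h c (if e then h else h - 1) ∈ In → c ∉ S →
    ∃ c' < w, Wr e (cl c) (cl c') ∧ ¬ (c < x1 ∧ x1 < c') ∧ ¬ (c' < x1 ∧ x1 < c)

/-- **A family of amplitudes with the relations of the windows.** -/
structure WFam (EL EU : Finset (ℤ × ℤ)) (N : ℕ) (xr y0 : ℤ) (yc : Fin N)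
    (𝒜 : Finset (Fin N) → Finset (ℤ × ℤ) → ℂ)
    (Wr : Finset (ℤ × ℤ) → Bool → Fin N → Fin N → Prop) : Prop where
  zero : ∀ {k : ℤ} {cr : ℤ → ℤ × ℤ} {cz : ℤ → ℤ} {I : Finset ℤ} {In Out ω ζ η : Finset (ℤ × ℤ)}
    {hN : 0 < N} {c0 w h : ℕ} {x : ℤ} {S : Finset (Fin N)} {c : Fin N},
    WG EL EU N xr y0 k yc cr cz I In Out hN c0 w h → (∀ i < w, clS N c0 hN i ∉ S) →
    (∀ a a', FarIn In Out ω a → FarIn In Out ω a' → a = a') → x ∈ I → η ⊆ In →
    Loc In Out ω η ζ → ((c : Fin N) : ℤ) - k = cz x → hW cr In Out ω x η = 0 →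
    𝒜 (insert c S) ζ = 0
  two : ∀ {k : ℤ} {cr : ℤ → ℤ × ℤ} {cz : ℤ → ℤ} {I : Finset ℤ} {In Out ω ζ ζ' η η' : Finset (ℤ × ℤ)}
    {hN : 0 < N} {c0 w h : ℕ} {x x' : ℤ} {S : Finset (Fin N)} {c c' : Fin N},
    WG EL EU N xr y0 k yc cr cz I In Out hN c0 w h → (∀ i < w, clS N c0 hN i ∉ S) →
    (∀ a a', FarIn In Out ω a → FarIn In Out ω a' → a = a') → x ∈ I → x' ∈ I → η ⊆ In → η' ⊆ In →
    Loc In Out ω η ζ → Loc In Out ω η' ζ' → (∀ e, e ∉ In → (e ∈ ζ ↔ e ∈ ζ')) →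
    ((c : Fin N) : ℤ) - k = cz x → ((c' : Fin N) : ℤ) - k = cz x' →
    𝒜 (insert c S) ζ * hW cr In Out ω x' η' = 𝒜 (insert c' S) ζ' * hW cr In Out ω x η
  first : ∀ {k : ℤ} {cr : ℤ → ℤ × ℤ} {cz : ℤ → ℤ} {I : Finset ℤ} {In Out ω ζ η : Finset (ℤ × ℤ)}
    {hN : 0 < N} {c0 w h : ℕ} {x : ℤ} {S : Finset (Fin N)} {c : Fin N},
    WG EL EU N xr y0 k yc cr cz I In Out hN c0 w h → (∀ i < w, clS N c0 hN i ∉ S) →
    (∀ a a', FarIn In Out ω a → FarIn In Out ω a' → a = a') → x ∈ I → η ⊆ In →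
    Loc In Out ω η ζ → ((c : Fin N) : ℤ) - k = cz x → 𝒜 (insert c S) ζ ≠ 0 →
    ∃ e : Bool, ∃ x1 < w, NearW (xr + c0) y0 h w (clS N c0 hN) In (Wr ζ) e x1 ∧
      (∀ z, FarIn In Out ζ z → Con ζ (gE EL EU (1, -1)) z
        (sm true y0 (xr - y0 + 1 + ((clS N c0 hN x1 : Fin N) : ℕ)))) ∧
      ∀ S' : Finset (Fin N), (∀ i < w, clS N c0 hN i ∉ S') →
        ‖𝒜 (insert c S') ζ‖ = ‖𝒜 (insert (clS N c0 hN x1) S') ζ‖

section
variable {EL EU : Finset (ℤ × ℤ)} {N : ℕ} {xr y0 : ℤ} {yc : Fin N}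
  {𝒜 : Finset (Fin N) → Finset (ℤ × ℤ) → ℂ} {Wr : Finset (ℤ × ℤ) → Bool → Fin N → Fin N → Prop}

/-- **One more fixed coupon at the column of the mark.** -/
theorem WFam.ins (H : WFam EL EU N xr y0 yc 𝒜 Wr) :
    WFam EL EU N xr y0 yc (fun S ζ => 𝒜 (insert yc S) ζ) Wr := by
  have hS' : ∀ {hN : 0 < N} {c0 w : ℕ} {S : Finset (Fin N)}, (∀ i < w, yc ≠ clS N c0 hN i) →
      (∀ i < w, clS N c0 hN i ∉ S) → ∀ i < w, clS N c0 hN i ∉ insert yc S := by
    intro hN c0 w S h1 h2 i hi h3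
    rcases mem_insert.1 h3 with h4 | h4
    · exact h1 i hi h4.symm
    · exact h2 i hi h4
  refine ⟨?_, ?_, ?_⟩
  · intro k cr cz I In Out ω ζ η hN c0 w h x S c W hS uniq hx hη hζ hc h0
    rw [Finset.insert_comm]
    exact H.zero W (hS' W.mark hS) uniq hx hη hζ hc h0
  · intro k cr cz I In Out ω ζ ζ' η η' hN c0 w h x x' S c c' W hS uniq hx hx' hη hη' hζ hζ' hag hc hc'
    rw [Finset.insert_comm, Finset.insert_comm yc c' S]
    exact H.two W (hS' W.mark hS) uniq hx hx' hη hη' hζ hζ' hag hc hc'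
  · intro k cr cz I In Out ω ζ η hN c0 w h x S c W hS uniq hx hη hζ hc hne
    rw [Finset.insert_comm] at hne
    obtain ⟨e, x1, hx1, h1, h2, h3⟩ := H.first W (hS' W.mark hS) uniq hx hη hζ hc hne
    refine ⟨e, x1, hx1, h1, h2, fun S' hS1 => ?_⟩
    rw [Finset.insert_comm, Finset.insert_comm yc (clS N c0 hN x1) S']
    exact h3 _ (hS' W.mark hS1)

end

/-- the amplitudes with coupons at the columns `x` -/
noncomputable abbrev AXa {N : ℕ} (𝒜 : Finset (Fin N) → Finset (ℤ × ℤ) → ℂ) (k : ℕ)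
    {m₁ m₂ : ℕ} (x : Fin m₁ ⊕ Fin m₂ → ℤ) (ζ : Finset (ℤ × ℤ)) : ℂ :=
  𝒜 (cs N k (cols2 x)) ζ

/-- near property of a window, in columns of the row: centre `cc`, radii `rI` (inner box) and `rB`
(big box) -/
def NearR {N : ℕ} (Wr : Bool → Fin N → Fin N → Prop) (e : Bool) (x1 : Fin N) (cc rI rB : ℤ) : Prop :=
  ∃ S : Finset (Fin N), S.card ≤ 2 ∧ ∀ c : Fin N, |((c : ℕ) : ℤ) - cc| ≤ rI → c ∉ S →
    ∃ c' : Fin N, Wr e c c' ∧ |((c' : ℕ) : ℤ) - cc| ≤ rB ∧
      ¬ (c < x1 ∧ x1 < c') ∧ ¬ (c' < x1 ∧ x1 < c)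

section
variable {EL EU : Finset (ℤ × ℤ)} {N : ℕ} {xr y0 : ℤ} {k : ℕ} {yc : Fin N}
  {𝒜 : Finset (Fin N) → Finset (ℤ × ℤ) → ℂ} {Wr : Finset (ℤ × ℤ) → Bool → Fin N → Fin N → Prop}
  {b K K0 : ℤ} {S m₁ m₂ : ℕ} {k₁ : Fin m₁ → ℕ × ℤ} {k₂ : Fin m₂ → ℕ × ℤ}
  {Lv : Fin m₁ ⊕ Fin m₂ → ℕ} {yv : Fin m₁ ⊕ Fin m₂ → ℤ} {ω : Finset (ℤ × ℤ)}

/-- **The two relations of the windows.** -/
theorem rel_all (H : WFam EL EU N xr y0 yc 𝒜 Wr) (hb : 4 ≤ b) (hK0 : 1 ≤ K0)
    (hK : K0 * (4 * b + 8) + 1 ≤ K) (hkN : k ≤ N)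
    (hgeo : RowGeo (gE EL EU (1, -1)) (zr xr y0 k) K0 k (N - k))
    (hyk : (yc : ℕ) = k ∨ (yc : ℕ) + 1 = k) (hk₁ : k₁ ∈ cells b K S m₁ k)
    (hk₂ : k₂ ∈ cells b K S m₂ (N - k)) (hL : Lv ∈ Lev (lv2 k₁ k₂))
    (hyv : yv ∈ Num b (lv2 k₁ k₂) (nu2 k₁ k₂) Lv)
    (uniq : ∀ i, Lv i ≠ 0 → ∀ a a', FarIn (InB b (zz (zr xr y0 k) i) (Lv i) (yv i))
      (OutB b (zz (zr xr y0 k) i) (Lv i) (yv i)) ω a → FarIn (InB b (zz (zr xr y0 k) i) (Lv i) (yv i))
      (OutB b (zz (zr xr y0 k) i) (Lv i) (yv i)) ω a' → a = a')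
    {x : Fin m₁ ⊕ Fin m₂ → ℤ} {p : Fin m₁ ⊕ Fin m₂ → Finset (ℤ × ℤ)}
    (hx : ∀ i, x i ∈ dy b (Lv i) (yv i)) (hp : ∀ i, p i ⊆ Wi b (zz (zr xr y0 k)) Lv yv i)
    (i : Fin m₁ ⊕ Fin m₂) :
    (hX xr y0 k b Lv yv ω i (x i) (p i) = 0 →
      AXa 𝒜 k x (cfg (univ.biUnion (Wi b (zz (zr xr y0 k)) Lv yv)) ω p) = 0) ∧
    ∀ x' ∈ dy b (Lv i) (yv i), ∀ p' ⊆ Wi b (zz (zr xr y0 k)) Lv yv i,
      AXa 𝒜 k x (cfg (univ.biUnion (Wi b (zz (zr xr y0 k)) Lv yv)) ω p) *
          hX xr y0 k b Lv yv ω i x' p' =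
        AXa 𝒜 k (Function.update x i x')
          (cfg (univ.biUnion (Wi b (zz (zr xr y0 k)) Lv yv)) ω (Function.update p i p')) *
          hX xr y0 k b Lv yv ω i (x i) (p i) := by
  classical
  by_cases hi : Lv i = 0
  · have e1 : ∀ x' ∈ dy b (Lv i) (yv i), x' = x i := by
      intro x' hx'
      have h1 := hx i
      rw [mem_dy (by omega), hi, pow_zero, Int.ediv_one] at h1 hx'
      rw [h1, hx']
    have e2 : ∀ p' ⊆ Wi b (zz (zr xr y0 k)) Lv yv i, p' = p i := by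
      intro p' hp'
      have h1 := hp i
      unfold Wi at h1 hp'
      rw [if_pos hi, subset_empty] at h1 hp'
      rw [h1, hp']
    unfold hX
    rw [if_pos hi]
    refine ⟨fun h => absurd h one_ne_zero, ?_⟩
    intro x' hx' p' hp'
    rw [if_pos hi, e1 x' hx', e2 p' hp', Function.update_eq_self, Function.update_eq_self]
  · have hN : 0 < N := by have := yc.2; omega
    obtain ⟨c0, R, W, hfar, -⟩ := win_geo hb hK0 hK hkN hgeo hyk hk₁ hk₂ hL hyv hN hi
    set w := 2 * (2 * R + 1) + 1 with hw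
    set h := 2 * R + 1 with hh
    set V := univ.biUnion (Wi b (zz (zr xr y0 k)) Lv yv) with hV
    have eW : Wi b (zz (zr xr y0 k)) Lv yv i = InB b (zz (zr xr y0 k) i) (Lv i) (yv i) := by
      unfold Wi; rw [if_neg hi]
    have eh : ∀ x η, hX xr y0 k b Lv yv ω i x η = hW (zz (zr xr y0 k) i)
        (InB b (zz (zr xr y0 k) i) (Lv i) (yv i)) (OutB b (zz (zr xr y0 k) i) (Lv i) (yv i)) ω x η := by
      intro x η; unfold hX; rw [if_neg hi]
    -- the other windows are disjoint from the outer box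
    have hLi := mem_Lev.1 hL
    have hyi := mem_Num.1 hyv
    have hdisj : ∀ j, j ≠ i → ∀ e ∈ OutB b (zz (zr xr y0 k) i) (Lv i) (yv i),
        e ∉ Wi b (zz (zr xr y0 k)) Lv yv j := out_disj hb hgeo (by nlinarith) hk₁ hk₂ hL hyv hi
    have hio := W.io
    -- local form of the configurations
    have hloc : ∀ q : Fin m₁ ⊕ Fin m₂ → Finset (ℤ × ℤ),
        (∀ j, q j ⊆ Wi b (zz (zr xr y0 k)) Lv yv j) →
        Loc (InB b (zz (zr xr y0 k) i) (Lv i) (yv i)) (OutB b (zz (zr xr y0 k) i) (Lv i) (yv i)) ω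
          (q i) (cfg V ω q) := by
      intro q hq e he
      rw [mem_cfg, mem_union, mem_sdiff]
      constructor
      · rintro (⟨h1, h2⟩ | h1)
        · left
          refine ⟨h1, fun h3 => ?_⟩
          rw [hV, mem_biUnion] at h3
          obtain ⟨j, -, h4⟩ := h3
          by_cases hj : j = i
          · subst hj; rw [eW] at h4; exact h2 h4
          · exact hdisj j hj e he h4
        · exact Or.inr ⟨i, h1⟩
      · rintro (⟨h1, h2⟩ | ⟨j, h1⟩)
        · left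
          refine ⟨h1, fun h3 => h2 ?_⟩
          rw [hV, mem_biUnion]
          exact ⟨i, mem_univ _, by rw [eW]; exact h3⟩
        · right
          by_cases hj : j = i
          · subst hj; exact h1
          · exact absurd (hq j h1) (hdisj j hj e he)
    -- the coupons
    set S' := cs N k ((univ.erase i).image (fun j => czz j (x j))) with hS'
    have hSfar : ∀ j < w, clS N c0 hN j ∉ S' := by
      intro j hj h1
      rw [hS', cs, mem_filter, mem_image] at h1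
      obtain ⟨-, i', hi', h2⟩ := h1
      exact hfar i' (mem_erase.1 hi').1 (x i') (hx i') _ h2.symm j hj rfl
    have colx : ∀ x' ∈ dy b (Lv i) (yv i), ∃ c : Fin N, ((c : ℕ) : ℤ) - k = czz i x' ∧
        cs N k (cols2 (Function.update x i x')) = insert c S' := by
      intro x' hx'
      obtain ⟨j, hj, h1, -⟩ := W.col x' hx'
      refine ⟨_, h1, ?_⟩
      rw [cols2_eq, coupon_set (k := k) (fun j => czz j (Function.update x i x' j)) i
        (c := clS N c0 hN j) (by rw [Function.update_self]; exact h1), hS']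
      congr 2
      refine image_congr ?_
      intro j hj
      have : j ≠ i := (mem_erase.1 (mem_coe.1 hj)).1
      simp only [Function.update_of_ne this]
    have hpi : p i ⊆ InB b (zz (zr xr y0 k) i) (Lv i) (yv i) := by rw [← eW]; exact hp i
    obtain ⟨c, hc, hcS⟩ := colx (x i) (hx i)
    rw [Function.update_eq_self] at hcS
    have eA : ∀ ζ, AXa 𝒜 k x ζ = 𝒜 (insert c S') ζ := by
      intro ζ
      unfold AXa
      rw [hcS]
    refine ⟨?_, ?_⟩
    · intro h0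
      rw [eh] at h0
      rw [eA]
      exact H.zero W hSfar (uniq i hi) (hx i) hpi (hloc p hp) hc h0
    · intro x' hx' p' hp'
      rw [eh, eh]
      have hp'' : p' ⊆ InB b (zz (zr xr y0 k) i) (Lv i) (yv i) := by rw [← eW]; exact hp'
      obtain ⟨c', hc', hcS'⟩ := colx x' hx'
      have eA' : ∀ ζ, AXa 𝒜 k (Function.update x i x') ζ = 𝒜 (insert c' S') ζ := by
        intro ζ
        unfold AXa
        rw [hcS']
      rw [eA, eA']
      have hq : ∀ j, Function.update p i p' j ⊆ Wi b (zz (zr xr y0 k)) Lv yv j := by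
        intro j
        by_cases hj : j = i
        · subst hj; rw [Function.update_self]; exact hp'
        · rw [Function.update_of_ne hj]; exact hp j
      have hl2 := hloc (Function.update p i p') hq
      rw [Function.update_self] at hl2
      refine H.two W hSfar (uniq i hi) (hx i) hx' hpi hp'' (hloc p hp) hl2 ?_ hc hc'
      intro e he
      rw [mem_cfg, mem_cfg]
      constructor
      · rintro (h1 | ⟨j, h1⟩)
        · exact Or.inl h1
        · right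
          refine ⟨j, ?_⟩
          have hj : j ≠ i := by
            rintro rfl
            exact he (hpi h1)
          rw [Function.update_of_ne hj]; exact h1
      · rintro (h1 | ⟨j, h1⟩)
        · exact Or.inl h1
        · right
          refine ⟨j, ?_⟩
          have hj : j ≠ i := by
            rintro rfl
            rw [Function.update_self] at h1
            exact he (hp'' h1)
          rw [Function.update_of_ne hj] at h1; exact h1

/-- the data of the windows -/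
theorem data_of {A : ℂ} (hb : 4 ≤ b)
    (uniq : ∀ i, Lv i ≠ 0 → ∀ a a', FarIn (InB b (zz (zr xr y0 k) i) (Lv i) (yv i))
      (OutB b (zz (zr xr y0 k) i) (Lv i) (yv i)) ω a → FarIn (InB b (zz (zr xr y0 k) i) (Lv i) (yv i))
      (OutB b (zz (zr xr y0 k) i) (Lv i) (yv i)) ω a' → a = a')
    (hfac : ∀ x ∈ Bo b Lv yv, ∀ η, η ⊆ univ.biUnion (Wi b (zz (zr xr y0 k)) Lv yv) →
      AXa 𝒜 k x (ω \ (univ.biUnion (Wi b (zz (zr xr y0 k)) Lv yv)) ∪ η) =
        A * ∏ i, hX xr y0 k b Lv yv ω i (x i) (η ∩ Wi b (zz (zr xr y0 k)) Lv yv i)) :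
    AmpData b (zz (zr xr y0 k)) Lv yv ω (fun x ζ => AXa 𝒜 k x ζ) A
      (hX xr y0 k b Lv yv ω) := by
  refine ⟨hfac, ?_, ?_⟩
  · intro i hi
    unfold hX
    rw [if_pos hi, norm_one]
  · intro i hi
    by_cases hex : ∃ a, FarIn (InB b (zz (zr xr y0 k) i) (Lv i) (yv i))
      (OutB b (zz (zr xr y0 k) i) (Lv i) (yv i)) ω a
    · right; right
      obtain ⟨a, hf⟩ := hex
      have hu : ∀ a', FarIn (InB b (zz (zr xr y0 k) i) (Lv i) (yv i))
        (OutB b (zz (zr xr y0 k) i) (Lv i) (yv i)) ω a' → a' = a :=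
        fun a' h' => uniq i hi a' a h' hf
      refine ⟨1, a, by rw [norm_one], hf, hu, ?_⟩
      intro η hη
      have hio := in_out_B hb (zz (zr xr y0 k) i) (Lv i) (yv i)
      obtain ⟨g1, g2⟩ := xt_far ((far_mod (ω := ω)
        (Out := OutB b (zz (zr xr y0 k) i) (Lv i) (yv i)) hη).2 hf)
      refine ⟨ω \ InB b (zz (zr xr y0 k) i) (Lv i) (yv i) ∪ η, _, ?_, ?_, g2, g1, ?_⟩
      · ext e
        rw [mem_inter, mem_union, mem_sdiff]
        constructor
        · rintro ⟨h1 | h1, h2⟩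
          · exact absurd h2 h1.2
          · exact h1
        · intro h1; exact ⟨Or.inr h1, hη h1⟩
      · ext e
        rw [mem_inter, mem_inter, mem_union, mem_sdiff, mem_sdiff]
        constructor
        · rintro ⟨h1 | h1, h2⟩
          · exact ⟨h1.1, h2⟩
          · exact absurd (hη h1) h2.2
        · rintro ⟨h1, h2⟩
          exact ⟨Or.inl ⟨h1, h2.2⟩, h2⟩
      · intro x _
        unfold hX
        rw [if_neg hi, hW_eq hf hu, Complex.conj_conj, one_mul]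
        rfl
    · left
      intro x _ η _
      unfold hX
      rw [if_neg hi, hW_none hex]

/-- **The factorization of the amplitudes.** -/
theorem amp_data (H : WFam EL EU N xr y0 yc 𝒜 Wr) (hb : 4 ≤ b) (hK0 : 1 ≤ K0)
    (hK : K0 * (4 * b + 8) + 1 ≤ K) (hkN : k ≤ N)
    (hgeo : RowGeo (gE EL EU (1, -1)) (zr xr y0 k) K0 k (N - k))
    (hyk : (yc : ℕ) = k ∨ (yc : ℕ) + 1 = k) (hk₁ : k₁ ∈ cells b K S m₁ k)
    (hk₂ : k₂ ∈ cells b K S m₂ (N - k)) (hL : Lv ∈ Lev (lv2 k₁ k₂))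
    (hyv : yv ∈ Num b (lv2 k₁ k₂) (nu2 k₁ k₂) Lv)
    (uniq : ∀ i, Lv i ≠ 0 → ∀ a a', FarIn (InB b (zz (zr xr y0 k) i) (Lv i) (yv i))
      (OutB b (zz (zr xr y0 k) i) (Lv i) (yv i)) ω a → FarIn (InB b (zz (zr xr y0 k) i) (Lv i) (yv i))
      (OutB b (zz (zr xr y0 k) i) (Lv i) (yv i)) ω a' → a = a') :
    (∀ x0 ∈ Bo b Lv yv, ∀ η0 ⊆ univ.biUnion (Wi b (zz (zr xr y0 k)) Lv yv),
      (∀ i, hX xr y0 k b Lv yv ω i (x0 i) (η0 ∩ Wi b (zz (zr xr y0 k)) Lv yv i) ≠ 0) →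
      ∃ A, AmpData b (zz (zr xr y0 k)) Lv yv ω (fun x ζ => AXa 𝒜 k x ζ) A
          (hX xr y0 k b Lv yv ω) ∧
        ‖A‖ = ‖AXa 𝒜 k x0 (ω \ (univ.biUnion (Wi b (zz (zr xr y0 k)) Lv yv)) ∪ η0)‖) ∧
    ((∀ x0 ∈ Bo b Lv yv, ∀ η0 ⊆ univ.biUnion (Wi b (zz (zr xr y0 k)) Lv yv),
      ∃ i, hX xr y0 k b Lv yv ω i (x0 i) (η0 ∩ Wi b (zz (zr xr y0 k)) Lv yv i) = 0) →
      AmpData b (zz (zr xr y0 k)) Lv yv ω (fun x ζ => AXa 𝒜 k x ζ) 0
        (hX xr y0 k b Lv yv ω)) := by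
  classical
  set V := univ.biUnion (Wi b (zz (zr xr y0 k)) Lv yv) with hV
  have hrel := fun {x} {p} hx hp i => rel_all (x := x) (p := p) H hb hK0 hK hkN hgeo hyk hk₁ hk₂ hL
    hyv uniq hx hp i
  -- restriction of a state to the windows
  have res : ∀ η, η ⊆ V → cfg V ω (fun i => η ∩ Wi b (zz (zr xr y0 k)) Lv yv i) = ω \ V ∪ η := by
    intro η hη
    ext e
    rw [mem_cfg, mem_union, mem_sdiff]
    constructor
    · rintro (h1 | ⟨i, h1⟩)
      · exact Or.inl h1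
      · exact Or.inr (mem_inter.1 h1).1
    · rintro (h1 | h1)
      · exact Or.inl h1
      · right
        have h2 := hη h1
        rw [hV, mem_biUnion] at h2
        obtain ⟨i, -, h3⟩ := h2
        exact ⟨i, mem_inter.2 ⟨h1, h3⟩⟩
  refine ⟨?_, ?_⟩
  · intro x0 hx0 η0 hη0 hne
    rw [mem_Bo] at hx0
    set f : (Fin m₁ ⊕ Fin m₂ → ℤ × Finset (ℤ × ℤ)) → ℂ := fun p =>
      AXa 𝒜 k (fun i => (p i).1) (cfg V ω (fun i => (p i).2)) with hf
    set Hf : Fin m₁ ⊕ Fin m₂ → ℤ × Finset (ℤ × ℤ) → ℂ := fun i q =>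
      hX xr y0 k b Lv yv ω i q.1 q.2 with hH
    set D : Fin m₁ ⊕ Fin m₂ → Set (ℤ × Finset (ℤ × ℤ)) := fun i =>
      {q | q.1 ∈ dy b (Lv i) (yv i) ∧ q.2 ⊆ Wi b (zz (zr xr y0 k)) Lv yv i} with hD
    have h2 : ∀ p, (∀ i, p i ∈ D i) → ∀ i, ∀ q ∈ D i,
        f p * Hf i q = f (Function.update p i q) * Hf i (p i) := by
      intro p hp i q hq
      have := (hrel (x := fun i => (p i).1) (p := fun i => (p i).2) (fun i => (hp i).1)
        (fun i => (hp i).2) i).2 q.1 hq.1 q.2 hq.2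
      have e1 : (fun j => (Function.update p i q j).1) = Function.update (fun i => (p i).1) i q.1 := by
        funext j
        by_cases hj : j = i
        · subst hj; rw [Function.update_self, Function.update_self]
        · rw [Function.update_of_ne hj, Function.update_of_ne hj]
      have e2 : (fun j => (Function.update p i q j).2) = Function.update (fun i => (p i).2) i q.2 := by
        funext j
        by_cases hj : j = i
        · subst hj; rw [Function.update_self, Function.update_self]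
        · rw [Function.update_of_ne hj, Function.update_of_ne hj]
      rw [hf]
      simp only
      rw [e1, e2]
      exact this
    set P0 : ℂ := ∏ i, Hf i (x0 i, η0 ∩ Wi b (zz (zr xr y0 k)) Lv yv i) with hP0
    have hP0n : ‖P0‖ = 1 := by
      rw [hP0, norm_prod]
      exact prod_eq_one fun i _ => hX_norm uniq inter_subset_right (hne i)
    have hP00 : P0 ≠ 0 := by
      intro h; rw [h, norm_zero] at hP0n; exact zero_ne_one hP0n
    refine ⟨AXa 𝒜 k x0 (ω \ V ∪ η0) / P0, data_of hb uniq ?_, ?_⟩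
    · intro x hx η hη
      rw [mem_Bo] at hx
      have key := fact_prod D f Hf h2 (p := fun i => (x i, η ∩ Wi b (zz (zr xr y0 k)) Lv yv i))
        (p0 := fun i => (x0 i, η0 ∩ Wi b (zz (zr xr y0 k)) Lv yv i))
        (fun i => ⟨hx i, inter_subset_right⟩) (fun i => ⟨hx0 i, inter_subset_right⟩)
      rw [hf] at key
      simp only at key
      rw [res η hη, res η0 hη0] at key
      rw [div_mul_eq_mul_div, eq_div_iff hP00]
      exact key
    · rw [norm_div, hP0n, div_one]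
  · intro hall
    refine data_of hb uniq ?_
    intro x hx η hη
    obtain ⟨i, hi⟩ := hall x hx η hη
    rw [mem_Bo] at hx
    have h1 := (hrel (x := x) (p := fun i => η ∩ Wi b (zz (zr xr y0 k)) Lv yv i) hx
      (fun i => inter_subset_right) i).1 hi
    rw [res η hη] at h1
    rw [h1, zero_mul]

/-- near property of a window from the near property of the box -/
lemma near_of (hb : 4 ≤ b) {i : Fin m₁ ⊕ Fin m₂} (hi : Lv i ≠ 0) {hN : 0 < N} {c0 R : ℕ}
    (hR : (R : ℤ) = b ^ (Lv i + 1) + 1) (hc0 : (c0 : ℤ) = k + czz i (b ^ Lv i * yv i) - (2 * R + 1))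
    (hN2 : c0 + (2 * (2 * R + 1) + 1) < N) {Wq : Bool → Fin N → Fin N → Prop} {e : Bool} {x1 : ℕ}
    (hx1 : x1 < 2 * (2 * R + 1) + 1)
    (hn : NearW (xr + c0) y0 (2 * R + 1) (2 * (2 * R + 1) + 1) (clS N c0 hN)
      (InB b (zz (zr xr y0 k) i) (Lv i) (yv i)) Wq e x1) :
    |(((clS N c0 hN x1 : Fin N) : ℕ) : ℤ) - ctz k b Lv yv i| ≤ rad b Lv i ∧
      NearR Wq e (clS N c0 hN x1) (ctz k b Lv yv i) (8 * b ^ Lv i - 2) (rad b Lv i) := by
  classical
  have clv : ∀ j < 2 * (2 * R + 1) + 1, ((clS N c0 hN j : Fin N) : ℕ) = c0 + j := by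
    intro j hj
    unfold clS
    simp only
    exact Nat.mod_eq_of_lt (by omega)
  have hcc : ctz k b Lv yv i = c0 + (2 * R + 1) := by unfold ctz; rw [hc0]; ring
  have hrad : rad b Lv i = 2 * R + 1 := by unfold rad; rw [if_neg hi, hR]
  have hbl : 8 * b ^ Lv i ≤ 2 * R := by
    rw [hR, pow_succ]
    have : 0 < b ^ Lv i := by positivity
    nlinarith
  refine ⟨?_, ?_⟩
  · rw [clv x1 hx1, hcc, hrad, abs_le]
    push_cast
    omega
  · obtain ⟨S, hS, hc⟩ := hn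
    refine ⟨S.image (clS N c0 hN), card_image_le.trans hS, ?_⟩
    intro c hcr hcS
    have hcr' := hcr
    rw [hcc, abs_le] at hcr'
    set ic : ℕ := (c : ℕ) - c0 with hic
    have hic2 : (c : ℕ) = c0 + ic := by omega
    have hicw : ic < 2 * (2 * R + 1) + 1 := by omega
    have ec : c = clS N c0 hN ic := Fin.ext (by rw [clv ic hicw]; exact hic2)
    have hlab := nl_of (xr := xr) (y0 := y0) (k := (k : ℤ)) hb (cz := czz i) (z := zr xr y0 k)
      (fun j => rfl) hc0 (i := ic) (by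
        have e1 : (c0 : ℤ) + ic - (k + czz i (b ^ Lv i * yv i)) = ((c : ℕ) : ℤ) - ctz k b Lv yv i := by
          rw [hic2]; unfold ctz; push_cast; ring
        rw [e1]; exact hcr)
    have eIn : InB b (zz (zr xr y0 k) i) (Lv i) (yv i) =
        InB b (fun x => zr xr y0 k (czz i x)) (Lv i) (yv i) := by rw [zz_czz]
    have hts : gl (xr + c0) y0 (2 * R + 1) ic
        (if e then 2 * R + 1 else 2 * R + 1 - 1) ∈
        InB b (zz (zr xr y0 k) i) (Lv i) (yv i) := by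
      rw [eIn]
      cases e
      · exact hlab.2
      · exact hlab.1
    have hnS : ic ∉ S := fun hh => hcS (by rw [ec]; exact mem_image_of_mem _ hh)
    obtain ⟨c', hc', h1, h2, h3⟩ := hc ic hicw hts hnS
    refine ⟨clS N c0 hN c', by rw [ec]; exact h1, ?_, ?_, ?_⟩
    · rw [clv c' hc', hcc, hrad, abs_le]
      push_cast
      omega
    · rintro ⟨g1, g2⟩
      rw [Fin.lt_def, clv x1 hx1] at g1
      rw [Fin.lt_def, clv x1 hx1, clv c' hc'] at g2
      exact h2 ⟨by omega, by omega⟩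
    · rintro ⟨g1, g2⟩
      rw [Fin.lt_def, clv x1 hx1, clv c' hc'] at g1
      rw [Fin.lt_def, clv x1 hx1] at g2
      exact h3 ⟨by omega, by omega⟩

/-- the reference: columns `x1 i` and sides `e i` of the windows -/
structure RefR (k : ℕ) (b : ℤ) (Lv : Fin m₁ ⊕ Fin m₂ → ℕ) (yv : Fin m₁ ⊕ Fin m₂ → ℤ)
    (Wq : Bool → Fin N → Fin N → Prop) (x1 : Fin m₁ ⊕ Fin m₂ → Fin N) (e : Fin m₁ ⊕ Fin m₂ → Bool) :
    Prop where
  pt : ∀ i, Lv i = 0 → ((x1 i : ℕ) : ℤ) = ctz k b Lv yv i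
  bd : ∀ i, |((x1 i : ℕ) : ℤ) - ctz k b Lv yv i| ≤ rad b Lv i
  near : ∀ i, Lv i ≠ 0 → NearR Wq (e i) (x1 i) (ctz k b Lv yv i) (8 * b ^ Lv i - 2) (rad b Lv i)

/-- **The factorization with the outer factor of the first crossings.** -/
theorem amp_first (H : WFam EL EU N xr y0 yc 𝒜 Wr) (hb : 4 ≤ b) (hK0 : 1 ≤ K0)
    (hK : K0 * (4 * b + 8) + 1 ≤ K) (hkN : k ≤ N)
    (hgeo : RowGeo (gE EL EU (1, -1)) (zr xr y0 k) K0 k (N - k))
    (hyk : (yc : ℕ) = k ∨ (yc : ℕ) + 1 = k) (hk₁ : k₁ ∈ cells b K S m₁ k)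
    (hk₂ : k₂ ∈ cells b K S m₂ (N - k)) (hL : Lv ∈ Lev (lv2 k₁ k₂))
    (hyv : yv ∈ Num b (lv2 k₁ k₂) (nu2 k₁ k₂) Lv)
    (uniq : ∀ i, Lv i ≠ 0 → ∀ a a', FarIn (InB b (zz (zr xr y0 k) i) (Lv i) (yv i))
      (OutB b (zz (zr xr y0 k) i) (Lv i) (yv i)) ω a → FarIn (InB b (zz (zr xr y0 k) i) (Lv i) (yv i))
      (OutB b (zz (zr xr y0 k) i) (Lv i) (yv i)) ω a' → a = a') :
    ∃ A, AmpData b (zz (zr xr y0 k)) Lv yv ω (fun x ζ => AXa 𝒜 k x ζ) A
        (hX xr y0 k b Lv yv ω) ∧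
      (A = 0 ∨ ∃ η0, η0 ⊆ univ.biUnion (Wi b (zz (zr xr y0 k)) Lv yv) ∧
        ∃ (x1 : Fin m₁ ⊕ Fin m₂ → Fin N) (e : Fin m₁ ⊕ Fin m₂ → Bool),
          ‖A‖ = ‖𝒜 (univ.image x1)
            (ω \ (univ.biUnion (Wi b (zz (zr xr y0 k)) Lv yv)) ∪ η0)‖ ∧
          RefR k b Lv yv (Wr (ω \ (univ.biUnion (Wi b (zz (zr xr y0 k)) Lv yv)) ∪ η0)) x1 e ∧
          ∀ i, Lv i ≠ 0 → ∀ a, FarIn (InB b (zz (zr xr y0 k) i) (Lv i) (yv i))
            (OutB b (zz (zr xr y0 k) i) (Lv i) (yv i))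
            (ω \ (univ.biUnion (Wi b (zz (zr xr y0 k)) Lv yv)) ∪ η0) a →
            Con (ω \ (univ.biUnion (Wi b (zz (zr xr y0 k)) Lv yv)) ∪ η0) (gE EL EU (1, -1)) a
              (sm true y0 (xr - y0 + 1 + (x1 i : ℕ)))) := by
  classical
  set V := univ.biUnion (Wi b (zz (zr xr y0 k)) Lv yv) with hV
  obtain ⟨D1, D2⟩ := amp_data H hb hK0 hK hkN hgeo hyk hk₁ hk₂ hL hyv uniq
  have hN : 0 < N := by have := yc.2; omega
  have hK2 : 4 * b + 9 ≤ K := by nlinarith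
  by_cases hgood : ∃ x0 ∈ Bo b Lv yv, ∃ η0, η0 ⊆ V ∧
      ∀ i, hX xr y0 k b Lv yv ω i (x0 i) (η0 ∩ Wi b (zz (zr xr y0 k)) Lv yv i) ≠ 0
  swap
  · push Not at hgood
    exact ⟨0, D2 hgood, Or.inl rfl⟩
  obtain ⟨x0, hx0, η0, hη0, hne⟩ := hgood
  obtain ⟨A, hA, hAn⟩ := D1 x0 hx0 η0 hη0 hne
  refine ⟨A, hA, ?_⟩
  by_cases hle : A = 0
  · exact Or.inl hle
  right
  refine ⟨η0, hη0, ?_⟩
  set ζ := ω \ V ∪ η0 with hζdef
  have hx0' := mem_Bo.1 hx0
  have hLi := mem_Lev.1 hL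
  have hyi := mem_Num.1 hyv
  have top : ∀ i, x0 i ∈ dy b (lv2 k₁ k₂ i) (nu2 k₁ k₂ i) := fun i =>
    dy_trans (by omega) (hLi i) (hx0' i) (hyi i)
  -- the columns of the reference
  have hrg : ∀ i, 0 ≤ (k : ℤ) + czz i (x0 i) ∧ (k : ℤ) + czz i (x0 i) < N := fun i =>
    col_range (by omega) (by omega) hkN hk₁ hk₂ (top i)
  set xc : Fin m₁ ⊕ Fin m₂ → Fin N := fun i =>
    ⟨((k : ℤ) + czz i (x0 i)).toNat, by have := hrg i; omega⟩ with hxc
  have hxcv : ∀ i, ((xc i : ℕ) : ℤ) = k + czz i (x0 i) := by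
    intro i
    have := hrg i
    change ((((k : ℤ) + czz i (x0 i)).toNat : ℕ) : ℤ) = _
    omega
  have hcs : cs N k (cols2 x0) = univ.image xc := by
    ext c
    unfold cs
    rw [mem_filter, cols2_eq, mem_image, mem_image]
    constructor
    · rintro ⟨-, i, -, hi⟩
      exact ⟨i, mem_univ _, Fin.ext (by have := hxcv i; omega)⟩
    · rintro ⟨i, -, rfl⟩
      exact ⟨mem_univ _, i, mem_univ _, by have := hxcv i; omega⟩
  have eAX : AXa 𝒜 k x0 ζ = 𝒜 (univ.image xc) ζ := by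
    unfold AXa
    rw [hcs]
  rw [eAX] at hAn
  have hAne : 𝒜 (univ.image xc) ζ ≠ 0 := by
    intro h0
    rw [h0, norm_zero, norm_eq_zero] at hAn
    exact hle hAn
  -- the data of the windows
  have hxcJ : ∀ i, |((xc i : ℕ) : ℤ) - ctz k b Lv yv i| ≤ rad b Lv i := by
    intro i
    have h1 := dy_bd (by omega) (hx0' i)
    have e1 : ((xc i : ℕ) : ℤ) - ctz k b Lv yv i = czz i (x0 i) - czz i (b ^ Lv i * yv i) := by
      rw [hxcv]; unfold ctz; ring
    rw [e1, czz_iso]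
    unfold rad
    split_ifs with h0
    · rw [h0, pow_zero, one_mul] at h1 ⊢
      rw [abs_le]; omega
    · have hp : 0 < b ^ Lv i := by positivity
      have h2 : b ^ Lv i ≤ b ^ (Lv i + 1) := by rw [pow_succ]; nlinarith
      rw [abs_le]; omega
  have ins : ∀ (g : Fin m₁ ⊕ Fin m₂ → Fin N) j,
      univ.image g = insert (g j) ((univ.erase j).image g) := by
    intro g j
    rw [← image_insert, insert_erase (mem_univ j)]
  have far : ∀ (g : Fin m₁ ⊕ Fin m₂ → Fin N), (∀ i, |((g i : ℕ) : ℤ) - ctz k b Lv yv i| ≤ rad b Lv i) →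
      ∀ j, ∀ c ∈ (univ.erase j).image g, rad b Lv j < |((c : ℕ) : ℤ) - ctz k b Lv yv j| := by
    intro g hg j c hc
    obtain ⟨i, hi, rfl⟩ := mem_image.1 hc
    have hij : j ≠ i := (mem_erase.1 hi).1.symm
    have h1 := rad_sep (k := k) hb hK2 hk₁ hk₂ hL hyv hij
    have h2 := hg i
    have h3 := abs_sub_le (ctz k b Lv yv i) ((g i : ℕ) : ℤ) (ctz k b Lv yv j)
    have h4 := abs_sub_comm (ctz k b Lv yv i) ((g i : ℕ) : ℤ)
    have h5 := abs_sub_comm (ctz k b Lv yv i) (ctz k b Lv yv j)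
    linarith
  have hwin : ∀ i, ∃ (e : Bool) (x1 : Fin N), (Lv i = 0 → x1 = xc i) ∧
      |((x1 : ℕ) : ℤ) - ctz k b Lv yv i| ≤ rad b Lv i ∧
      (Lv i ≠ 0 → NearR (Wr ζ) e x1 (ctz k b Lv yv i) (8 * b ^ Lv i - 2) (rad b Lv i)) ∧
      (Lv i ≠ 0 → ∀ a, FarIn (InB b (zz (zr xr y0 k) i) (Lv i) (yv i))
        (OutB b (zz (zr xr y0 k) i) (Lv i) (yv i)) ζ a →
        Con ζ (gE EL EU (1, -1)) a (sm true y0 (xr - y0 + 1 + (x1 : ℕ)))) ∧
      (Lv i ≠ 0 → ∀ S' : Finset (Fin N), (∀ c ∈ S', rad b Lv i < |((c : ℕ) : ℤ) - ctz k b Lv yv i|) →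
        ‖𝒜 (insert (xc i) S') ζ‖ = ‖𝒜 (insert x1 S') ζ‖) := by
    intro i
    by_cases hi : Lv i = 0
    · exact ⟨true, xc i, fun _ => rfl, hxcJ i, fun h => absurd hi h, fun h => absurd hi h,
        fun h => absurd hi h⟩
    · obtain ⟨c0, R, W, hfar, hR, hc0, hc0p, hN2, -⟩ :=
        win_geo hb hK0 hK hkN hgeo hyk hk₁ hk₂ hL hyv hN hi
      have hcc : ctz k b Lv yv i = c0 + (2 * R + 1) := by unfold ctz; rw [hc0]; ring
      have hrad : rad b Lv i = 2 * R + 1 := by unfold rad; rw [if_neg hi, hR]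
      have hnot : ∀ S' : Finset (Fin N), (∀ c ∈ S', rad b Lv i < |((c : ℕ) : ℤ) - ctz k b Lv yv i|) →
          ∀ j < 2 * (2 * R + 1) + 1, clS N c0 hN j ∉ S' := by
        intro S' hS' j hj hmem
        have h1 := hS' _ hmem
        have h2 : ((clS N c0 hN j : Fin N) : ℕ) = c0 + j := by
          unfold clS
          simp only
          exact Nat.mod_eq_of_lt (by omega)
        rw [h2, hcc, hrad, lt_abs] at h1
        push_cast at h1
        omega
      have hloc : Loc (InB b (zz (zr xr y0 k) i) (Lv i) (yv i))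
          (OutB b (zz (zr xr y0 k) i) (Lv i) (yv i)) ω
          (η0 ∩ Wi b (zz (zr xr y0 k)) Lv yv i) ζ := by
        have eW : Wi b (zz (zr xr y0 k)) Lv yv i = InB b (zz (zr xr y0 k) i) (Lv i) (yv i) := by
          unfold Wi; rw [if_neg hi]
        have hdisj : ∀ j, j ≠ i → ∀ e ∈ OutB b (zz (zr xr y0 k) i) (Lv i) (yv i),
            e ∉ Wi b (zz (zr xr y0 k)) Lv yv j :=
          out_disj hb hgeo (by nlinarith) hk₁ hk₂ hL hyv hi
        intro e he
        rw [hζdef, mem_union, mem_union, mem_sdiff, mem_sdiff, mem_inter]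
        constructor
        · rintro (⟨h1, h2⟩ | ⟨h1, h2⟩)
          · left
            refine ⟨h1, fun h3 => ?_⟩
            rw [hV, mem_biUnion] at h3
            obtain ⟨j, -, h4⟩ := h3
            by_cases hj : j = i
            · subst hj; rw [eW] at h4; exact h2 h4
            · exact hdisj j hj e he h4
          · exact Or.inr h1
        · rintro (⟨h1, h2⟩ | h1)
          · left
            refine ⟨h1, fun h3 => h2 ?_⟩
            rw [hV, mem_biUnion]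
            exact ⟨i, mem_univ _, by rw [eW]; exact h3⟩
          · right
            refine ⟨h1, ?_⟩
            have h2 := hη0 h1
            rw [hV, mem_biUnion] at h2
            obtain ⟨j, -, h4⟩ := h2
            by_cases hj : j = i
            · subst hj; exact h4
            · exact absurd h4 (hdisj j hj e he)
      have hsub : η0 ∩ Wi b (zz (zr xr y0 k)) Lv yv i ⊆ InB b (zz (zr xr y0 k) i) (Lv i) (yv i) := by
        refine inter_subset_right.trans ?_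
        unfold Wi; rw [if_neg hi]
      have hne1 : 𝒜 (insert (xc i) ((univ.erase i).image xc)) ζ ≠ 0 := by
        rw [← ins xc i]; exact hAne
      obtain ⟨e, x1, hx1, h1, h5, h2⟩ := H.first W (hnot _ (far xc hxcJ i)) (uniq i hi) (hx0' i) hsub
        hloc (c := xc i) (by rw [hxcv]; ring) hne1
      obtain ⟨h3, h4⟩ := near_of hb hi hR hc0 hN2 hx1 h1
      exact ⟨e, clS N c0 hN x1, fun h => absurd h hi, h3, fun _ => h4, fun _ => h5,
        fun _ S' hS' => h2 S' (hnot S' hS')⟩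
  choose e x1 hp1 hp2 hp3 hp5 hp4 using hwin
  -- moving the coupons
  have hmove : ∀ s : Finset (Fin m₁ ⊕ Fin m₂),
      ‖𝒜 (univ.image (fun i => if i ∈ s then x1 i else xc i)) ζ‖ =
        ‖𝒜 (univ.image xc) ζ‖ := by
    intro s
    induction s using Finset.induction_on with
    | empty => simp
    | insert j s hj ih =>
      set g : Fin m₁ ⊕ Fin m₂ → Fin N := fun i => if i ∈ s then x1 i else xc i with hg
      set g' : Fin m₁ ⊕ Fin m₂ → Fin N := fun i => if i ∈ insert j s then x1 i else xc i with hg'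
      have hgJ : ∀ i, |((g i : ℕ) : ℤ) - ctz k b Lv yv i| ≤ rad b Lv i := by
        intro i
        rw [hg]
        simp only
        split_ifs
        · exact hp2 i
        · exact hxcJ i
      have e1 : (univ.erase j).image g' = (univ.erase j).image g := by
        refine image_congr ?_
        intro i hi
        have hij : i ≠ j := (mem_erase.1 (mem_coe.1 hi)).1
        rw [hg, hg']
        simp only [mem_insert, hij, false_or]
      have e2 : g' j = x1 j := by rw [hg']; simp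
      have e3 : g j = xc j := by rw [hg]; simp only [hj, if_false]
      rw [ins g' j, e1, e2, ← ih, ins g j, e3]
      by_cases hj0 : Lv j = 0
      · rw [hp1 j hj0]
      · exact (hp4 j hj0 _ (far g hgJ j)).symm
  refine ⟨x1, e, ?_, ?_, hp5⟩
  · have h1 := hmove univ
    have e1 : (fun i => if i ∈ (univ : Finset (Fin m₁ ⊕ Fin m₂)) then x1 i else xc i) = x1 := by
      funext i; rw [if_pos (mem_univ _)]
    rw [e1] at h1
    rw [hAn, ← h1]
  · refine ⟨fun i hi => ?_, hp2, hp3⟩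
    rw [hp1 i hi]
    have := hxcJ i
    unfold rad at this
    rw [if_pos hi, abs_le] at this
    omega

end

end Pool.Agent.H81.W
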