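import Mathlib
import Pool.Agent.H81.G1.F3

set_option autoImplicit false
set_option linter.unusedSectionVars false
open Finset

/-! # Blocks of a row with free columns, the pointwise bound

As `H81/G1/Blk`, `F3`, but columns `c ∉ sp` with `U c = none` are allowed (their strands reach the distance of
the special points), and the bound of the state sum by the exits is an input. -/

namespace Pool.Agent.H81.W

open Pool.Agent.H81.G1
open Pool.Agent.Q1.M6b.Strand Pool.Agent.Q1.M6b.ExN Pool.Agent.Q1.M6b.PB Pool.Agent.Q1.M6b.Meander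
open Pool.Agent.H75.Perc Pool.Agent.H75.TwoArm Pool.Agent.Q1.M6b.Nest Pool.Agent.Q1.M6b.Gd
open Pool.Agent.H34.Q1

variable {N : ℕ} {X : Net (Fin N)} {a b : Fin N → ℂ} {U D : Fin N → Option (Fin N)}
  {sp cp : Finset (Fin N)} {Z Z' : Finset ℕ} {sd : Fin N → Bool}

/-- the data of the blocks, columns without arc allowed -/
structure BlkZ (X : Net (Fin N)) (sp cp : Finset (Fin N)) (a b : Fin N → ℂ)
    (U D : Fin N → Option (Fin N)) (Z Z' : Finset ℕ) (sd : Fin N → Bool) : Prop where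
  ov : ∀ c, c ∉ cp → a c = zt ^ (4 : ℤ) ∧ b c = zt ^ (-4 : ℤ)
  cps : cp ⊆ sp
  anc : ∀ z : Fin N, Anch X sp (z, .W) ∧ Anch X sp (z, .E)
  cut : ∀ c ∈ cp, (c : ℕ) ∈ Z ∧ (c : ℕ) + 1 ∈ Z
  cut' : ∀ c ∈ sp, (c : ℕ) ∈ Z'
  mE : ∀ c, Sp X (c, .E) → (c : ℕ) + 1 ∈ Z
  mN : ∀ c, Sp X (c, .N) → U c = none
  mS : ∀ c, Sp X (c, .S) → D c = none
  sub : Z ⊆ Z'
  side : ∀ c c', SB Z c c' → sd c = sd c'

/-- no coupon strictly inside a block -/
lemma BlkZ.nsp (h : BlkZ X sp cp a b U D Z Z' sd) {x y : Fin N} (hlt : x < y) (hb : SB Z x y) :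
    ∀ c, x ≤ c → c ≤ y → c ∉ cp := by
  intro c h1 h2 hc
  have hlt' := Fin.lt_def.1 hlt
  rcases eq_or_lt_of_le h1 with rfl | h3
  · exact (hb _ (h.cut x hc).2).1 ⟨by omega, by omega⟩
  · exact (hb _ (h.cut c hc).1).1 ⟨Fin.lt_def.1 h3, Fin.le_def.1 h2⟩

lemma BlkZ.nE (h : BlkZ X sp cp a b U D Z Z' sd) {x y : Fin N} (hb : SB Z x y) :
    ∀ c, x ≤ c → c < y → ¬ Sp X (c, .E) := by
  intro c h1 h2 hc
  have a1 := Fin.le_def.1 h1
  have a2 := Fin.lt_def.1 h2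
  exact (hb _ (h.mE c hc)).1 ⟨by omega, by omega⟩

/-- **the data of the blocks give the data of the row** -/
theorem BlkZ.rowData (h : BlkZ X sp cp a b U D Z Z' sd) (hR : RM X U D) :
    RowData2 X sp a b (LNb U Z sd) (LSb D Z sd) (Exb U D sp Z Z' sd) where
  ov c hc := h.ov c fun hh => hc (h.cps hh)
  anc := h.anc
  innN p hp := by
    obtain ⟨h2, h3, h4, h5⟩ := mem_LNb.1 hp
    have hn := h.nsp h3 h5
    exact hR.inner h4 h3 (fun c a1 a2 => h.ov c (hn c a1 a2)) (h.nE h5)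
      (fun c a1 a2 hc => hR.pU.under h4 c a1 a2 (h.mN c hc))
  innS p hp := by
    obtain ⟨h2, h3, h4, h5⟩ := mem_LSb.1 hp
    have hn := h.nsp h3 h5
    exact hR.innerS h4 h3 (fun c a1 a2 => h.ov c (hn c a1 a2)) (h.nE h5)
      (fun c a1 a2 hc => hR.pD.under h4 c a1 a2 (h.mS c hc))
  dis p hp q hq := by
    obtain ⟨h2, h3, h4, h5⟩ := mem_LNb.1 hp
    obtain ⟨g2, g3, g4, g5⟩ := mem_LSb.1 hq
    have e1 := h.side _ _ h5
    have e2 := h.side _ _ g5
    have key : ∀ x y : Fin N, sd x = true → sd y = false → x ≠ y := by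
      rintro x y a1 a2 rfl
      rw [a1] at a2
      exact absurd a2 (by decide)
    have e1' : sd p.2 = true := by rw [← e1]; exact h2
    have e2' : sd q.2 = false := by rw [← e2]; exact g2
    exact ⟨key _ _ h2 g2, key _ _ h2 e2', key _ _ e1' g2, key _ _ e1' e2'⟩
  cov c hc _ := by
    classical
    cases hs : sd c
    · -- lower side
      by_cases hex : ∃ c', D c = some c' ∧ SB Z c c'
      · obtain ⟨c', h1, h2⟩ := hex
        left
        rcases lt_trichotomy c c' with h3 | h3 | h3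
        · exact ⟨(c, c'), mem_union_right _ (mem_LSb.2 ⟨hs, h3, h1, h2⟩), Or.inl rfl⟩
        · exact absurd h3 (hR.pD.ne _ _ h1)
        · refine ⟨(c', c), mem_union_right _ (mem_LSb.2 ⟨?_, h3, hR.pD.sy _ _ h1,
            h2.symm⟩), Or.inr rfl⟩
          rw [← h.side _ _ h2]; exact hs
      · right
        push Not at hex
        exact ⟨⟨bk Z' c, bk_lt Z' c⟩, mem_filter.2 ⟨mem_union_right _ (mem_XD.2 ⟨hc, hs, hex⟩), rfl⟩⟩
    · by_cases hex : ∃ c', U c = some c' ∧ SB Z c c'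
      · obtain ⟨c', h1, h2⟩ := hex
        left
        rcases lt_trichotomy c c' with h3 | h3 | h3
        · exact ⟨(c, c'), mem_union_left _ (mem_LNb.2 ⟨hs, h3, h1, h2⟩), Or.inl rfl⟩
        · exact absurd h3 (hR.pU.ne _ _ h1)
        · refine ⟨(c', c), mem_union_left _ (mem_LNb.2 ⟨?_, h3, hR.pU.sy _ _ h1,
            h2.symm⟩), Or.inr rfl⟩
          rw [← h.side _ _ h2]; exact hs
      · right
        push Not at hex
        exact ⟨⟨bk Z' c, bk_lt Z' c⟩, mem_filter.2 ⟨mem_union_left _ (mem_XU.2 ⟨hc, hs, hex⟩), rfl⟩⟩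
  gap k c hc c' hc' hlt := by
    classical
    obtain ⟨h1, h2⟩ := mem_filter.1 hc
    obtain ⟨h3, h4⟩ := mem_filter.1 hc'
    have hb : SB Z' c c' := bk_SB (h2.trans h4.symm) hlt
    have hbZ : SB Z c c' := fun z hz => hb z (h.sub hz)
    have hcs : c ∉ sp := by
      rcases mem_union.1 h1 with h5 | h5
      · exact (mem_XU.1 h5).1
      · exact (mem_XD.1 h5).1
    refine ⟨?_, fun z z' a1 a2 a3 => ⟨hR.row z z' a3, h.nE hbZ z a1 ?_⟩⟩
    · intro z a1 a2 hz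
      rcases eq_or_lt_of_le a1 with rfl | a3
      · exact hcs hz
      · exact (hb _ (h.cut' z hz)).1 ⟨Fin.lt_def.1 a3, Fin.le_def.1 a2⟩
    · rw [Fin.lt_def]
      have := Fin.le_def.1 a2
      omega

/-- **The bound of a row with blocks.** -/
theorem BlkZ.bound {r : ℝ} (h : BlkZ X sp cp a b U D Z Z' sd) (hR : RM X U D)
    (hbd : ∀ (LN LS : Finset (Fin N × Fin N)) (m : ℕ) (Ex : Fin m → Finset (Fin N)),
      RowData2 X sp a b LN LS Ex → (∀ p ∈ LN, U p.1 = some p.2) → (∀ p ∈ LS, D p.1 = some p.2) →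
      r ≤ 2 ^ (5 * sp.card + m) * ∏ k, (1 + ((Ex k).card : ℝ))) :
    r ≤ 2 ^ (5 * sp.card + (Z'.card + 1)) *
      (1 + ((XU U sp Z sd).card + (XD D sp Z sd).card : ℝ)) ^ (Z'.card + 1) := by
  classical
  refine (hbd _ _ _ _ (h.rowData hR) (fun p hp => (mem_LNb.1 hp).2.2.1)
    (fun p hp => (mem_LSb.1 hp).2.2.1)).trans ?_
  refine mul_le_mul_of_nonneg_left ?_ (by positivity)
  calc ∏ k, (1 + ((Exb U D sp Z Z' sd k).card : ℝ))
      ≤ ∏ _k : Fin (Z'.card + 1), (1 + ((XU U sp Z sd).card + (XD D sp Z sd).card : ℝ)) := by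
        refine Finset.prod_le_prod (fun k _ => by positivity) fun k _ => ?_
        have h1 : (Exb U D sp Z Z' sd k).card ≤ (XU U sp Z sd).card + (XD D sp Z sd).card :=
          (card_filter_le _ _).trans (card_union_le _ _)
        have h2 : ((Exb U D sp Z Z' sd k).card : ℝ) ≤ (XU U sp Z sd).card + (XD D sp Z sd).card := by
          exact_mod_cast h1
        linarith
    _ = _ := by rw [prod_const, card_univ, Fintype.card_fin]

/-! ### The number of exit columns -/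

section

variable {w w' : Finset (ℤ × ℤ)} {G B : Set (ℤ × ℤ)} {cr : Fin N → ℤ × ℤ} {o : Fin N → Bool}
  {V : Fin N → Option (Fin N)} {a0 : ℤ} {Sp : Finset ℤ} {R0 : ℕ}

/-- **The number of exit columns**, abstract form -/
theorem exits_cardK {E W : Finset (ℤ × ℤ)}
    (hcr : ∀ c, (cr c).1 = a0 + (c : ℕ)) (hR0 : 2 ≤ R0)
    (hT : ∀ c : Fin N, ∀ M : ℤ, 1 ≤ M → Dst Sp R0 (cr c) M → OneType E W G (cr c) M)
    {Xc : Finset (Fin N)} (hX : ∀ c ∈ Xc, ∀ M, 1 ≤ M → Dst Sp R0 (cr c) M →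
      (o c = true → Kst (nx w) lab plab G M (cr c)) ∧
        (o c = false → Kst (pv w) plab lab G M (cr c))) :
    Xc.card ≤ (9 * Sp.card * Nat.log 2 R0 + (4 * N / R0 + 2)) *
      (KK (nx w) lab plab E W G (univ.image cr) (Nat.log 2 R0) +
        KK (pv w) plab lab E W G (univ.image cr) (Nat.log 2 R0)) + 6 * Sp.card := by
  classical
  have hinj : Function.Injective cr := by
    intro c c' he
    have h1 := hcr c
    have h2 := hcr c'
    rw [he] at h1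
    exact Fin.ext (by omega)
  have hRa : ∀ c ∈ univ.image cr, a0 ≤ c.1 ∧ c.1 ≤ a0 + N := by
    intro c hc
    obtain ⟨k, -, rfl⟩ := mem_image.1 hc
    rw [hcr]
    have := k.2
    omega
  have hcol : ∀ b : ℤ, ((univ.image cr).filter fun c => c.1 = b).card ≤ 1 := by
    intro b
    rw [card_le_one]
    intro x hx y hy
    obtain ⟨h1, h2⟩ := mem_filter.1 hx
    obtain ⟨h3, h4⟩ := mem_filter.1 hy
    obtain ⟨k, -, rfl⟩ := mem_image.1 h1
    obtain ⟨l, -, rfl⟩ := mem_image.1 h3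
    rw [hcr] at h2 h4
    have : k = l := Fin.ext (by omega)
    rw [this]
  have hT' : ∀ c ∈ univ.image cr, ∀ M : ℤ, 1 ≤ M → Dst Sp R0 c M → OneType E W G c M := by
    intro c hc
    obtain ⟨k, -, rfl⟩ := mem_image.1 hc
    exact hT k
  have key : ∀ (b : Bool) (f lb lb' : ℤ × ℤ → ℤ × ℤ),
      (∀ c ∈ Xc, o c = b → ∀ M, 1 ≤ M → Dst Sp R0 (cr c) M → Kst f lb lb' G M (cr c)) →
      ((Xc.filter fun c => o c = b).image cr).card ≤
        (9 * Sp.card * Nat.log 2 R0 + (4 * N / R0 + 2)) *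
          KK f lb lb' E W G (univ.image cr) (Nat.log 2 R0) + 3 * 1 * Sp.card := by
    intro b f lb lb' hb
    refine exits_le (a := a0) (m := 1) hR0 hRa hcol hT' (image_subset_image (subset_univ _)) ?_
    intro c hc M hM1 hM
    obtain ⟨k, hk, rfl⟩ := mem_image.1 hc
    obtain ⟨h1, h2⟩ := mem_filter.1 hk
    exact hb k h1 h2 M hM1 hM
  have k1 := key true (nx w) lab plab (fun c hc ho M hM1 hM => (hX c hc M hM1 hM).1 ho)
  have k2 := key false (pv w) plab lab (fun c hc ho M hM1 hM => (hX c hc M hM1 hM).2 ho)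
  rw [card_image_of_injective _ hinj] at k1 k2
  have hs : Xc.card ≤ (Xc.filter fun c => o c = true).card + (Xc.filter fun c => o c = false).card := by
    have : Xc ⊆ (Xc.filter fun c => o c = true) ∪ (Xc.filter fun c => o c = false) := by
      intro c hc
      rw [mem_union, mem_filter, mem_filter]
      cases o c
      · exact Or.inr ⟨hc, rfl⟩
      · exact Or.inl ⟨hc, rfl⟩
    exact (card_le_card this).trans (card_union_le _ _)
  calc Xc.card ≤ _ := hs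
    _ ≤ _ := Nat.add_le_add k1 k2
    _ = _ := by ring

/-- the strand of the column `c` reaches the distance `M` -/
def FarW (w : Finset (ℤ × ℤ)) (G : Set (ℤ × ℤ)) (cr : Fin N → ℤ × ℤ) (o : Fin N → Bool) (c : Fin N)
    (M : ℤ) : Prop :=
  (o c = true → ∃ n : ℕ, (∀ t < n, lab ((nx w)^[t] (cr c)) ∈ G) ∧
    FarC (cr c) M ((nx w)^[n] (cr c))) ∧
  (o c = false → ∃ n : ℕ, (∀ t < n, plab ((pv w)^[t] (cr c)) ∈ G) ∧
    FarC (cr c) M ((pv w)^[n] (cr c)))

/-- the strands of the columns without arc in the original configuration -/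
lemma far_kst (h : SideW w' G cr o V) {c : Fin N} {M : ℤ} (hf : FarW w' G cr o c M)
    (hag : ∀ e, e ∉ B → (e ∈ w' ↔ e ∈ w))
    (hB : ∀ e ∈ B, ¬ (|e.1 - (cr c).1| ≤ M ∧ |e.2 - (cr c).2| ≤ M)) :
    (o c = true → Kst (nx w) lab plab G M (cr c)) ∧ (o c = false → Kst (pv w) plab lab G M (cr c)) := by
  constructor
  · intro ho
    obtain ⟨n, h1, h2⟩ := hf.1 ho
    refine kst_agree (f' := nx w') (V := B) lab_near (fun d hd => nx_agree (hag _ hd)) hB ?_
    exact ⟨h.pl c ho, n, h1, h2⟩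
  · intro ho
    obtain ⟨n, h1, h2⟩ := hf.2 ho
    refine kst_agree (f' := pv w') (V := B) plab_near (fun d hd => pv_agree (hag _ hd)) hB ?_
    exact ⟨h.la c ho, n, h1, h2⟩

end

/-! ### Windows -/

section win

variable {ι : Type*} [Fintype ι] [DecidableEq ι]
variable {l r : ι → ℕ} {x : ι → Fin N} {e : ι → Bool} {Iv : ι → Finset (Fin N)}

/-- the windows of a row, no mark on the row -/
structure WinZ (U D : Fin N → Option (Fin N)) (sp : Finset (Fin N)) (l r : ι → ℕ) (x : ι → Fin N)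
    (e : ι → Bool) (Iv : ι → Finset (Fin N)) : Prop where
  disj : ∀ i j, i ≠ j → r i < l j ∨ r j < l i
  lr : ∀ i, l i ≤ (x i : ℕ) ∧ (x i : ℕ) ≤ r i
  rN : ∀ i, r i < N
  iv : ∀ i, ∀ c ∈ Iv i, l i ≤ (c : ℕ) ∧ (c : ℕ) ≤ r i
  near : ∀ i, ∃ S : Finset (Fin N), S.card ≤ 2 ∧ ∀ c ∈ Iv i, c ∉ S → c ∉ sp →
    ∃ c', (if e i then U else D) c = some c' ∧ (l i ≤ (c' : ℕ) ∧ (c' : ℕ) ≤ r i) ∧
      ¬ (c < x i ∧ x i < c') ∧ ¬ (c' < x i ∧ x i < c)

/-- the cuts of the arcs -/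
def ZcZ (N : ℕ) (l : ι → ℕ) (x : ι → Fin N) : Finset ℕ :=
  (univ.biUnion fun i => {l i, (x i : ℕ), (x i : ℕ) + 1}) ∪ {N}

lemma mem_ZcZ {z : ℕ} : z ∈ ZcZ N l x ↔ (∃ i, z = l i ∨ z = x i ∨ z = (x i : ℕ) + 1) ∨ z = N := by
  unfold ZcZ
  simp only [mem_union, mem_biUnion, mem_univ, true_and, mem_insert, mem_singleton]

lemma card_ZcZ : (ZcZ N l x).card ≤ 3 * Fintype.card ι + 1 := by
  unfold ZcZ
  refine (card_union_le _ _).trans (Nat.add_le_add ?_ (by simp))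
  refine card_biUnion_le.trans ?_
  refine (sum_le_card_nsmul _ _ 3 fun i _ => card_le_three).trans ?_
  rw [card_univ, smul_eq_mul, mul_comm]

lemma WinZ.cutZ (h : WinZ U D sp l r x e Iv) : ∀ z ∈ ZcZ N l x, ∀ i, l i < z → z ≤ r i →
    z = x i ∨ z = x i + 1 := by
  intro z hz i h1 h2
  have hlr := h.lr i
  rcases mem_ZcZ.1 hz with ⟨j, hj⟩ | hz
  · by_cases hij : i = j
    · subst hij
      rcases hj with hj | hj | hj
      · omega
      · exact Or.inl hj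
      · exact Or.inr hj
    · have hlj := h.lr j
      exfalso
      rcases h.disj i j hij with h3 | h3 <;> rcases hj with hj | hj | hj <;> omega
  · have := h.rN i; omega

/-- near a window the side is the side of the window -/
lemma WinZ.side (h : WinZ U D sp l r x e Iv) (i : ι) {c : Fin N} (hc : c ∈ Iv i) :
    sdW l e c = e i := by
  obtain ⟨h1, h2⟩ := h.iv i c hc
  have hi : i ∈ Wb l c := mem_filter.2 ⟨mem_univ _, h1⟩
  have hne : (Wb l c).Nonempty := ⟨i, hi⟩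
  unfold sdW sdF
  rw [dif_pos hne]
  obtain ⟨a1, a2⟩ := ((Wb l c).exists_max_image l hne).choose_spec
  set j := ((Wb l c).exists_max_image l hne).choose with hj
  have a3 := a2 i hi
  have a4 : l j ≤ (c : ℕ) := (mem_filter.1 a1).2
  by_cases hij : j = i
  · rw [hij]
  · have h6 := h.lr j
    rcases h.disj j i hij with h5 | h5 <;> omega

/-- the exits near a window: abstract form for one side -/
lemma near_leZ {V : Fin N → Option (Fin N)} (hsy : ∀ c c', V c = some c' → V c' = some c)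
    {l0 r0 : ℕ} {x0 : Fin N} {I : Finset (Fin N)} (hx0 : x0 ∈ sp)
    (hI : ∀ c ∈ I, l0 ≤ (c : ℕ) ∧ (c : ℕ) ≤ r0)
    (hcut : ∀ z ∈ Z, l0 < z → z ≤ r0 → z = x0 ∨ z = x0 + 1)
    (hl : ∃ S : Finset (Fin N), S.card ≤ 2 ∧ ∀ c ∈ I, c ∉ S → c ∉ sp → ∃ c', V c = some c' ∧
      (l0 ≤ (c' : ℕ) ∧ (c' : ℕ) ≤ r0) ∧ ¬ (c < x0 ∧ x0 < c') ∧ ¬ (c' < x0 ∧ x0 < c))
    {E : Finset (Fin N)} (hE : ∀ c ∈ E, c ∉ sp ∧ ∀ c', V c = some c' → ¬ SB Z c c') :
    (E ∩ I).card ≤ 3 := by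
  classical
  obtain ⟨S, hS, hS2⟩ := hl
  have hsub : E ∩ I ⊆ S ∪ (univ.filter fun c => V x0 = some c) := by
    intro c hc
    obtain ⟨h1, h2⟩ := mem_inter.1 hc
    obtain ⟨h3, h5'⟩ := hE c h1
    rw [mem_union, mem_filter]
    by_cases h6 : c ∉ S
    · right
      refine ⟨mem_univ _, ?_⟩
      obtain ⟨c', h4, h6', h9⟩ := hS2 c h2 h6 h3
      have h5 := h5' c' h4
      obtain ⟨z, hz, h7⟩ := sb_not h5
      have h8 := hI c h2
      have h10 := hcut z hz (by omega) (by omega)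
      have h11 : c ≠ x0 := fun hh => h3 (hh ▸ hx0)
      have h12 : c' = x0 := by
        by_contra h13
        rcases lt_or_gt_of_ne h11 with a1 | a1 <;> rcases lt_or_gt_of_ne h13 with a2 | a2
        · have := Fin.lt_def.1 a1; have := Fin.lt_def.1 a2; omega
        · exact h9.1 ⟨a1, a2⟩
        · exact h9.2 ⟨a2, a1⟩
        · have := Fin.lt_def.1 a1; have := Fin.lt_def.1 a2; omega
      rw [← h12]
      exact hsy _ _ h4
    · left
      exact not_not.1 h6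
  have h1 : (univ.filter fun c => V x0 = some c).card ≤ 1 := by
    rw [card_le_one]
    intro a ha b hb
    have e1 := (mem_filter.1 ha).2
    have e2 := (mem_filter.1 hb).2
    rw [e1] at e2
    exact Option.some.inj e2
  calc (E ∩ I).card ≤ _ := card_le_card hsub
    _ ≤ _ := card_union_le _ _
    _ ≤ 2 + 1 := Nat.add_le_add hS h1

end win

/-! ### The theorem -/

section main

variable {ι : Type*} [Fintype ι] [DecidableEq ι]
variable {l r : ι → ℕ} {x : ι → Fin N} {e : ι → Bool} {Iv : ι → Finset (Fin N)}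

/-- **F3 for a row with free columns.** -/
theorem F3Z {ρ : ℝ} (hR : RM X U D) (hB : BlkZ X sp cp a b U D (ZcZ N l x) Z' (sdW l e))
    (hbd : ∀ (LN LS : Finset (Fin N × Fin N)) (m : ℕ) (Ex : Fin m → Finset (Fin N)),
      RowData2 X sp a b LN LS Ex → (∀ p ∈ LN, U p.1 = some p.2) → (∀ p ∈ LS, D p.1 = some p.2) →
      ρ ≤ 2 ^ (5 * sp.card + m) * ∏ k, (1 + ((Ex k).card : ℝ)))
    (hWE : WinZ U D sp l r x e Iv) (hxs : ∀ i, x i ∈ sp) (gD : ∀ c, D c = none → c ∈ sp)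
    {w₁ w₁' E₁ W₁ : Finset (ℤ × ℤ)} {G₁ B₁ : Set (ℤ × ℤ)} {cr₁ : Fin N → ℤ × ℤ} {o₁ : Fin N → Bool}
    {a₁ : ℤ} {Sp₁ : Finset ℤ} {R₁ : ℕ}
    (hU : SideE w₁ w₁' E₁ W₁ G₁ B₁ cr₁ o₁ U a₁ (ZcZ N l x) Sp₁ R₁ Iv)
    (hfar : ∀ c, c ∉ sp → U c = none → ∀ M, 1 ≤ M → Dst Sp₁ R₁ (cr₁ c) M →
      FarW w₁' G₁ cr₁ o₁ c M)
    {w₂ w₂' E₂ W₂ : Finset (ℤ × ℤ)} {G₂ B₂ : Set (ℤ × ℤ)} {cr₂ : Fin N → ℤ × ℤ} {o₂ : Fin N → Bool}
    {a₂ : ℤ} {Sp₂ : Finset ℤ} {R₂ : ℕ}
    (hD : SideE w₂ w₂' E₂ W₂ G₂ B₂ cr₂ o₂ D a₂ (ZcZ N l x) Sp₂ R₂ Iv) :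
    ρ ≤ 2 ^ (5 * sp.card + (Z'.card + 1)) *
      (1 + (6 * Fintype.card ι + TE N w₁ E₁ W₁ G₁ cr₁ Sp₁ R₁ + TE N w₂ E₂ W₂ G₂ cr₂ Sp₂ R₂ : ℕ)) ^
        (Z'.card + 1) := by
  classical
  have hbd' := hB.bound hR hbd
  have bU : (XU U sp (ZcZ N l x) (sdW l e)).card ≤
      3 * (univ.filter fun i => e i = true).card + TE N w₁ E₁ W₁ G₁ cr₁ Sp₁ R₁ := by
    refine side_le (Iv := Iv) ?_ ?_ ?_
    · intro i hi
      have hi := (mem_filter.1 hi).2
      have hn := hWE.near i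
      rw [hi] at hn
      exact near_leZ hR.pU.sy (hxs i) (hWE.iv i) (fun z hz => hWE.cutZ z hz i) hn
        (fun c hc => ⟨(mem_XU.1 hc).1, (mem_XU.1 hc).2.2⟩)
    · intro i hi
      rw [← not_nonempty_iff_eq_empty]
      rintro ⟨c, hc⟩
      obtain ⟨h1, h2⟩ := mem_inter.1 hc
      apply hi
      rw [mem_filter]
      refine ⟨mem_univ _, ?_⟩
      rw [← hWE.side i h2]
      exact (mem_XU.1 h1).2.1
    · refine exits_cardK hU.cr1 hU.r0 hU.one (o := o₁) ?_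
      intro c hc M hM1 hM
      obtain ⟨h1, h2⟩ := mem_filter.1 hc
      obtain ⟨h3, h4, h5⟩ := mem_XU.1 h1
      cases hv : U c with
      | none =>
        exact far_kst hU.wires (hfar c h3 hv M hM1 hM) hU.agr (hU.box c h2 M hM)
      | some c' =>
        have h6 := sb_not (h5 c' hv)
        exact exit_kst hU.wires hU.cr1 hU.agr hU.cuts hv h6 (hU.box c h2) hM
  have bD : (XD D sp (ZcZ N l x) (sdW l e)).card ≤
      3 * (univ.filter fun i => e i = false).card + TE N w₂ E₂ W₂ G₂ cr₂ Sp₂ R₂ := by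
    refine side_le (Iv := Iv) ?_ ?_ ?_
    · intro i hi
      have hi := (mem_filter.1 hi).2
      have hn := hWE.near i
      rw [hi] at hn
      exact near_leZ hR.pD.sy (hxs i) (hWE.iv i) (fun z hz => hWE.cutZ z hz i) hn
        (fun c hc => ⟨(mem_XD.1 hc).1, (mem_XD.1 hc).2.2⟩)
    · intro i hi
      rw [← not_nonempty_iff_eq_empty]
      rintro ⟨c, hc⟩
      obtain ⟨h1, h2⟩ := mem_inter.1 hc
      apply hi
      rw [mem_filter]
      refine ⟨mem_univ _, ?_⟩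
      rw [← hWE.side i h2]
      exact (mem_XD.1 h1).2.1
    · refine exits_cardK hD.cr1 hD.r0 hD.one (o := o₂) ?_
      intro c hc M hM1 hM
      obtain ⟨h1, h2⟩ := mem_filter.1 hc
      obtain ⟨h3, h4, h5⟩ := mem_XD.1 h1
      cases hv : D c with
      | none => exact absurd (gD c hv) h3
      | some c' =>
        have h6 := sb_not (h5 c' hv)
        exact exit_kst hD.wires hD.cr1 hD.agr hD.cuts hv h6 (hD.box c h2) hM
  have c1 : (univ.filter fun i => e i = true).card ≤ Fintype.card ι := card_le_univ _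
  have c2 : (univ.filter fun i => e i = false).card ≤ Fintype.card ι := card_le_univ _
  refine hbd'.trans ?_
  have hbase : (1 + ((XU U sp (ZcZ N l x) (sdW l e)).card +
      (XD D sp (ZcZ N l x) (sdW l e)).card : ℝ)) ≤
      1 + ((6 * Fintype.card ι + TE N w₁ E₁ W₁ G₁ cr₁ Sp₁ R₁ + TE N w₂ E₂ W₂ G₂ cr₂ Sp₂ R₂ : ℕ) : ℝ) := by
    have : (XU U sp (ZcZ N l x) (sdW l e)).card + (XD D sp (ZcZ N l x) (sdW l e)).card ≤
        6 * Fintype.card ι + TE N w₁ E₁ W₁ G₁ cr₁ Sp₁ R₁ + TE N w₂ E₂ W₂ G₂ cr₂ Sp₂ R₂ := by omega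
    have h2 : (((XU U sp (ZcZ N l x) (sdW l e)).card + (XD D sp (ZcZ N l x) (sdW l e)).card : ℕ) : ℝ) ≤
        ((6 * Fintype.card ι + TE N w₁ E₁ W₁ G₁ cr₁ Sp₁ R₁ + TE N w₂ E₂ W₂ G₂ cr₂ Sp₂ R₂ : ℕ) : ℝ) :=
      by exact_mod_cast this
    push_cast at h2 ⊢
    linarith
  exact mul_le_mul_of_nonneg_left (pow_le_pow_left₀ (by positivity) hbase _) (by positivity)

end main

end Pool.Agent.H81.W
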