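import Mathlib
import Pool.Agent.H69.M6b.DataR
import Pool.Agent.H81.W.AmpA
import Pool.Agent.H81.W.BlkZ

set_option autoImplicit false
set_option linter.unusedSectionVars false
set_option linter.unusedVariables false
open Finset

/-! # The bound of the outer factor of the amplitudes with a string

`ZRow`: the reduced net of the row for one configuration and one set of coupons. `coreZ`: the bound of the
amplitude of a reference configuration. `data_rowZ`: the factorization with the bound of the outer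
factor. -/

namespace Pool.Agent.H81.W

open Pool.Agent.H75.Perc Pool.Agent.H75.TwoArm Pool.Agent.Q1 Pool.Agent.H81.G1 Pool.Agent.H69.M6b
open Pool.Agent.H30.Mid (RS rl rp rcr HasRow AR cA cB ug cs)
open Pool.Agent.Q1.M6b.Gl (gE tr mem_tr)
open Pool.Agent.Q1.M6b.Gd
open Pool.Agent.Q1.M6b (dy mem_dy cells)
open Pool.Agent.Q1.M6b.Strand Pool.Agent.Q1.M6b.ExN Pool.Agent.Q1.M6b.PB
open Pool.Agent.Q1.M6b.Meander (dir)
open Pool.Agent.H34.Q1 (OneType Dst)
open Pool.Agent.H53.G1 (gF gF_nonneg gF_root TB TE_le_TB)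

variable {N : ℕ}

/-- **The reduced net of a row** for the configuration `w'` (glued open labels) with the coupons `S`:
`U`, `D` the arcs near the row above and below (not over the column `c0`), `G` the exceptional
columns, `Wr` the relation of the wires, `rr` the height of the zone of the arcs `U`, `r` the norm of the
amplitude. The columns `c ∉ G` with `U c = none` have strands which leave the zone. -/
structure ZRow (x0 y0 : ℤ) (c0 : Fin N) (w' : Finset (ℤ × ℤ)) (Wr : Bool → Fin N → Fin N → Prop)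
    (g rr : ℕ) (S : Finset (Fin N)) (r : ℝ) where
  X : Net (Fin N)
  U : Fin N → Option (Fin N)
  D : Fin N → Option (Fin N)
  G : Finset (Fin N)
  oU : Fin N → Bool
  oD : Fin N → Bool
  card : G.card ≤ g
  rm : RM X U D
  mE : ∀ c, Sp X (c, .E) → (c : ℕ) + 1 = N
  mN : ∀ c, Sp X (c, .N) → U c = none
  mS : ∀ c, Sp X (c, .S) → D c = none
  gD : ∀ c, D c = none → c ∈ G
  wU : SideW w' (HN y0) (sc x0 y0) oU U
  wD : SideW w' (HS y0) (sc x0 y0) oD D
  far : ∀ c, c ∉ G → U c = none → c ≠ c0 → ∀ M : ℤ, 1 ≤ M → M + 1 ≤ |((c : ℕ) : ℤ) - (c0 : ℕ)| →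
    M ≤ (c : ℕ) → M + 1 + (c : ℕ) ≤ N → M ≤ rr → FarW w' (HN y0) (sc x0 y0) oU c M
  up : ∀ c c', Wr true c c' → c ∉ G → (c < c0 ↔ c' < c0) → U c = some c'
  dn : ∀ c c', Wr false c c' → c ∉ G → D c = some c'
  bd : ∀ (LN LS : Finset (Fin N × Fin N)) (m : ℕ) (Ex : Fin m → Finset (Fin N)),
    RowData2 X (S ∪ G) (cA S (zt ^ (4 : ℤ))) (cB S (zt ^ (-4 : ℤ))) LN LS Ex →
    (∀ p ∈ LN, U p.1 = some p.2) → (∀ p ∈ LS, D p.1 = some p.2) →
    r ≤ 2 ^ (5 * (S ∪ G).card + m) * ∏ k, (1 + ((Ex k).card : ℝ))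

section core

variable {x0 y0 : ℤ} {c0 : Fin N} {w' : Finset (ℤ × ℤ)} {Wr : Bool → Fin N → Fin N → Prop} {g rr : ℕ}
  {S : Finset (Fin N)} {r : ℝ} {ι : Type*} [Fintype ι] [DecidableEq ι]

/-- the windows of the row -/
theorem ZRow.winZ (Q : ZRow x0 y0 c0 w' Wr g rr S r) {k : ℕ} {b : ℤ} (hb : 4 ≤ b) {Lv : ι → ℕ}
    {cc : ι → ℤ} {x1 : ι → Fin N} {e : ι → Bool} (h : Wnd N k b Lv cc x1)
    (hcc : ∀ i, Lv i ≠ 0 → Rw b (Lv i) < |((c0 : ℕ) : ℤ) - cc i|)
    (near : ∀ i, Lv i ≠ 0 → NearR Wr (e i) (x1 i) (cc i) (8 * b ^ Lv i - 2) (Rw b (Lv i))) :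
    WinZ Q.U Q.D (S ∪ Q.G) (lw b Lv cc) (rw' b Lv cc) x1 e (Iw N b Lv cc) where
  disj i j hij := by
    have h1 := h.lw_eq i
    have h2 := h.lw_eq j
    have h3 := h.rw_eq (by omega) i
    have h4 := h.rw_eq (by omega) j
    have h5 := h.far i j hij
    rcases lt_abs.1 h5 with h6 | h6 <;> omega
  lr i := by
    have h1 := h.lw_eq i
    have h3 := h.rw_eq (by omega) i
    have h5 := h.nr i
    rw [abs_le] at h5
    omega
  rN i := by
    have h3 := h.rw_eq (by omega) i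
    have := h.hi i
    omega
  iv i c hc := by
    unfold Iw at hc
    split_ifs at hc with hl
    · exact absurd hc (notMem_empty _)
    · have h1 := (mem_filter.1 hc).2
      have h2 := iw_rw hb hl
      have h3 := h.lw_eq i
      have h4 := h.rw_eq (by omega) i
      rw [abs_le] at h1
      omega
  near i := by
    by_cases hl : Lv i = 0
    · refine ⟨∅, by simp, ?_⟩
      intro c hc
      unfold Iw at hc
      rw [if_pos hl] at hc
      exact absurd hc (notMem_empty _)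
    · obtain ⟨S', hS', h1⟩ := near i hl
      refine ⟨S', hS', ?_⟩
      intro c hc hcS hcsp
      unfold Iw at hc
      rw [if_neg hl] at hc
      have hcI := (mem_filter.1 hc).2
      obtain ⟨c', h2, h3, h4, h5⟩ := h1 c hcI hcS
      have hcG : c ∉ Q.G := fun hh => hcsp (mem_union_right _ hh)
      have h6 := h.lw_eq i
      have h7 := h.rw_eq (by omega) i
      have h8 := hcc i hl
      have h9 := iw_rw hb hl
      refine ⟨c', ?_, ?_, h4, h5⟩
      · cases he : e i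
        · rw [he] at h2
          exact Q.dn c c' h2 hcG
        · rw [he] at h2
          refine Q.up c c' h2 hcG ?_
          rw [Fin.lt_def, Fin.lt_def]
          rw [abs_le] at h3 hcI
          rcases lt_abs.1 h8 with h8 | h8 <;> constructor <;> intro _ <;> omega
      · rw [abs_le] at h3
        omega

/-- **The bound of the amplitude of the reference configuration.** -/
theorem coreZ (Q : ZRow x0 y0 c0 w' Wr g rr S r) {k : ℕ} {b : ℤ} (hb : 4 ≤ b) {Lv : ι → ℕ}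
    {cc : ι → ℤ} {x1 : ι → Fin N} {e : ι → Bool} (hW : Wnd N k b Lv cc x1)
    (hS : S = univ.image x1) (hc0S : c0 ∈ S)
    (hcc : ∀ i, Lv i ≠ 0 → Rw b (Lv i) < |((c0 : ℕ) : ℤ) - cc i|)
    (near : ∀ i, Lv i ≠ 0 → NearR Wr (e i) (x1 i) (cc i) (8 * b ^ Lv i - 2) (Rw b (Lv i)))
    {E W ω : Finset (ℤ × ℤ)} {In : ι → Finset (ℤ × ℤ)} (hI0 : ∀ i, Lv i = 0 → In i = ∅)
    (hI1 : ∀ i, Lv i ≠ 0 → ∀ q ∈ In i, |q.1 - (x0 - y0 + 1 + cc i)| ≤ 8 * b ^ Lv i + 1 ∧
      (q.1 + q.2) % 2 = 1)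
    (hag : ∀ q, (∀ i, q ∉ In i) → (q ∈ w' ↔ q ∈ ω ∪ W))
    {Sw : Finset ℤ} {s : ℕ} (hSw : Sw.card ≤ s) (hpt : ∀ t : ℤ, -1 ≤ t → t ≤ 1 →
      x0 - y0 + 1 + (c0 : ℕ) + t ∈ Sw) (hpl : x0 - y0 + 1 ∈ Sw) (hpr : x0 - y0 + N ∈ Sw) {R0 : ℕ}
    (hR0 : 2 ≤ R0) (hrr : R0 ≤ rr)
    (one : ∀ Sp : Finset ℤ, Sw ⊆ Sp → ∀ G : Set (ℤ × ℤ), (∀ q ∈ G, (q.1 + q.2) % 2 = 1) →
      ∀ c : Fin N, ∀ M : ℤ, 1 ≤ M → Dst Sp R0 (sc x0 y0 c) M → OneType E W G (sc x0 y0 c) M) :
    r ≤ gF (4 * Fintype.card ι + g + 2) (Fintype.card ι + g) (Fintype.card ι)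
      (11 * Fintype.card ι + s + 2) N E W W (HN y0) (HS y0) (sc x0 y0) (sc x0 y0) R0 R0 ω := by
  classical
  set l := lw b Lv cc with hl
  set sp : Finset (Fin N) := S ∪ Q.G with hsp
  have hWZ := Q.winZ hb hW hcc near
  set Z := ZcZ N l x1 with hZ
  set Z' : Finset ℕ := Z ∪ sp.image (Fin.val (n := N)) with hZ'
  set Sp : Finset ℤ := Z.image (fun z : ℕ => x0 - y0 + 1 + (z : ℤ)) ∪
    Sb (x0 - y0 + 1) b Lv cc ∪ Sw with hSp
  have hSpc : Sp.card ≤ 11 * Fintype.card ι + s + 2 := by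
    rw [hSp]
    refine (card_union_le _ _).trans ?_
    have h1 : (Z.image (fun z : ℕ => x0 - y0 + 1 + (z : ℤ)) ∪
      Sb (x0 - y0 + 1) b Lv cc).card ≤ (3 * Fintype.card ι + 1) + 8 * Fintype.card ι :=
      (card_union_le _ _).trans (Nat.add_le_add (card_image_le.trans card_ZcZ) card_Sb)
    omega
  have hxS : ∀ i, x1 i ∈ S := fun i => by rw [hS]; exact mem_image_of_mem _ (mem_univ _)
  have hScard : S.card ≤ Fintype.card ι := by
    rw [hS]; exact card_image_le.trans (by rw [card_univ])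
  have hspc : sp.card ≤ Fintype.card ι + g := by
    rw [hsp]
    have := card_union_le S Q.G
    have := Q.card
    omega
  have hZc : Z'.card ≤ 4 * Fintype.card ι + g + 1 := by
    rw [hZ']
    refine (card_union_le _ _).trans ?_
    have h1 : Z.card ≤ 3 * Fintype.card ι + 1 := card_ZcZ
    have h2 : (sp.image (Fin.val (n := N))).card ≤ sp.card := card_image_le
    omega
  have hblk : BlkZ Q.X sp S (cA S (zt ^ (4 : ℤ))) (cB S (zt ^ (-4 : ℤ))) Q.U Q.D Z Z' (sdW l e) :=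
    { ov := fun c hc => by
        unfold cA cB
        rw [if_neg hc, if_neg hc]
        exact ⟨rfl, rfl⟩
      cps := subset_union_left
      anc := fun z => anc_sp Q.rm.inv Q.rm.row ⟨c0, mem_union_left _ hc0S⟩ z
      cut := fun c hc => by
        rw [hS, mem_image] at hc
        obtain ⟨i, -, rfl⟩ := hc
        exact ⟨mem_ZcZ.2 (Or.inl ⟨i, Or.inr (Or.inl rfl)⟩), mem_ZcZ.2 (Or.inl ⟨i, Or.inr (Or.inr rfl)⟩)⟩
      cut' := fun c hc => mem_union_right _ (mem_image.2 ⟨c, hc, rfl⟩)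
      mE := fun c hc => mem_ZcZ.2 (Or.inr (Q.mE c hc))
      mN := Q.mN
      mS := Q.mS
      sub := subset_union_left
      side := fun c c' hc => sdW_SB (fun i => mem_ZcZ.2 (Or.inl ⟨i, Or.inl rfl⟩)) hc }
  have hcr1 : ∀ c : Fin N, (sc x0 y0 c).1 = x0 - y0 + 1 + (c : ℕ) := fun c => by
    unfold sc sm; simp
  have hcuts : ∀ z ∈ Z, x0 - y0 + 1 + (z : ℕ) ∈ Sp := fun z hz => by
    rw [hSp]
    exact mem_union_left _ (mem_union_left _ (mem_image_of_mem _ hz))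
  have hSwSp : Sw ⊆ Sp := by rw [hSp]; exact subset_union_right
  have hagr : ∀ q, q ∉ {q : ℤ × ℤ | ∃ i, q ∈ In i} → (q ∈ w' ↔ q ∈ ω ∪ W) := fun q hq =>
    hag q fun i hi => hq ⟨i, hi⟩
  have hbox : ∀ c : Fin N, (∀ i, c ∉ Iw N b Lv cc i) → ∀ M, Dst Sp R0 (sc x0 y0 c) M →
      ∀ q ∈ {q : ℤ × ℤ | ∃ i, q ∈ In i},
      ¬ (|q.1 - (sc x0 y0 c).1| ≤ M ∧ |q.2 - (sc x0 y0 c).2| ≤ M) := by
    intro c hc M hM q hq
    obtain ⟨i, hi⟩ := hq
    by_cases hl : Lv i = 0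
    · rw [hI0 i hl] at hi
      exact absurd hi (notMem_empty _)
    · obtain ⟨h1, h2⟩ := hI1 i hl q hi
      exact box_far (by rw [hSp]; exact subset_union_right.trans subset_union_left) hl (hc i) hM h1 h2
  have key := F3Z (ι := ι) Q.rm hblk Q.bd hWZ (fun i => mem_union_left _ (hxS i))
    (fun c hc => mem_union_right _ (Q.gD c hc))
    (w₁ := ω ∪ W) (w₁' := w') (E₁ := E) (W₁ := W) (G₁ := HN y0) (B₁ := {q | ∃ i, q ∈ In i})
    (cr₁ := sc x0 y0) (a₁ := x0 - y0 + 1) (Sp₁ := Sp) (R₁ := R0)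
    { wires := Q.wU
      cr1 := hcr1
      agr := hagr
      cuts := hcuts
      r0 := hR0
      one := fun c M hM1 hM => one Sp hSwSp _ HN_odd c M hM1 hM
      box := hbox }
    (fun c hc hn M hM1 hM => by
      refine Q.far c (fun hh => hc (mem_union_right _ hh)) hn
        (fun hh => hc (mem_union_left _ (hh ▸ hc0S))) M hM1 ?_ ?_ ?_ ?_
      · have q1 := hM.2 _ (hSwSp (hpt (-1) (by norm_num) (by norm_num)))
        have q2 := hM.2 _ (hSwSp (hpt 1 (by norm_num) (by norm_num)))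
        have q0 := hM.2 _ (hSwSp (hpt 0 (by norm_num) (by norm_num)))
        rw [hcr1 c] at q0 q1 q2
        rw [le_abs] at q0 q1 q2
        rw [le_abs]; omega
      · have q0 := hM.2 _ (hSwSp hpl)
        rw [hcr1 c, le_abs] at q0
        omega
      · have q0 := hM.2 _ (hSwSp hpr)
        rw [hcr1 c, le_abs] at q0
        have := c.2
        omega
      · have := hM.1
        omega)
    (w₂ := ω ∪ W) (w₂' := w') (E₂ := E) (W₂ := W) (G₂ := HS y0) (B₂ := {q | ∃ i, q ∈ In i})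
    (cr₂ := sc x0 y0) (a₂ := x0 - y0 + 1) (Sp₂ := Sp) (R₂ := R0)
    { wires := Q.wD
      cr1 := hcr1
      agr := hagr
      cuts := hcuts
      r0 := hR0
      one := fun c M hM1 hM => one Sp hSwSp _ HS_odd c M hM1 hM
      box := hbox }
  refine key.trans ?_
  exact Pool.Agent.H53.G1.F3_le_gF (by omega) hspc le_rfl hSpc hSpc

end core

/-! ### The family with the fixed coupon -/

/-- the amplitudes with the fixed coupon at `yc` (`0` if the column `yc` is taken) -/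
noncomputable def AmZ (𝒜 : Finset (Fin N) → Finset (ℤ × ℤ) → ℂ) (yc : Fin N) (S : Finset (Fin N))
    (ζ : Finset (ℤ × ℤ)) : ℂ := if yc ∈ S then 0 else 𝒜 (insert yc S) ζ

section
variable {EL EU : Finset (ℤ × ℤ)} {xr y0 : ℤ} {yc : Fin N}
  {𝒜 : Finset (Fin N) → Finset (ℤ × ℤ) → ℂ} {Wr : Finset (ℤ × ℤ) → Bool → Fin N → Fin N → Prop}

/-- the family with the fixed coupon has the relations of the windows -/
theorem WFam.insZ (H : WFam EL EU N xr y0 yc 𝒜 Wr) : WFam EL EU N xr y0 yc (AmZ 𝒜 yc) Wr := by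
  have hI := H.ins
  have hc : ∀ {k : ℤ} {cr : ℤ → ℤ × ℤ} {cz : ℤ → ℤ} {I : Finset ℤ} {In Out : Finset (ℤ × ℤ)}
      {hN : 0 < N} {c0 w h : ℕ} {x : ℤ} {c : Fin N}, WG EL EU N xr y0 k yc cr cz I In Out hN c0 w h →
      x ∈ I → ((c : Fin N) : ℤ) - k = cz x → yc ≠ c := by
    intro k cr cz I In Out hN c0 w h x c W hx hc
    obtain ⟨i, hi, h1, -⟩ := W.col x hx
    have e : c = clS N c0 hN i := Fin.ext (by omega)
    rw [e]
    exact W.mark i hi
  have hm : ∀ {c : Fin N} {S : Finset (Fin N)}, yc ≠ c → (yc ∈ insert c S ↔ yc ∈ S) := by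
    intro c S hcc
    rw [mem_insert]
    constructor
    · rintro (h | h)
      · exact absurd h hcc
      · exact h
    · exact Or.inr
  refine ⟨?_, ?_, ?_⟩
  · intro k cr cz I In Out ω ζ η hN c0 w h x S c W hS uniq hx hη hζ hcx h0
    unfold AmZ
    split_ifs
    · rfl
    · exact hI.zero W hS uniq hx hη hζ hcx h0
  · intro k cr cz I In Out ω ζ ζ' η η' hN c0 w h x x' S c c' W hS uniq hx hx' hη hη' hζ hζ' hag hcx hcx'
    unfold AmZ
    rw [if_congr (hm (hc W hx hcx)) rfl rfl, if_congr (hm (hc W hx' hcx')) rfl rfl]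
    split_ifs
    · rw [zero_mul, zero_mul]
    · exact hI.two W hS uniq hx hx' hη hη' hζ hζ' hag hcx hcx'
  · intro k cr cz I In Out ω ζ η hN c0 w h x S c W hS uniq hx hη hζ hcx hne
    have hyS : yc ∉ insert c S := by
      intro hh
      apply hne
      unfold AmZ
      rw [if_pos hh]
    have hne' : 𝒜 (insert yc (insert c S)) ζ ≠ 0 := by
      unfold AmZ at hne
      rwa [if_neg hyS] at hne
    obtain ⟨e, x1, hx1, h1, h2, h3⟩ := hI.first W hS uniq hx hη hζ hcx hne'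
    refine ⟨e, x1, hx1, h1, h2, fun S' hS1 => ?_⟩
    unfold AmZ
    rw [if_congr (hm (hc W hx hcx)) rfl rfl, if_congr (hm (W.mark x1 hx1)) rfl rfl]
    split_ifs
    · rfl
    · exact h3 _ hS1

end

/-- **A row with a string.** `EL`, `EU` : random labels below and above the row (without the column of
the string), `W' κ` : the other open labels of the glued configuration (`κ` : state of one more tile),
`k` : column of the string, `Sw` : special columns, `R0` : height of the random zone near the row. -/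
structure RowZI (N : ℕ) (xr y0 : ℤ) (k : ℕ) (EL EU : Finset (ℤ × ℤ)) (W' : Bool → Finset (ℤ × ℤ))
    (K0 : ℤ) (s R0 : ℕ) (Sw : Finset ℤ) : Prop where
  geo : RowGeo (gE EL EU (1, -1)) (zr xr y0 k) K0 k (N - k)
  disj : ∀ κ, Disjoint (gE EL EU (1, -1)) (W' κ)
  near : ∀ (Sp : Finset ℤ), Sw ⊆ Sp → ∀ (c : Fin N) (M : ℤ), 1 ≤ M → Dst Sp R0 (sc xr y0 c) M →
    ∀ e : ℤ × ℤ, (e.1 + e.2) % 2 = 1 → |e.1 - (sc xr y0 c).1| ≤ M → |e.2 - (sc xr y0 c).2| ≤ M →
    e ∈ gE EL EU (1, -1)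
  sw : Sw.card ≤ s
  pt : ∀ t : ℤ, -1 ≤ t → t ≤ 1 → xr - y0 + 1 + k + t ∈ Sw
  pl : xr - y0 + 1 ∈ Sw
  pr : xr - y0 + N ∈ Sw

/-- the factor of `data_rowZ` -/
noncomputable def gZ (N : ℕ) (xr y0 : ℤ) (E : Finset (ℤ × ℤ)) (W' : Bool → Finset (ℤ × ℤ))
    (g s m R0 : ℕ) (ω : Finset (ℤ × ℤ)) : ℝ :=
  ∑ κ : Bool, gR N xr y0 E (W' κ) g s (m + 1) R0 ω

lemma gZ_nonneg (N : ℕ) (xr y0 : ℤ) (E : Finset (ℤ × ℤ)) (W' : Bool → Finset (ℤ × ℤ))
    (g s m R0 : ℕ) (ω : Finset (ℤ × ℤ)) : 0 ≤ gZ N xr y0 E W' g s m R0 ω :=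
  sum_nonneg fun κ _ => gR_nonneg ..

section
variable {EL EU : Finset (ℤ × ℤ)} {W' : Bool → Finset (ℤ × ℤ)} {xr y0 : ℤ} {k : ℕ} {yc : Fin N}
  {𝒜 : Finset (Fin N) → Finset (ℤ × ℤ) → ℂ} {Wr : Finset (ℤ × ℤ) → Bool → Fin N → Fin N → Prop}
  {b K K0 : ℤ} {g s R0 rr : ℕ} {Sw : Finset ℤ} {S m₁ m₂ : ℕ} {k₁ : Fin m₁ → ℕ × ℤ}
  {k₂ : Fin m₂ → ℕ × ℤ} {Lv : Fin m₁ ⊕ Fin m₂ → ℕ} {yv : Fin m₁ ⊕ Fin m₂ → ℤ} {ω : Finset (ℤ × ℤ)}

/-- **The factorization of the amplitudes with a string, with the bound of the outer factor.** -/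
theorem data_rowZ (H : WFam EL EU N xr y0 yc 𝒜 Wr) (I : RowZI N xr y0 k EL EU W' K0 s R0 Sw)
    (hyc : (yc : ℕ) = k)
    (hrow : ∀ T : Finset (Fin N), yc ∈ T → T.card ≤ m₁ + m₂ + 1 → ∀ ζ ⊆ gE EL EU (1, -1),
      𝒜 T ζ ≠ 0 → ∃ κ, Nonempty (ZRow xr y0 yc (ζ ∪ W' κ) (Wr ζ) g rr T ‖𝒜 T ζ‖))
    (hb : 6 ≤ b) (hK0 : 1 ≤ K0) (hK : K0 * (4 * b + 8) + 1 ≤ K) (hkN : k ≤ N) (hR0 : 2 ≤ R0)
    (hrr : R0 ≤ rr)
    (hk₁ : k₁ ∈ cells b K S m₁ k) (hk₂ : k₂ ∈ cells b K S m₂ (N - k)) (hL : Lv ∈ Lev (lv2 k₁ k₂))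
    (hyv : yv ∈ Num b (lv2 k₁ k₂) (nu2 k₁ k₂) Lv) (hω : ω ⊆ gE EL EU (1, -1))
    (hS : Stops b (lv2 k₁ k₂) (fun i => badB b (zz (zr xr y0 k) i) (gE EL EU (1, -1))) Lv yv ω) :
    ∃ A hh, AmpData b (zz (zr xr y0 k)) Lv yv ω (fun x ζ => AXa (AmZ 𝒜 yc) k x ζ) A hh ∧
      ‖A‖ ≤ gZ N xr y0 (gE EL EU (1, -1)) W' g s (m₁ + m₂) R0 ω := by
  classical
  have hb4 : 4 ≤ b := by omega
  have hN : 0 < N := yc.pos
  have hyk' : (yc : ℕ) = k ∨ (yc : ℕ) + 1 = k := Or.inl hyc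
  have geo := fun (i : Fin m₁ ⊕ Fin m₂) (hi : Lv i ≠ 0) =>
    win_geo hb4 hK0 hK hkN I.geo hyk' hk₁ hk₂ hL hyv hN hi
  have hoE : ∀ i, Lv i ≠ 0 → OutB b (zz (zr xr y0 k) i) (Lv i) (yv i) ⊆ gE EL EU (1, -1) := by
    intro i hi
    obtain ⟨c0, R, W, -⟩ := geo i hi
    exact Pool.Agent.H69.M6b.out_sub W
  have uniq : ∀ i, Lv i ≠ 0 → ∀ a a', FarIn (InB b (zz (zr xr y0 k) i) (Lv i) (yv i))
      (OutB b (zz (zr xr y0 k) i) (Lv i) (yv i)) ω a → FarIn (InB b (zz (zr xr y0 k) i) (Lv i) (yv i))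
      (OutB b (zz (zr xr y0 k) i) (Lv i) (yv i)) ω a' → a = a' := by
    intro i hi a a' ha ha'
    have h2 := (hS i).1
    refine Pool.Agent.H65.G1.far_unique_box hb (hoE i hi) ?_ ha ha'
    rcases h2 with h2 | h2
    · exact absurd h2 hi
    · exact h2
  obtain ⟨A, hA, hA2⟩ := amp_first H.insZ hb4 hK0 hK hkN I.geo hyk' hk₁ hk₂ hL hyv uniq
  refine ⟨A, _, hA, ?_⟩
  have hg0 : ∀ κ, 0 ≤ gR N xr y0 (gE EL EU (1, -1)) (W' κ) g s (m₁ + m₂ + 1) R0 ω := fun κ =>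
    gR_nonneg ..
  unfold gZ
  have hsum0 : 0 ≤ ∑ κ : Bool, gR N xr y0 (gE EL EU (1, -1)) (W' κ) g s (m₁ + m₂ + 1) R0 ω :=
    sum_nonneg fun κ _ => hg0 κ
  rcases hA2 with hA2 | ⟨η0, hη0, x1, e, hAn, hRef, -⟩
  · rw [hA2, norm_zero]; exact hsum0
  set V := univ.biUnion (Wi b (zz (zr xr y0 k)) Lv yv) with hV
  set z' := ω \ V ∪ η0 with hz'
  -- the reference
  by_cases hAz : A = 0
  · rw [hAz, norm_zero]; exact hsum0
  have hAm : AmZ 𝒜 yc (univ.image x1) z' ≠ 0 := by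
    intro h0
    rw [h0, norm_zero, norm_eq_zero] at hAn
    exact hAz hAn
  have hyx : yc ∉ univ.image x1 := by
    intro hh
    apply hAm
    unfold AmZ
    rw [if_pos hh]
  have hAm' : AmZ 𝒜 yc (univ.image x1) z' = 𝒜 (insert yc (univ.image x1)) z' := by
    unfold AmZ
    rw [if_neg hyx]
  rw [hAm'] at hAn hAm
  -- the configuration
  have hz'E : z' ⊆ gE EL EU (1, -1) := by
    intro q hq
    rw [hz', mem_union, mem_sdiff] at hq
    rcases hq with hq | hq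
    · exact hω hq.1
    · have h2 := hη0 hq
      rw [hV, mem_biUnion] at h2
      obtain ⟨i, -, h3⟩ := h2
      unfold Wi at h3
      split_ifs at h3 with hi
      · exact absurd h3 (notMem_empty _)
      · exact hoE i hi (in_out_B hb4 _ _ _ h3)
  have hag : ∀ q, q ∉ V → (q ∈ z' ↔ q ∈ ω) := by
    intro q hq
    rw [hz', mem_union, mem_sdiff]
    constructor
    · rintro (h3 | h3)
      · exact h3.1
      · exact absurd (hη0 h3) hq
    · exact fun h3 => Or.inl ⟨h3, hq⟩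
  have hTc : (insert yc (univ.image x1)).card ≤ m₁ + m₂ + 1 := by
    refine (card_insert_le _ _).trans (Nat.add_le_add_right (card_image_le.trans ?_) 1)
    rw [card_univ, Fintype.card_sum, Fintype.card_fin, Fintype.card_fin]
  obtain ⟨κ, ⟨Q⟩⟩ := hrow _ (mem_insert_self _ _) hTc z' hz'E hAm
  -- the windows
  have hrw : ∀ i, rad b Lv i = Rw b (Lv i) := fun i => rfl
  have hin : ∀ i, Lv i ≠ 0 → _ := fun i hi =>
    rad_in hb4 hK0 hK hkN I.geo hk₁ hk₂ hL hyv hyk' (i := i) hi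
  have hKc : 4 * b + 9 ≤ K := by nlinarith
  set Lv' : Option (Fin m₁ ⊕ Fin m₂) → ℕ := fun i => i.elim 0 Lv with hLv'
  set cc' : Option (Fin m₁ ⊕ Fin m₂) → ℤ := fun i => i.elim ((yc : ℕ) : ℤ) (ctz k b Lv yv) with hcc'
  set x1' : Option (Fin m₁ ⊕ Fin m₂) → Fin N := fun i => i.elim yc x1 with hx1'
  set e' : Option (Fin m₁ ⊕ Fin m₂) → Bool := fun i => i.elim true e with he'
  have hfar0 : ∀ i, Rw b (Lv i) < |((yc : ℕ) : ℤ) - ctz k b Lv yv i| := by
    intro i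
    by_cases hi : Lv i = 0
    · rw [hi, Rw_zero, ← hRef.pt i hi, abs_pos, sub_ne_zero]
      intro h
      apply hyx
      rw [show yc = x1 i from Fin.ext (by exact_mod_cast h)]
      exact mem_image_of_mem _ (mem_univ _)
    · have h3 := (hin i hi).2.2
      rw [hrw] at h3
      exact h3
  have hWnd : Wnd N (N + 2) b Lv' cc' x1' := by
    have lo : ∀ i, 0 ≤ ctz k b Lv yv i - Rw b (Lv i) := by
      intro i
      by_cases hi : Lv i = 0
      · rw [hi, Rw_zero, ← hRef.pt i hi]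
        simp
      · have h3 := (hin i hi).1
        rw [hrw] at h3
        omega
    have hi' : ∀ i, ctz k b Lv yv i + Rw b (Lv i) < N := by
      intro i
      by_cases hi : Lv i = 0
      · rw [hi, Rw_zero, ← hRef.pt i hi]
        have := (x1 i).2
        omega
      · have h3 := (hin i hi).2.1
        rw [hrw] at h3
        omega
    refine ⟨?_, ?_, ?_, ?_, ?_⟩
    · rintro (_ | i)
      · simp only [hLv', hcc', hx1', Option.elim]
        rw [Rw_zero, sub_self, abs_zero]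
      · exact hRef.bd i
    · rintro (_ | i)
      · simp only [hLv', hcc', Option.elim]
        rw [Rw_zero]; simp
      · exact lo i
    · rintro (_ | i)
      · simp only [hLv', hcc', Option.elim]
        rw [Rw_zero]
        have := yc.2
        omega
      · exact hi' i
    · rintro (_ | i) (_ | i') hii
      · exact absurd rfl hii
      · simp only [hLv', hcc', Option.elim]
        rw [Rw_zero, zero_add]
        exact hfar0 i'
      · simp only [hLv', hcc', Option.elim]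
        rw [Rw_zero, add_zero, abs_sub_comm]
        exact hfar0 i
      · have hii' : i ≠ i' := fun h => hii (by rw [h])
        have h3 := rad_sep (k := k) hb4 hKc hk₁ hk₂ hL hyv hii'
        rw [hrw, hrw] at h3
        simp only [hLv', hcc', Option.elim]
        rw [abs_sub_comm]
        exact h3
    · rintro (_ | i) hi
      · exact absurd rfl hi
      · left
        simp only [hLv', hcc', Option.elim]
        have := hi' i
        push_cast
        omega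
  have himg : insert yc (univ.image x1) = univ.image x1' := by
    ext c
    rw [mem_insert, mem_image, mem_image]
    constructor
    · rintro (rfl | ⟨i, -, rfl⟩)
      · exact ⟨none, mem_univ _, rfl⟩
      · exact ⟨some i, mem_univ _, rfl⟩
    · rintro ⟨_ | i, -, rfl⟩
      · exact Or.inl rfl
      · exact Or.inr ⟨i, mem_univ _, rfl⟩
  have one : ∀ Sp : Finset ℤ, Sw ⊆ Sp → ∀ G : Set (ℤ × ℤ), (∀ q ∈ G, (q.1 + q.2) % 2 = 1) →
      ∀ c : Fin N, ∀ M : ℤ, 1 ≤ M → Dst Sp R0 (sc xr y0 c) M →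
      OneType (gE EL EU (1, -1)) (W' κ) G (sc xr y0 c) M := by
    intro Sp hSp G hG c M hM1 hM
    left
    intro e he h2 h3
    exact disjoint_left.1 (I.disj κ) (I.near Sp hSp c M hM1 hM e (hG e he) h2 h3)
  have key := coreZ Q (k := N + 2) hb4 hWnd himg (mem_insert_self _ _) (e := e')
    (by
      rintro (_ | i) hi
      · exact absurd rfl hi
      · exact hfar0 i)
    (by
      rintro (_ | i) hi
      · exact absurd rfl hi
      · exact hRef.near i hi)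
    (E := gE EL EU (1, -1)) (W := W' κ) (ω := ω)
    (In := fun i => i.elim ∅ (Wi b (zz (zr xr y0 k)) Lv yv))
    (by
      rintro (_ | i) hi
      · rfl
      · show Wi b (zz (zr xr y0 k)) Lv yv i = ∅
        unfold Wi
        exact if_pos hi)
    (by
      rintro (_ | i) hi q hq
      · exact absurd rfl hi
      · have hi' : Lv i ≠ 0 := hi
        have hq' : q ∈ Wi b (zz (zr xr y0 k)) Lv yv i := hq
        unfold Wi at hq'
        rw [if_neg hi'] at hq'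
        unfold InB at hq'
        obtain ⟨h3, h4⟩ := box_near hq'
        have h5 := h3.1
        have hz : zz (zr xr y0 k) i (b ^ Lv i * yv i) =
            sm true y0 (xr - y0 + 1 + ctz k b Lv yv i) := by
          rw [zz_czz]
          unfold zr ctz
          ring_nf
        rw [hz] at h5
        have e1 : (sm true y0 (xr - y0 + 1 + ctz k b Lv yv i)).1 =
            xr - y0 + 1 + ctz k b Lv yv i := by unfold sm; simp
        rw [e1] at h5
        exact ⟨by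
          show |q.1 - (xr - y0 + 1 + ctz k b Lv yv i)| ≤ 8 * b ^ Lv i + 1
          linarith, h4⟩)
    (by
      intro q hq
      have h6 : q ∉ V := by
        intro h
        rw [hV, mem_biUnion] at h
        obtain ⟨i, -, hi⟩ := h
        exact hq (some i) hi
      have h7 : q ∈ z' ∪ W' κ ↔ (q ∈ z' ∨ q ∈ W' κ) := mem_union
      have h8 : q ∈ ω ∪ W' κ ↔ (q ∈ ω ∨ q ∈ W' κ) := mem_union
      rw [h7, h8, hag q h6])
    I.sw
    (by
      intro t h1 h2
      have := I.pt t h1 h2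
      rw [← hyc] at this
      exact this)
    I.pl I.pr hR0 hrr one
  have hcard : Fintype.card (Option (Fin m₁ ⊕ Fin m₂)) = m₁ + m₂ + 1 := by simp
  rw [hcard, ← hAn] at key
  refine key.trans ?_
  exact single_le_sum (f := fun κ : Bool =>
    gR N xr y0 (gE EL EU (1, -1)) (W' κ) g s (m₁ + m₂ + 1) R0 ω) (fun κ _ => hg0 κ) (mem_univ κ)

end

/-! ### The moment -/

lemma pow_add_ten {x y : ℝ} (hx : 0 ≤ x) (hy : 0 ≤ y) :
    (x + y) ^ 10 ≤ 2 ^ 9 * (x ^ 10 + y ^ 10) := by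
  have key := add_pow_le hx hy 10
  norm_num at key ⊢
  linarith

/-- the moments of a sum of two factors -/
lemma root_add {E : Finset (ℤ × ℤ)} {f g : Finset (ℤ × ℤ) → ℝ} (hf : ∀ ω, 0 ≤ f ω)
    (hg : ∀ ω, 0 ≤ g ω) {C : ℝ} (hC : 0 ≤ C)
    (h1 : (Pool.Agent.H99.NC.Ex (Pool.Agent.H99.NC.cp (1 / 2)) E (fun ω => f ω ^ 10)) ^ (1 / 10 : ℝ) ≤ C)
    (h2 : (Pool.Agent.H99.NC.Ex (Pool.Agent.H99.NC.cp (1 / 2)) E (fun ω => g ω ^ 10)) ^ (1 / 10 : ℝ) ≤ C) :
    (Pool.Agent.H99.NC.Ex (Pool.Agent.H99.NC.cp (1 / 2)) E (fun ω => (f ω + g ω) ^ 10)) ^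
      (1 / 10 : ℝ) ≤ 2 * C := by
  have hP : Pool.Agent.H99.NC.Pb (Pool.Agent.H99.NC.cp (1 / 2)) := by
    intro e
    unfold Pool.Agent.H99.NC.cp
    norm_num
  have n1 : 0 ≤ Pool.Agent.H99.NC.Ex (Pool.Agent.H99.NC.cp (1 / 2)) E (fun ω => f ω ^ 10) :=
    Pool.Agent.H99.NC.Ex_nonneg hP fun ω _ => pow_nonneg (hf ω) _
  have n2 : 0 ≤ Pool.Agent.H99.NC.Ex (Pool.Agent.H99.NC.cp (1 / 2)) E (fun ω => g ω ^ 10) :=
    Pool.Agent.H99.NC.Ex_nonneg hP fun ω _ => pow_nonneg (hg ω) _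
  have root : ∀ {x : ℝ}, 0 ≤ x → x ^ (1 / 10 : ℝ) ≤ C → x ≤ C ^ 10 := by
    intro x hx hxC
    have h3 := pow_le_pow_left₀ (Real.rpow_nonneg hx _) hxC 10
    rw [← Real.rpow_natCast, ← Real.rpow_mul hx] at h3
    norm_num at h3
    exact h3
  have e1 := root n1 h1
  have e2 := root n2 h2
  have key : Pool.Agent.H99.NC.Ex (Pool.Agent.H99.NC.cp (1 / 2)) E (fun ω => (f ω + g ω) ^ 10) ≤
      (2 * C) ^ 10 := by
    calc Pool.Agent.H99.NC.Ex (Pool.Agent.H99.NC.cp (1 / 2)) E (fun ω => (f ω + g ω) ^ 10)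
        ≤ Pool.Agent.H99.NC.Ex (Pool.Agent.H99.NC.cp (1 / 2)) E
            (fun ω => 2 ^ 9 * (f ω ^ 10 + g ω ^ 10)) :=
          Pool.Agent.H99.NC.Ex_mono hP fun ω _ => pow_add_ten (hf ω) (hg ω)
      _ = 2 ^ 9 * (Pool.Agent.H99.NC.Ex (Pool.Agent.H99.NC.cp (1 / 2)) E (fun ω => f ω ^ 10) +
            Pool.Agent.H99.NC.Ex (Pool.Agent.H99.NC.cp (1 / 2)) E (fun ω => g ω ^ 10)) := by
          rw [Pool.Agent.H99.NC.Ex_smul, Pool.Agent.H99.NC.Ex_add]
      _ ≤ 2 ^ 9 * (C ^ 10 + C ^ 10) := by linarith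
      _ = (2 * C) ^ 10 := by ring
  have n3 : 0 ≤ Pool.Agent.H99.NC.Ex (Pool.Agent.H99.NC.cp (1 / 2)) E (fun ω => (f ω + g ω) ^ 10) :=
    Pool.Agent.H99.NC.Ex_nonneg hP fun ω _ => pow_nonneg (add_nonneg (hf ω) (hg ω)) _
  refine (Real.rpow_le_rpow n3 key (by norm_num)).trans (le_of_eq ?_)
  rw [← Real.rpow_natCast, ← Real.rpow_mul (by positivity)]
  norm_num

/-- **The moment of the factor of `data_rowZ`.** -/
theorem gZ_root (g s m A : ℕ) (ε : ℝ) (hε : 0 < ε) : ∃ C : ℝ, 1 ≤ C ∧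
    ∀ (N : ℕ) (xr y0 : ℤ) (E : Finset (ℤ × ℤ)) (W' : Bool → Finset (ℤ × ℤ)) (R0 : ℕ) (R : ℝ),
    (∀ e ∈ E, (e.1 + e.2) % 2 = 1) → 2 ≤ R0 → (R0 : ℝ) ≤ R → N ≤ A * R0 →
    (Pool.Agent.H99.NC.Ex (Pool.Agent.H99.NC.cp (1 / 2)) E
      (fun ω => gZ N xr y0 E W' g s m R0 ω ^ 10)) ^ (1 / 10 : ℝ) ≤ C * R ^ ε := by
  obtain ⟨C, hC, hg⟩ := gR_root g s (m + 1) A ε hε
  refine ⟨2 * C, by linarith, ?_⟩
  intro N xr y0 E W' R0 R hE h2 hR hN
  have hR0 : 0 ≤ R := le_trans (Nat.cast_nonneg _) hR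
  have key := root_add (fun ω => gR_nonneg N xr y0 E (W' true) g s (m + 1) R0 ω)
    (fun ω => gR_nonneg N xr y0 E (W' false) g s (m + 1) R0 ω)
    (mul_nonneg (by linarith) (Real.rpow_nonneg hR0 ε))
    (hg N xr y0 E (W' true) R0 R hE h2 hR hN) (hg N xr y0 E (W' false) R0 R hE h2 hR hN)
  unfold gZ
  simp only [Fintype.sum_bool]
  rw [mul_assoc]
  exact key

end Pool.Agent.H81.W
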