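import Mathlib
import Pool.Agent.H81.G1.PBS

set_option autoImplicit false
set_option linter.unusedSectionVars false
open Finset

/-! # Pointwise bound of a row from the sums over the closed strands

As `V_bound2` of `H81/G1/PBS`, but the planar structure of the closed strands is replaced by the bound
`C` of the sum over the orientations of the closed strands. -/

namespace Pool.Agent.H81.W

open Pool.Agent.H81.G1
open Pool.Agent.Q1.M6b.Strand Pool.Agent.Q1.M6b.ExN Pool.Agent.Q1.M6b.PB Pool.Agent.Q1.M6b.Meander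

variable {N : ℕ} {X : Net (Fin N)} {a b : Fin N → ℂ} {sp : Finset (Fin N)}
  {LN LS : Finset (Fin N × Fin N)} {m : ℕ} {Ex : Fin m → Finset (Fin N)}

open Classical in
/-- **Pointwise bound of the vertex sum of a row.** -/
theorem V_bound_cs (hinv : ∀ x, X.π (X.π x) = x) (hne : ∀ x, X.π x ≠ x)
    (htn : ∀ x, X.t (X.π x) = -X.t x) (h : RowData2 X sp a b LN LS Ex) {al : Fin N × Dir → ℤˣ}
    (hn : Ori X (Kn X sp) al) {C : ℝ} (hC0 : 0 ≤ C)
    (hcs : ∀ o₀ : Fin N × Dir → ℤˣ, ‖∑ o : Fin N × Dir → ℤˣ,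
      if X.Cons o ∧ ∀ x, x ∉ VE (Kn X sp) → o x = o₀ x then X.wt a b o else 0‖ ≤
      C * ‖wtR X a b (Kn X sp) o₀‖) {M : ℝ} (hM0 : 0 ≤ M)
    (hM : ∀ c ∈ sp, ∀ w n e s, ‖vert (a c) (b c) w n e s‖ ≤ M) :
    ‖X.V a b‖ ≤ C * M ^ sp.card * 2 ^ (4 * sp.card) * 2 ^ m *
      ∏ k, (1 + ((Ex k).card : ℝ)) := by
  classical
  set L := LN ∪ LS with hL
  set K := Kn X sp with hKdef
  have hK : Str X K := Kn_str h.anc
  have hKsp : ∀ c ∈ K, c ∉ sp := fun c hc => Kn_sp hc
  have hovK : ∀ c ∈ K, a c = zt ^ (4 : ℤ) ∧ b c = zt ^ (-4 : ℤ) := fun c hc => h.ov c (hKsp c hc)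
  -- the configurations
  set A : Finset (Fin N × Dir → ℤˣ) := univ.filter (fun o =>
    X.Cons o ∧ (∀ p ∈ L, ¬ ex o p.1 ∧ ¬ ex o p.2) ∧ X.wt a b o ≠ 0) with hA
  have mA : ∀ o, o ∈ A ↔ X.Cons o ∧ (∀ p ∈ L, ¬ ex o p.1 ∧ ¬ ex o p.2) ∧ X.wt a b o ≠ 0 := by
    intro o; simp [hA]
  have eV : X.V a b = ∑ o ∈ A, X.wt a b o := by
    rw [V_eq2 X a b hinv htn LN LS h.innN h.innS h.dis, ← Finset.sum_filter_ne_zero, Finset.filter_filter]
    refine Finset.sum_congr ?_ fun _ _ => rfl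
    ext o
    simp only [mem_filter, mem_univ, true_and, mA]
    tauto
  -- facts about a configuration of nonzero weight
  have plain : ∀ o, X.Cons o → X.wt a b o ≠ 0 → ∀ c, c ∉ sp →
      (o (c, .E) = -o (c, .W) ∧ o (c, .S) = -o (c, .N)) ∨
      (o (c, .W) = -1 ∧ o (c, .E) = -1 ∧ o (c, .N) = 1 ∧ o (c, .S) = 1) := by
    intro o _ hw c hc
    have hv := vert_ne hw c
    rw [(h.ov c hc).1, (h.ov c hc).2] at hv
    rcases Pool.Agent.Q1.M6b.Strand.vert_over hv with h1 | h1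
    · exact Or.inl h1
    · exact Or.inr ⟨h1.2.2.1, h1.2.2.2, h1.1, h1.2.1⟩
  have strK : ∀ o, X.Cons o → X.wt a b o ≠ 0 → ∀ c ∈ K, o (c, .E) = -o (c, .W) ∧
      o (c, .S) = -o (c, .N) := by
    intro o ho hw
    refine noflip hinv hne hK ho fun i hi => ?_
    have hv := vert_ne hw i
    rwa [(hovK i hi).1, (hovK i hi).2] at hv
  -- the representatives
  set rep : (Fin N × Dir → ℤˣ) → Fin N × Dir → ℤˣ := fun o x => if x ∈ VE K then al x else o x
    with hrep
  have rep_in : ∀ o x, x ∈ VE K → rep o x = al x := fun o x hx => if_pos hx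
  have rep_out : ∀ o x, x ∉ VE K → rep o x = o x := fun o x hx => if_neg hx
  have hrow : ∀ c : Fin N, (c, Dir.W) ∉ VE K ∧ (c, Dir.E) ∉ VE K := by
    intro c; constructor <;> (rw [mem_VE]; simp)
  have repAdm : ∀ o ∈ A, Adm X sp (rep o) := by
    intro o ho
    obtain ⟨hc, _, hw⟩ := (mA o).1 ho
    refine ⟨?_, ?_⟩
    · have q0 : X.x0 ∉ VE K := hK.x0
      have q1 : X.π X.x0 ∉ VE K := hK.x1 hinv
      have q2 : X.y0 ∉ VE K := hK.y0
      have q3 : X.π X.y0 ∉ VE K := hK.y1 hinv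
      refine ⟨?_, ?_, ?_, ?_, fun x h1 h2 h3 h4 => ?_⟩
      · rw [rep_out _ _ q0]; exact hc.1
      · rw [rep_out _ _ q1]; exact hc.2.1
      · rw [rep_out _ _ q2]; exact hc.2.2.1
      · rw [rep_out _ _ q3]; exact hc.2.2.2.1
      · by_cases hx : x ∈ VE K
        · rw [rep_in _ _ hx, rep_in _ _ (hK.mem x hx), hn.wire x hx]
        · rw [rep_out _ _ hx, rep_out _ _ (by rwa [hK.mem_iff hinv]), hc.2.2.2.2 x h1 h2 h3 h4]
    · intro c hcs
      by_cases hcK : c ∈ K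
      · left
        have vN : (c, Dir.N) ∈ VE K := by rw [mem_VE]; exact ⟨hcK, Or.inl rfl⟩
        have vS : (c, Dir.S) ∈ VE K := by rw [mem_VE]; exact ⟨hcK, Or.inr rfl⟩
        rw [rep_out _ _ (hrow c).1, rep_out _ _ (hrow c).2, rep_in _ _ vN, rep_in _ _ vS,
          hn.vert c hcK]
        exact ⟨(strK o hc hw c hcK).1, rfl⟩
      · have vN : (c, Dir.N) ∉ VE K := by rw [mem_VE]; tauto
        have vS : (c, Dir.S) ∉ VE K := by rw [mem_VE]; tauto
        rw [rep_out _ _ (hrow c).1, rep_out _ _ (hrow c).2, rep_out _ _ vN, rep_out _ _ vS]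
        exact plain o hc hw c hcs
  have repEx : ∀ o ∈ A, ∀ c, (ex (rep o) c ↔ (c ∉ K ∧ ex o c)) := by
    intro o ho c
    obtain ⟨hc, _, hw⟩ := (mA o).1 ho
    by_cases hcK : c ∈ K
    · have vN : (c, Dir.N) ∈ VE K := by rw [mem_VE]; exact ⟨hcK, Or.inl rfl⟩
      have vS : (c, Dir.S) ∈ VE K := by rw [mem_VE]; exact ⟨hcK, Or.inr rfl⟩
      constructor
      · intro he
        unfold ex at he
        rw [rep_in _ _ vN, rep_in _ _ vS, hn.vert c hcK] at he
        exact absurd he.symm (ne_self_neg _)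
      · exact fun he => absurd hcK he.1
    · have vN : (c, Dir.N) ∉ VE K := by rw [mem_VE]; tauto
      have vS : (c, Dir.S) ∉ VE K := by rw [mem_VE]; tauto
      unfold ex
      rw [rep_out _ _ vN, rep_out _ _ vS]
      exact ⟨fun he => ⟨hcK, he⟩, fun he => he.2⟩
  set S := A.image rep with hS
  -- number of classes
  have inEx : ∀ o ∈ A, ∀ c, c ∉ sp → c ∉ K → ex o c → ∃ k, c ∈ Ex k := by
    intro o ho c hcs hcK he
    have hN : Anch X sp (c, .N) := by
      by_contra hh; exact hcK (mem_Kn.2 hh)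
    rcases h.cov c hcs hN with ⟨p, hp, hp1 | hp1⟩ | hk
    · exact absurd (hp1 ▸ he) (((mA o).1 ho).2.1 p hp).1
    · exact absurd (hp1 ▸ he) (((mA o).1 ho).2.1 p hp).2
    · exact hk
  have hcard : S.card ≤ 2 ^ (4 * sp.card) * ∏ k, (1 + (Ex k).card) := by
    refine card_le (X := X) (sp := sp) Ex (al) S ?_ ?_ ?_ ?_
    · intro o ho
      obtain ⟨o', ho', rfl⟩ := mem_image.1 ho
      exact repAdm o' ho'
    · intro o ho p hp
      obtain ⟨o', ho', rfl⟩ := mem_image.1 ho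
      exact rep_in _ _ ((mem_VE_Kn h.anc p).2 hp)
    · intro o ho c hcs he
      obtain ⟨o', ho', rfl⟩ := mem_image.1 ho
      have h1 := (repEx o' ho' c).1 he
      exact inEx o' ho' c hcs h1.1 h1.2
    · intro o ho k c hc c' hc' h1 h2
      obtain ⟨o', ho', rfl⟩ := mem_image.1 ho
      exact h.one (repAdm o' ho') k hc hc' h1 h2
  -- number of exchanges of a configuration
  have hexc : ∀ o ∈ A, (univ.filter (fun c => c ∉ sp ∧ c ∉ K ∧ ex o c)).card ≤ m := by
    intro o ho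
    have hm : (Finset.univ : Finset (Fin m)).card = m := by simp
    rw [← hm]
    refine Finset.card_le_card_of_forall_subsingleton (fun c k => c ∈ Ex k) ?_ ?_
    · intro c hc
      have hc1 := (mem_filter.1 hc).2
      obtain ⟨k, hk⟩ := inEx o ho c hc1.1 hc1.2.1 hc1.2.2
      exact ⟨k, mem_univ _, hk⟩
    · rintro k _ c ⟨hc, hck⟩ c' ⟨hc', hck'⟩
      have hc1 := (mem_filter.1 hc).2
      have hc2 := (mem_filter.1 hc').2
      exact h.one (repAdm o ho) k hck hck' ((repEx o ho c).2 hc1.2) ((repEx o ho c').2 hc2.2)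
  -- the sum over a class
  have hclass : ∀ s ∈ S, ‖∑ o ∈ A with rep o = s, X.wt a b o‖ ≤
      C * (M ^ sp.card * 2 ^ m) := by
    intro s hs
    obtain ⟨o₀, ho₀, rfl⟩ := mem_image.1 hs
    obtain ⟨hc₀, hL₀, hw₀⟩ := (mA o₀).1 ho₀
    have e1 : ∑ o ∈ A with rep o = rep o₀, X.wt a b o = ∑ o : Fin N × Dir → ℤˣ,
        if X.Cons o ∧ ∀ x, x ∉ VE K → o x = o₀ x then X.wt a b o else 0 := by
      rw [← Finset.sum_filter, ← Finset.sum_filter_ne_zero (s := univ.filter _)]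
      refine Finset.sum_congr ?_ fun _ _ => rfl
      ext o
      simp only [mem_filter, mem_univ, true_and, mA]
      constructor
      · rintro ⟨⟨h1, h2, h3⟩, h4⟩
        refine ⟨⟨h1, fun x hx => ?_⟩, h3⟩
        have := congrFun h4 x
        rwa [rep_out _ _ hx, rep_out _ _ hx] at this
      · rintro ⟨⟨h1, h2⟩, h3⟩
        have hexo : ∀ c, ¬ ex o₀ c → ¬ ex o c := by
          intro c hne' he
          by_cases hcK : c ∈ K
          · have := (strK o h1 h3 c hcK).2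
            unfold ex at he
            exact ne_self_neg _ (he.symm.trans this)
          · apply hne'
            unfold ex at he ⊢
            have vN : (c, Dir.N) ∉ VE K := by rw [mem_VE]; tauto
            have vS : (c, Dir.S) ∉ VE K := by rw [mem_VE]; tauto
            rw [← h2 _ vN, ← h2 _ vS]
            exact he
        refine ⟨⟨h1, fun p hp => ⟨hexo _ (hL₀ p hp).1, hexo _ (hL₀ p hp).2⟩, h3⟩, ?_⟩
        funext x
        by_cases hx : x ∈ VE K
        · rw [rep_in _ _ hx, rep_in _ _ hx]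
        · rw [rep_out _ _ hx, rep_out _ _ hx, h2 x hx]
    rw [e1]
    refine (hcs o₀).trans ?_
    refine mul_le_mul_of_nonneg_left ?_ (by positivity)
    refine (wtR_norm hM h.ov hKsp o₀).trans ?_
    refine mul_le_mul_of_nonneg_left ?_ (by positivity)
    exact pow_le_pow_right₀ (by norm_num) (hexc o₀ ho₀)
  have hsum : ∑ o ∈ A, X.wt a b o = ∑ s ∈ S, ∑ o ∈ A with rep o = s, X.wt a b o :=
    (Finset.sum_fiberwise_of_maps_to (fun o ho => mem_image_of_mem rep ho) _).symm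
  rw [eV, hsum]
  calc ‖∑ s ∈ S, ∑ o ∈ A with rep o = s, X.wt a b o‖
      ≤ ∑ s ∈ S, ‖∑ o ∈ A with rep o = s, X.wt a b o‖ := norm_sum_le _ _
    _ ≤ ∑ _s ∈ S, C * (M ^ sp.card * 2 ^ m) := Finset.sum_le_sum hclass
    _ = (S.card : ℝ) * (C * (M ^ sp.card * 2 ^ m)) := by rw [sum_const, nsmul_eq_mul]
    _ ≤ ((2 ^ (4 * sp.card) * ∏ k, (1 + (Ex k).card) : ℕ) : ℝ) *
        (C * (M ^ sp.card * 2 ^ m)) := by
      refine mul_le_mul_of_nonneg_right ?_ (by positivity)
      exact_mod_cast hcard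
    _ = _ := by push_cast; ring


open Classical in
/-- the bound with coupons `(1, -1)` or over-tiles at the columns of `sp`, closed strands with factor
`1` -/
theorem V_bound_one (hinv : ∀ x, X.π (X.π x) = x) (hne : ∀ x, X.π x ≠ x)
    (htn : ∀ x, X.t (X.π x) = -X.t x) (h : RowData2 X sp a b LN LS Ex) {al : Fin N × Dir → ℤˣ}
    (hn : Ori X (Kn X sp) al)
    (hcs : ∀ o₀ : Fin N × Dir → ℤˣ, ‖∑ o : Fin N × Dir → ℤˣ,
      if X.Cons o ∧ ∀ x, x ∉ VE (Kn X sp) → o x = o₀ x then X.wt a b o else 0‖ ≤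
      ‖wtR X a b (Kn X sp) o₀‖)
    (hcp : ∀ c ∈ sp, (a c = 1 ∧ b c = -1) ∨ (a c = zt ^ (4 : ℤ) ∧ b c = zt ^ (-4 : ℤ))) :
    ‖X.V a b‖ ≤ 2 ^ (5 * sp.card + m) * ∏ k, (1 + ((Ex k).card : ℝ)) := by
  refine (V_bound_cs hinv hne htn h hn (C := 1) (by norm_num) (fun o₀ => by
    rw [one_mul]; exact hcs o₀) (M := 2) (by norm_num) ?_).trans (le_of_eq ?_)
  · intro c hc w n e s
    rcases hcp c hc with hc1 | hc1
    · rw [hc1.1, hc1.2]
      exact coupon_norm w n e s
    · rw [hc1.1, hc1.2]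
      refine (vert_norm w n e s).trans ?_
      split_ifs <;> norm_num
  · have e : (2 : ℝ) ^ (5 * sp.card + m) = 2 ^ sp.card * 2 ^ (4 * sp.card) * 2 ^ m := by
      rw [← pow_add, ← pow_add]
      congr 1
      ring
    rw [e]; ring

end Pool.Agent.H81.W
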