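import Mathlib
import Pool.Agent.H81.W.VbZ
import Pool.Agent.H40.W.SideZ

set_option autoImplicit false
set_option linter.unusedSectionVars false
open Finset

/-! # The closed strands of a row whose root enters above the column `c0`

`RMZ`: the net of a row, the string above the column `c0` removed: the upper arcs may pass over `c0`
(their turning has the coboundary `4 [c > c0]`), the root enters at `(c0, N)`. The closed strands without
coupon have the factor `1`. -/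

namespace Pool.Agent.H81.W

open Pool.Agent.H81.G1 Pool.Agent.H30.Mid
open Pool.Agent.H40.W (SideZ)
open Pool.Agent.Q1.M6b.Strand Pool.Agent.Q1.M6b.ExN Pool.Agent.Q1.M6b.PB
open Pool.Agent.Q1.M6b.Meander (dir dir_lt dir_gt Match Closed Stable side turn even_of_inv)

variable {N : ℕ}

/-- the coboundary of the upper wires -/
def th0 (c0 c : Fin N) : ℤ := if c0 < c then 4 else 0

/-- **The net of a row whose root enters at `(c0, N)`.** `EU`, `ED` : the exceptional columns above and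
below, `U`, `D` : partners. -/
structure RMZ (X : Net (Fin N)) (c0 : Fin N) (EU ED : Finset (Fin N)) (U D : Fin N → Fin N) : Prop where
  inv : ∀ x, X.π (X.π x) = x
  ne : ∀ x, X.π x ≠ x
  tn : ∀ x, X.t (X.π x) = -X.t x
  x0 : X.x0 = (c0, .N)
  row : ∀ c c' : Fin N, (c' : ℕ) = c + 1 → X.π (c, .E) = (c', .W) ∧ X.t (c, .E) = 0 ∧ ¬ Sp X (c, .E)
  sU : SideZ c0 EU U
  sD : Side ED D
  up : ∀ c, c ∉ EU → X.π (c, .N) = (U c, .N) ∧
    X.t (c, .N) = -2 * dir c (U c) + th0 c0 (U c) - th0 c0 c ∧ ¬ Sp X (c, .N)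
  dn : ∀ c, c ∉ ED → X.π (c, .S) = (D c, .S) ∧ X.t (c, .S) = 2 * dir c (D c) ∧ ¬ Sp X (c, .S)

namespace RMZ

variable {X : Net (Fin N)} {c0 : Fin N} {EU ED : Finset (Fin N)} {U D : Fin N → Fin N}
  {K C : Finset (Fin N)}

/-- the ends whose wires stay on one side -/
def Inn (EU ED : Finset (Fin N)) (x : Fin N × Dir) : Prop :=
  match x.2 with
  | .N => x.1 ∉ EU
  | .S => x.1 ∉ ED
  | .E => (x.1 : ℕ) + 1 < N
  | .W => 0 < (x.1 : ℕ)

lemma row' (h : RMZ X c0 EU ED U D) {c : Fin N} (hc : 0 < (c : ℕ)) :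
    X.π (c, .W) = (⟨c - 1, by have := c.2; omega⟩, .E) ∧ X.t (c, .W) = 0 ∧ ¬ Sp X (c, .W) := by
  have h1 := h.row ⟨c - 1, by have := c.2; omega⟩ c (by simp only; omega)
  have e : X.π (c, .W) = (⟨c - 1, by have := c.2; omega⟩, .E) := by rw [← h1.1, h.inv]
  refine ⟨e, ?_, ?_⟩
  · rw [← h1.1, h.tn, h1.2.1, neg_zero]
  · rw [← h1.1]
    intro hh
    exact h1.2.2 (Sp_pi h.inv hh)

lemma inn_pi (h : RMZ X c0 EU ED U D) {x : Fin N × Dir} (hx : Inn EU ED x) : Inn EU ED (X.π x) := by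
  obtain ⟨c, d⟩ := x
  cases d
  · have hc : 0 < (c : ℕ) := hx
    rw [(h.row' hc).1]
    show (c : ℕ) - 1 + 1 < N
    have := c.2
    omega
  · have hc : c ∉ EU := hx
    rw [(h.up c hc).1]
    exact h.sU.mem c hc
  · have hc : (c : ℕ) + 1 < N := hx
    rw [(h.row c ⟨c + 1, hc⟩ rfl).1]
    show 0 < (c : ℕ) + 1
    omega
  · have hc : c ∉ ED := hx
    rw [(h.dn c hc).1]
    exact h.sD.mem c hc

lemma inn_sp (h : RMZ X c0 EU ED U D) {x : Fin N × Dir} (hx : Inn EU ED x) : ¬ Sp X x := by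
  obtain ⟨c, d⟩ := x
  cases d
  · exact (h.row' hx).2.2
  · exact (h.up c hx).2.2
  · have hc : (c : ℕ) + 1 < N := hx
    exact (h.row c ⟨c + 1, hc⟩ rfl).2.2
  · exact (h.dn c hx).2.2

/-! ### Matchings -/

lemma memU (h : RMZ X c0 EU ED U D) (hU : ∀ c ∈ C, c ∉ EU) (hC : Str X C) {c : Fin N}
    (hc : c ∈ C) : U c ∈ C := by
  have := hC.mem (c, .N) (by rw [mem_VE]; exact ⟨hc, Or.inl rfl⟩)
  rw [(h.up c (hU c hc)).1, mem_VE] at this
  exact this.1

lemma memD (h : RMZ X c0 EU ED U D) (hD : ∀ c ∈ C, c ∉ ED) (hC : Str X C) {c : Fin N}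
    (hc : c ∈ C) : D c ∈ C := by
  have := hC.mem (c, .S) (by rw [mem_VE]; exact ⟨hc, Or.inr rfl⟩)
  rw [(h.dn c (hD c hc)).1, mem_VE] at this
  exact this.1

lemma matchU (h : RMZ X c0 EU ED U D) (hU : ∀ c ∈ C, c ∉ EU) (hC : Str X C) : Match C U where
  mem x hx := h.memU hU hC hx
  inv x hx := h.sU.inv x (hU x hx)
  ne x hx := h.sU.ne x (hU x hx)
  nc x hx y hy := h.sU.nc x (hU x hx) y (hU y hy)

lemma matchD (h : RMZ X c0 EU ED U D) (hD : ∀ c ∈ C, c ∉ ED) (hC : Str X C) : Match C D where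
  mem x hx := h.memD hD hC hx
  inv x hx := h.sD.inv x (hD x hx)
  ne x hx := h.sD.ne x (hD x hx)
  nc x hx y hy := h.sD.nc x (hD x hx) y (hD y hy)

lemma ori (h : RMZ X c0 EU ED U D) (hU : ∀ c ∈ K, c ∉ EU) (hD : ∀ c ∈ K, c ∉ ED) (hK : Str X K) :
    Ori X K (alt K) where
  wire := by
    rintro ⟨c, d⟩ hx
    rw [mem_VE] at hx
    rcases hx with ⟨hc, rfl | rfl⟩
    · rw [(h.up c (hU c hc)).1]
      show eps K (U c) = -eps K c
      apply Units.ext
      push_cast
      rw [eps_sg, eps_sg, (h.matchU hU hK).sg hc]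
    · rw [(h.dn c (hD c hc)).1]
      show -eps K (D c) = -(-eps K c)
      apply Units.ext
      push_cast
      rw [eps_sg, eps_sg, (h.matchD hD hK).sg hc]
  vert := by
    intro i _
    rfl

lemma closed (h : RMZ X c0 EU ED U D) (hU : ∀ c ∈ C, c ∉ EU) (hD : ∀ c ∈ C, c ∉ ED)
    (hC : Single X C) : Closed U D C where
  mU := h.matchU hU hC.str
  mD := h.matchD hD hC.str
  ne := hC.ne
  single S hS hSn hst := by
    apply hC.single S hS hSn
    have hsub : ∀ x, x ∈ VE S → x ∈ VE C := fun x hx => VE_mono hS hx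
    refine ⟨?_, fun hh => hC.str.x0 (hsub _ hh), fun hh => hC.str.y0 (hsub _ hh)⟩
    rintro ⟨c, d⟩ hx
    rw [mem_VE] at hx
    rcases hx with ⟨hc, rfl | rfl⟩
    · rw [(h.up c (hU c (hS hc))).1, mem_VE]; exact ⟨(hst c hc).1, Or.inl rfl⟩
    · rw [(h.dn c (hD c (hS hc))).1, mem_VE]; exact ⟨(hst c hc).2, Or.inr rfl⟩

lemma ori_U (h : RMZ X c0 EU ED U D) (hU : ∀ c ∈ C, c ∉ EU) {n : Fin N × Dir → ℤˣ}
    (hO : Ori X C n) : ∀ x ∈ C, ((n (U x, .N) : ℤˣ) : ℤ) = -((n (x, .N) : ℤˣ) : ℤ) := by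
  intro x hx
  have := hO.wire (x, .N) (by rw [mem_VE]; exact ⟨hx, Or.inl rfl⟩)
  rw [(h.up x (hU x hx)).1] at this
  rw [this]; push_cast; rfl

lemma ori_D (h : RMZ X c0 EU ED U D) (hD : ∀ c ∈ C, c ∉ ED) (hC : Str X C)
    {n : Fin N × Dir → ℤˣ} (hO : Ori X C n) :
    ∀ x ∈ C, ((n (D x, .N) : ℤˣ) : ℤ) = -((n (x, .N) : ℤˣ) : ℤ) := by
  intro x hx
  have := hO.wire (x, .S) (by rw [mem_VE]; exact ⟨hx, Or.inr rfl⟩)
  rw [(h.dn x (hD x hx)).1] at this
  rw [hO.vert x hx, hO.vert (D x) (h.memD hD hC hx)] at this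
  rw [neg_injective this]; push_cast; rfl

/-! ### Parities -/

/-- the number of columns of `C` to the left of `p` is odd -/
def Od (C : Finset (Fin N)) (p : ℕ) : Prop := Odd (C.filter (fun z : Fin N => (z : ℕ) < p)).card

lemma even_pres {f : Fin N → Fin N} (hm : Match C f) {p q : ℕ} (hp : Pres C f p q) :
    Even (C.filter (fun z : Fin N => p ≤ (z : ℕ) ∧ (z : ℕ) < q)).card := by
  have key := even_of_inv (S := C.filter (fun z : Fin N => p ≤ (z : ℕ) ∧ (z : ℕ) < q)) (f := f)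
    (fun x hx => by
      obtain ⟨h1, h2, h3⟩ := mem_filter.1 hx
      exact mem_filter.2 ⟨hm.mem x h1, hp x h1 h2 h3⟩)
    (fun x hx => hm.inv x (mem_filter.1 hx).1) (fun x hx => hm.ne x (mem_filter.1 hx).1)
  by_contra hodd
  rw [Nat.not_even_iff_odd] at hodd
  rw [hodd.neg_one_pow] at key
  norm_num at key

lemma card_split (C : Finset (Fin N)) {p q : ℕ} (hpq : p ≤ q) :
    (C.filter (fun z : Fin N => (z : ℕ) < q)).card = (C.filter (fun z : Fin N => (z : ℕ) < p)).card +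
      (C.filter (fun z : Fin N => p ≤ (z : ℕ) ∧ (z : ℕ) < q)).card := by
  rw [← card_union_of_disjoint]
  · congr 1
    ext z
    simp only [mem_filter, mem_union]
    constructor
    · rintro ⟨h1, h2⟩
      by_cases h3 : (z : ℕ) < p
      · exact Or.inl ⟨h1, h3⟩
      · exact Or.inr ⟨h1, not_lt.1 h3, h2⟩
    · rintro (⟨h1, h2⟩ | ⟨h1, h2, h3⟩)
      · exact ⟨h1, lt_of_lt_of_le h2 hpq⟩
      · exact ⟨h1, h3⟩
  · rw [disjoint_left]
    intro z h1 h2
    have := (mem_filter.1 h1).2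
    have := (mem_filter.1 h2).2.1
    omega

lemma od_pres {f : Fin N → Fin N} (hm : Match C f) {p q : ℕ} (hpq : p ≤ q) (hp : Pres C f p q) :
    Od C p ↔ Od C q := by
  have h1 := even_pres hm hp
  unfold Od
  rw [card_split C hpq, Nat.odd_add]
  constructor
  · intro h; exact ⟨fun _ => h1, fun _ => h⟩
  · intro h; exact h.2 h1

lemma not_od_zero : ¬ Od C 0 := by
  unfold Od
  simp

lemma not_od_pres {f : Fin N → Fin N} (hm : Match C f) {p : ℕ} (hp : Pres C f 0 p) : ¬ Od C p := by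
  rw [← od_pres hm (Nat.zero_le _) hp]
  exact not_od_zero

/-- the parity at the two feet of an arc which does not belong to `C` -/
lemma od_arc {E : Finset (Fin N)} {f : Fin N → Fin N} (hm : Match C f) (hE : ∀ c ∈ C, c ∉ E)
    (inv : ∀ c, c ∉ E → f (f c) = c)
    (nc : ∀ x, x ∉ E → ∀ y, y ∉ E → x < y → y < f x → x < f y ∧ f y < f x)
    (mem : ∀ c, c ∉ E → f c ∉ E) {c : Fin N} (hc : c ∉ E) (h1 : c ∉ C) (h2 : f c ∉ C) :
    Od C (c : ℕ) ↔ Od C (f c : ℕ) := by
  rcases le_total (c : ℕ) (f c : ℕ) with h3 | h3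
  · refine od_pres hm h3 ?_
    intro z hz h4 h5
    have hzc : z ≠ c := fun hh => h1 (hh ▸ hz)
    have h6 : c < z := Fin.lt_def.2 (lt_of_le_of_ne h4 (fun hh => hzc (Fin.ext hh.symm)))
    have := nc c hc z (hE z hz) h6 (Fin.lt_def.2 h5)
    exact ⟨(Fin.lt_def.1 this.1).le, Fin.lt_def.1 this.2⟩
  · refine (od_pres hm h3 ?_).symm
    intro z hz h4 h5
    have hzc : z ≠ f c := fun hh => h2 (hh ▸ hz)
    have h6 : f c < z := Fin.lt_def.2 (lt_of_le_of_ne h4 (fun hh => hzc (Fin.ext hh.symm)))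
    have := nc (f c) (mem c hc) z (hE z hz) h6 (by rw [inv c hc]; exact Fin.lt_def.2 h5)
    rw [inv c hc] at this
    exact ⟨(Fin.lt_def.1 this.1).le, Fin.lt_def.1 this.2⟩

/-- a gate is outside -/
lemma od_gate {E : Finset (Fin N)} {f : Fin N → Fin N} (hm : Match C f) (hE : ∀ c ∈ C, c ∉ E)
    {c : Fin N} (hc : c ∈ E) (ex : ∀ x, x ∉ E → ¬ (x < c ∧ c < f x)) : ¬ Od C (c : ℕ) := by
  refine not_od_pres hm ?_
  intro z hz _ h2
  refine ⟨Nat.zero_le _, ?_⟩
  by_contra h4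
  have h6 : f z ≠ c := fun h => hE _ (hm.mem z hz) (h ▸ hc)
  have h7 : (f z : ℕ) ≠ c := fun h => h6 (Fin.ext h)
  exact ex z (hE z hz) ⟨h2, by rw [Fin.lt_def]; omega⟩

/-- **The column of the root is outside of every closed strand.** -/
theorem od_c0 (h : RMZ X c0 EU ED U D) (hU : ∀ c ∈ C, c ∉ EU) (hD : ∀ c ∈ C, c ∉ ED)
    (hC : Str X C) : ¬ Od C (c0 : ℕ) := by
  classical
  intro h0
  have mU := h.matchU hU hC
  have mD := h.matchD hD hC
  have hc0C : c0 ∉ C := fun hh => hU _ hh h.sU.zero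
  have outU : ∀ c, c ∉ EU → c ∉ C → U c ∉ C := by
    intro c h1 h2 h3
    apply h2
    have := mU.mem _ h3
    rwa [h.sU.inv c h1] at this
  have outD : ∀ c, c ∉ ED → c ∉ C → D c ∉ C := by
    intro c h1 h2 h3
    apply h2
    have := mD.mem _ h3
    rwa [h.sD.inv c h1] at this
  set A : Finset (Fin N) := univ.filter (fun c => c ∉ C ∧ Od C (c : ℕ)) with hA
  have mA : ∀ c, c ∈ A ↔ c ∉ C ∧ Od C (c : ℕ) := fun c => by rw [hA]; simp
  have c0A : c0 ∈ A := (mA _).2 ⟨hc0C, h0⟩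
  have aD : ∀ c ∈ A, c ∉ ED := by
    intro c hc hcE
    exact od_gate mD hD hcE (fun x hx => h.sD.ex x hx c hcE) ((mA c).1 hc).2
  have aU : ∀ c ∈ A, c ≠ c0 → c ∉ EU := by
    intro c hc hcc hcE
    exact od_gate mU hU hcE (fun x hx => h.sU.ex x hx c hcE hcc) ((mA c).1 hc).2
  have e1 := even_of_inv (S := A) (f := D)
    (fun x hx => by
      have h1 := aD x hx
      obtain ⟨h2, h3⟩ := (mA x).1 hx
      have h4 := outD x h1 h2
      exact (mA _).2 ⟨h4, (od_arc mD hD h.sD.inv h.sD.nc h.sD.mem h1 h2 h4).1 h3⟩)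
    (fun x hx => h.sD.inv x (aD x hx)) (fun x hx => h.sD.ne x (aD x hx))
  have e2 := even_of_inv (S := A.erase c0) (f := U)
    (fun x hx => by
      obtain ⟨h0', hx⟩ := mem_erase.1 hx
      have h1 := aU x hx h0'
      obtain ⟨h2, h3⟩ := (mA x).1 hx
      have h4 := outU x h1 h2
      refine mem_erase.2 ⟨fun hh => h.sU.mem x h1 (hh ▸ h.sU.zero), (mA _).2 ⟨h4, ?_⟩⟩
      exact (od_arc mU hU h.sU.inv h.sU.nc h.sU.mem h1 h2 h4).1 h3)
    (fun x hx => h.sU.inv x (aU x (mem_erase.1 hx).2 (mem_erase.1 hx).1))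
    (fun x hx => h.sU.ne x (aU x (mem_erase.1 hx).2 (mem_erase.1 hx).1))
  rw [← card_erase_add_one c0A, pow_succ, e2] at e1
  norm_num at e1

/-- **The ends which are not inner are outside of every closed strand.** -/
theorem od_out (h : RMZ X c0 EU ED U D) (hU : ∀ c ∈ C, c ∉ EU) (hD : ∀ c ∈ C, c ∉ ED)
    (hC : Str X C) {x : Fin N × Dir} (hx : ¬ Inn EU ED x) : ¬ Od C (pos x) := by
  have mU := h.matchU hU hC
  have mD := h.matchD hD hC
  obtain ⟨c, d⟩ := x
  cases d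
  · have hc : ¬ 0 < (c : ℕ) := hx
    have e : pos (c, Dir.W) = 0 := by
      show (c : ℕ) = 0
      omega
    rw [e]
    exact not_od_zero
  · have hc : c ∈ EU := not_not.1 hx
    show ¬ Od C (c : ℕ)
    by_cases hcc : c = c0
    · rw [hcc]
      exact h.od_c0 hU hD hC
    · exact od_gate mU hU hc (fun x hx => h.sU.ex x hx c hc hcc)
  · have hc : ¬ (c : ℕ) + 1 < N := hx
    show ¬ Od C ((c : ℕ) + 1)
    refine not_od_pres mU ?_
    intro z _ _ _
    have := c.2
    have := (U z).2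
    omega
  · have hc : c ∈ ED := not_not.1 hx
    exact od_gate mD hD hc (fun x hx => h.sD.ex x hx c hc)

/-- parity at the two ends of a wire -/
theorem od_wire (h : RMZ X c0 EU ED U D) (hU : ∀ c ∈ C, c ∉ EU) (hD : ∀ c ∈ C, c ∉ ED)
    (hC : Str X C) {x : Fin N × Dir} (hx : x ∉ VE C) : Od C (pos x) ↔ Od C (pos (X.π x)) := by
  have mU := h.matchU hU hC
  have mD := h.matchD hD hC
  by_cases hi : Inn EU ED x
  · obtain ⟨c, d⟩ := x
    rw [mem_VE] at hx
    cases d
    · have hc : 0 < (c : ℕ) := hi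
      rw [(h.row' hc).1]
      have e : pos ((⟨(c : ℕ) - 1, by have := c.2; omega⟩ : Fin N), Dir.E) = pos (c, Dir.W) := by
        show (c : ℕ) - 1 + 1 = (c : ℕ)
        omega
      rw [e]
    · have hc : c ∉ EU := hi
      have hcC : c ∉ C := fun hh => hx ⟨hh, Or.inl rfl⟩
      rw [(h.up c hc).1]
      show Od C (c : ℕ) ↔ Od C (U c : ℕ)
      refine od_arc mU hU h.sU.inv h.sU.nc h.sU.mem hc hcC ?_
      intro h3
      apply hcC
      have := mU.mem _ h3
      rwa [h.sU.inv c hc] at this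
    · have hc : (c : ℕ) + 1 < N := hi
      rw [(h.row c ⟨c + 1, hc⟩ rfl).1]
      exact Iff.rfl
    · have hc : c ∉ ED := hi
      have hcC : c ∉ C := fun hh => hx ⟨hh, Or.inr rfl⟩
      rw [(h.dn c hc).1]
      show Od C (c : ℕ) ↔ Od C (D c : ℕ)
      refine od_arc mD hD h.sD.inv h.sD.nc h.sD.mem hc hcC ?_
      intro h3
      apply hcC
      have := mD.mem _ h3
      rwa [h.sD.inv c hc] at this
  · have hi' : ¬ Inn EU ED (X.π x) := by
      intro hh
      have := h.inn_pi hh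
      rw [h.inv] at this
      exact hi this
    exact ⟨fun hh => absurd hh (h.od_out hU hD hC hi), fun hh => absurd hh (h.od_out hU hD hC hi')⟩

/-! ### Winding numbers and turning -/

/-- **turning and winding numbers of a closed strand** -/
theorem data (h : RMZ X c0 EU ED U D) (hU : ∀ c ∈ C, c ∉ EU) (hD : ∀ c ∈ C, c ∉ ED)
    (hC : Single X C) {n : Fin N × Dir → ℤˣ} (hO : Ori X C n) :
    ∃ k : ℤ, (k = 1 ∨ k = -1) ∧ turn U D (fun c => ((n (c, .N) : ℤˣ) : ℤ)) C = 4 * k ∧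
      ∀ p : ℕ, side C (fun c => ((n (c, .N) : ℤˣ) : ℤ)) (fun z : Fin N => (z : ℕ) < p) =
        (open Classical in if Od C p then k else 0) := by
  classical
  obtain ⟨k, hk, h1, h2⟩ := Pool.Agent.Q1.M6b.Meander.closed (h.closed hU hD hC)
    (n := fun c => ((n (c, .N) : ℤˣ) : ℤ)) (by
      intro c _
      rcases Int.units_eq_one_or (n (c, .N)) with h1 | h1
      · left; simp [h1]
      · right; simp [h1]) (h.ori_U hU hO) (h.ori_D hD hC.str hO)
  refine ⟨k, hk, h1, ?_⟩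
  intro p
  rw [h2 (fun z : Fin N => (z : ℕ) < p) (fun a b hab ha => lt_trans (Fin.lt_def.1 hab) ha)]
  unfold Od
  congr

/-- the winding numbers -/
theorem wind (h : RMZ X c0 EU ED U D) (hU : ∀ c ∈ C, c ∉ EU) (hD : ∀ c ∈ C, c ∉ ED)
    (hC : Single X C) {n : Fin N × Dir → ℤˣ} (hO : Ori X C n) :
    Wind X C n (wn C n) ∧ wn C n X.y0 = 0 := by
  classical
  obtain ⟨k, hk, h1, h2⟩ := h.data hU hD hC hO
  have w0 : ∀ x, ¬ Od C (pos x) → wn C n x = 0 := by
    intro x hx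
    have := h2 (pos x)
    rw [if_neg hx] at this
    exact this
  refine ⟨⟨?_, ?_, ?_, ?_⟩, ?_⟩
  · intro i hi d
    unfold wn
    have key : side C (fun c => (n (c, .N) : ℤ)) (fun z : Fin N => (z : ℕ) < i + 1)
        = side C (fun c => (n (c, .N) : ℤ)) (fun z : Fin N => (z : ℕ) < i) := by
      rw [side_range (Nat.le_succ _)]
      have : C.filter (fun z : Fin N => (i : ℕ) ≤ (z : ℕ) ∧ (z : ℕ) < i + 1) = ∅ := by
        ext z
        simp only [mem_filter, notMem_empty, iff_false, not_and]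
        intro hz h1 h2
        have : z = i := Fin.ext (by omega)
        exact hi (this ▸ hz)
      rw [this]; simp
    cases d
    · rfl
    · rfl
    · exact key
    · rfl
  · intro i hi
    unfold wn
    show side C (fun c => (n (c, .N) : ℤ)) (fun z : Fin N => (z : ℕ) < i + 1)
        = side C (fun c => (n (c, .N) : ℤ)) (fun z : Fin N => (z : ℕ) < i) - (n (i, .N) : ℤ)
    rw [side_range (Nat.le_succ _)]
    have : C.filter (fun z : Fin N => (i : ℕ) ≤ (z : ℕ) ∧ (z : ℕ) < i + 1) = {i} := by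
      ext z
      simp only [mem_filter, mem_singleton]
      constructor
      · rintro ⟨hz, h1, h2⟩
        exact Fin.ext (by omega)
      · rintro rfl
        exact ⟨hi, le_rfl, Nat.lt_succ_self _⟩
    rw [this]; simp
  · intro x hx
    have h3 := h.od_wire hU hD hC.str hx
    have e1 : wn C n x = if Od C (pos x) then k else 0 := h2 (pos x)
    have e2 : wn C n (X.π x) = if Od C (pos (X.π x)) then k else 0 := h2 (pos (X.π x))
    rw [e1, e2, if_congr h3 rfl rfl]
  · refine w0 _ (h.od_out hU hD hC.str ?_)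
    rw [h.x0]
    exact fun hh => hh h.sU.zero
  · refine w0 _ (h.od_out hU hD hC.str ?_)
    intro hh
    exact h.inn_sp hh (Or.inr (Or.inr (Or.inl rfl)))

/-- **turning of a closed strand** -/
theorem turning (h : RMZ X c0 EU ED U D) (hU : ∀ c ∈ C, c ∉ EU) (hD : ∀ c ∈ C, c ∉ ED)
    (hC : Single X C) {n : Fin N × Dir → ℤˣ} (hO : Ori X C n) : tot X C n = 4 ∨ tot X C n = -4 := by
  classical
  obtain ⟨k, hk, hturn, hside⟩ := h.data hU hD hC hO
  have mU := h.matchU hU hC.str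
  have mD := h.matchD hD hC.str
  set ν : Fin N → ℤ := fun c => (n (c, .N) : ℤ) with hν
  have ν1 : ∀ c ∈ C, ν c = 1 ∨ ν c = -1 := by
    intro c _
    rcases Int.units_eq_one_or (n (c, .N)) with h1 | h1
    · left; simp [hν, h1]
    · right; simp [hν, h1]
  have νU : ∀ c ∈ C, ν (U c) = -ν c := h.ori_U hU hO
  have νD : ∀ c ∈ C, ν (D c) = -ν c := h.ori_D hD hC.str hO
  have e1 : tot X C n = ∑ c ∈ C, ((if ν c = 1 then -2 * dir c (U c) + th0 c0 (U c) - th0 c0 c else 0)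
      + (if ν c = -1 then 2 * dir c (D c) else 0)) := by
    unfold Pool.Agent.Q1.M6b.Strand.tot VE
    rw [sum_product]
    apply sum_congr rfl
    intro c hc
    rw [sum_pair (by decide), (h.up c (hU c hc)).2.1, (h.dn c (hD c hc)).2.1, hO.vert c hc]
    rcases Int.units_eq_one_or (n (c, .N)) with h1 | h1
    · have : ν c = 1 := by simp [hν, h1]
      rw [this, h1]; norm_num
    · have : ν c = -1 := by simp [hν, h1]
      rw [this, h1]; norm_num
  have a1 := sum_half mU ν1 νU (th0 c0) 1 (Or.inl rfl)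
  have a3 := sum_half mU ν1 νU (fun c => dir c (U c)) 1 (Or.inl rfl)
  have a4 := sum_half mD ν1 νD (fun c => dir c (D c)) (-1) (Or.inr rfl)
  have dirs : ∀ x y : Fin N, x ≠ y → dir x y = -dir y x := by
    intro x y hxy
    rcases lt_or_gt_of_ne hxy with h1 | h1
    · rw [dir_lt h1, dir_gt h1]; norm_num
    · rw [dir_lt h1, dir_gt h1]
  have a3' : ∑ c ∈ C, (if ν c = 1 then dir c (U c) else 0)
      = -∑ c ∈ C, (if ν c = -1 then dir c (U c) else 0) := by
    rw [← a3, ← sum_neg_distrib]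
    apply sum_congr rfl
    intro c hc
    split_ifs
    · rw [mU.inv c hc, dirs _ _ (mU.ne c hc)]; ring
    · ring
  have a4' : ∑ c ∈ C, (if ν c = -1 then dir c (D c) else 0)
      = -∑ c ∈ C, (if ν c = 1 then dir c (D c) else 0) := by
    have e : (- -1 : ℤ) = 1 := by norm_num
    rw [e] at a4
    rw [← a4, ← sum_neg_distrib]
    apply sum_congr rfl
    intro c hc
    split_ifs
    · rw [mD.inv c hc, dirs _ _ (mD.ne c hc)]; ring
    · ring
  have e2 : turn U D ν C = -(∑ c ∈ C, (if ν c = 1 then dir c (U c) else 0)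
      - ∑ c ∈ C, (if ν c = -1 then dir c (U c) else 0)
      + ∑ c ∈ C, (if ν c = 1 then dir c (D c) else 0)
      - ∑ c ∈ C, (if ν c = -1 then dir c (D c) else 0)) := by
    unfold turn
    rw [← sum_sub_distrib, ← sum_add_distrib, ← sum_sub_distrib, ← sum_neg_distrib]
    apply sum_congr rfl
    intro c hc
    rcases ν1 c hc with h1 | h1
    · rw [h1]; norm_num
    · rw [h1]; norm_num; ring
  have e3 : tot X C n = -2 * (∑ c ∈ C, (if ν c = 1 then dir c (U c) else 0))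
      + 2 * (∑ c ∈ C, (if ν c = -1 then dir c (D c) else 0))
      + (∑ c ∈ C, (if ν c = 1 then th0 c0 (U c) else 0) - ∑ c ∈ C, (if ν c = 1 then th0 c0 c else 0)) := by
    rw [e1, mul_sum, mul_sum, ← sum_sub_distrib, ← sum_add_distrib, ← sum_add_distrib]
    apply sum_congr rfl
    intro c hc
    rcases ν1 c hc with h1 | h1
    · rw [h1]; norm_num; ring
    · rw [h1]; norm_num
  -- the coboundary
  have hc0C : c0 ∉ C := fun hh => hU _ hh h.sU.zero
  have z1 : ∑ c ∈ C, ν c = 0 := by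
    refine Finset.sum_involution (fun x _ => U x) ?_ ?_ ?_ ?_
    · intro x hx
      rw [νU x hx]; ring
    · intro x hx _
      exact mU.ne x hx
    · intro x hx
      exact mU.mem x hx
    · intro x hx
      exact mU.inv x hx
  have z2 : ∑ c ∈ C.filter (fun z : Fin N => (z : ℕ) < c0), ν c = 0 := by
    have h3 := hside (c0 : ℕ)
    rw [if_neg (h.od_c0 hU hD hC.str)] at h3
    unfold side at h3
    linarith
  have z3 : ∑ c ∈ C, (if ν c = -1 then th0 c0 c else 0) - ∑ c ∈ C, (if ν c = 1 then th0 c0 c else 0) =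
      0 := by
    have z4 : ∑ c ∈ C, (if ν c = -1 then th0 c0 c else 0) -
        ∑ c ∈ C, (if ν c = 1 then th0 c0 c else 0) =
        -4 * (∑ c ∈ C, ν c - ∑ c ∈ C.filter (fun z : Fin N => (z : ℕ) < c0), ν c) := by
      rw [sum_filter, ← sum_sub_distrib, ← sum_sub_distrib, mul_sum]
      refine sum_congr rfl fun c hc => ?_
      have hcc : (c : ℕ) ≠ c0 := fun hh => hc0C (Fin.ext hh ▸ hc)
      rcases Nat.lt_or_gt_of_ne hcc with h5 | h5
      · have e5 : th0 c0 c = 0 := if_neg (fun hh => by have := Fin.lt_def.1 hh; omega)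
        rw [e5, if_pos h5]
        rcases ν1 c hc with h1 | h1 <;> rw [h1] <;> norm_num
      · have e5 : th0 c0 c = 4 := if_pos (Fin.lt_def.2 h5)
        rw [e5, if_neg (show ¬ ((c : ℕ) < (c0 : ℕ)) by omega)]
        rcases ν1 c hc with h1 | h1 <;> rw [h1] <;> norm_num
    rw [z4, z1, z2]; norm_num
  have e4 : tot X C n = 4 * k := by
    rw [← hturn, e3, e2, a1]
    linarith
  rcases hk with rfl | rfl
  · left; rw [e4]; norm_num
  · right; rw [e4]; norm_num

/-! ### The sum over the closed strands -/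

/-- **closed strands have the factor `1`** -/
theorem sum_closed (h : RMZ X c0 EU ED U D) (hU : ∀ c ∈ K, c ∉ EU) (hD : ∀ c ∈ K, c ∉ ED)
    (hK : Str X K) {a b : Fin N → ℂ}
    (hov : ∀ i ∈ K, a i = zt ^ (4 : ℤ) ∧ b i = zt ^ (-4 : ℤ)) {F : (Fin N × Dir → ℤˣ) → ℂ}
    (hF : Indep K F) :
    (∑ o : Fin N × Dir → ℤˣ, if X.Cons o then F o * X.wt a b o else 0) = VR X a b (alt K) F K := by
  classical
  have hn := h.ori hU hD hK
  have hw : ∀ C ∈ orbs X K, Wind X C (alt K) (wn C (alt K)) ∧ wn C (alt K) X.y0 = 0 := fun C hC =>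
    h.wind (fun c hc => hU c ((mem_orbs.1 hC).1 hc)) (fun c hc => hD c ((mem_orbs.1 hC).1 hc))
      (mem_orbs.1 hC).2 (hn.mono (mem_orbs.1 hC).1)
  rw [strands h.inv h.ne h.tn hK hn hov (fun C => wn C (alt K)) (fun C hC => (hw C hC).1) hF]
  rw [prod_congr rfl (fun C hC => fac_one (h.turning (fun c hc => hU c ((mem_orbs.1 hC).1 hc))
    (fun c hc => hD c ((mem_orbs.1 hC).1 hc)) (mem_orbs.1 hC).2 (hn.mono (mem_orbs.1 hC).1))
    (hw C hC).2), prod_const_one, one_mul]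

/-- the sum over the arrows which agree with `o₀` outside the closed strands -/
theorem class_sum (h : RMZ X c0 EU ED U D) (hU : ∀ c ∈ K, c ∉ EU) (hD : ∀ c ∈ K, c ∉ ED)
    (hK : Str X K) {a b : Fin N → ℂ}
    (hov : ∀ i ∈ K, a i = zt ^ (4 : ℤ) ∧ b i = zt ^ (-4 : ℤ)) (o₀ : Fin N × Dir → ℤˣ)
    [DecidablePred fun o : Fin N × Dir → ℤˣ => X.Cons o ∧ ∀ x, x ∉ VE K → o x = o₀ x] :
    ‖∑ o : Fin N × Dir → ℤˣ, if X.Cons o ∧ ∀ x, x ∉ VE K → o x = o₀ x then X.wt a b o else 0‖ ≤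
      ‖wtR X a b K o₀‖ := by
  classical
  have hF : Indep K (fun o : Fin N × Dir → ℤˣ => if ∀ x, x ∉ VE K → o x = o₀ x then (1 : ℂ) else 0) := by
    intro o o' hoo
    have : (∀ x, x ∉ VE K → o x = o₀ x) ↔ (∀ x, x ∉ VE K → o' x = o₀ x) := by
      constructor
      · intro hh x hx; rw [← hoo x hx, hh x hx]
      · intro hh x hx; rw [hoo x hx, hh x hx]
    simp only [this]
  have e := h.sum_closed hU hD hK hov hF
  have e1 : (∑ o : Fin N × Dir → ℤˣ, if X.Cons o ∧ ∀ x, x ∉ VE K → o x = o₀ x then X.wt a b o else 0)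
      = ∑ o : Fin N × Dir → ℤˣ, if X.Cons o then
        (if ∀ x, x ∉ VE K → o x = o₀ x then (1 : ℂ) else 0) * X.wt a b o else 0 := by
    apply sum_congr rfl
    intro o _
    by_cases h1 : X.Cons o
    · by_cases h2 : ∀ x, x ∉ VE K → o x = o₀ x
      · rw [if_pos ⟨h1, h2⟩, if_pos h1, if_pos h2, one_mul]
      · rw [if_neg (fun hh => h2 hh.2), if_pos h1, if_neg h2, zero_mul]
    · rw [if_neg (fun hh => h1 hh.1), if_neg h1]
  rw [e1, e]
  -- at most one term
  set o₁ : Fin N × Dir → ℤˣ := fun x => if x ∈ VE K then alt K x else o₀ x with ho₁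
  unfold VR
  rw [Finset.sum_eq_single o₁]
  · unfold term
    split_ifs with hc
    · rw [norm_mul]
      have : wtR X a b K o₁ = wtR X a b K o₀ := by
        apply wtR_congr
        intro x hx
        rw [ho₁]; simp only [if_neg hx]
      rw [this]
      apply mul_le_of_le_one_left (norm_nonneg _)
      beta_reduce
      split_ifs <;> simp
    · rw [norm_zero]; exact norm_nonneg _
  · intro o _ hne'
    unfold term
    split_ifs with hc
    · have : ¬ ∀ x, x ∉ VE K → o x = o₀ x := by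
        intro hh
        apply hne'
        funext x
        rw [ho₁]
        by_cases hx : x ∈ VE K
        · simp only [if_pos hx]; exact hc.2 x hx
        · simp only [if_neg hx]; exact hh x hx
      beta_reduce
      rw [if_neg this, zero_mul]
    · rfl
  · intro hh; exact absurd (mem_univ _) hh

/-- **Pointwise bound of the vertex sum.** -/
theorem V_bound (h : RMZ X c0 EU ED U D) {a b : Fin N → ℂ} {sp : Finset (Fin N)} (h1 : EU ⊆ sp)
    (h2 : ED ⊆ sp) {LN LS : Finset (Fin N × Fin N)} {m : ℕ} {Ex : Fin m → Finset (Fin N)}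
    (hR : RowData2 X sp a b LN LS Ex)
    (hcp : ∀ c ∈ sp, (a c = 1 ∧ b c = -1) ∨ (a c = zt ^ (4 : ℤ) ∧ b c = zt ^ (-4 : ℤ))) :
    ‖X.V a b‖ ≤ 2 ^ (5 * sp.card + m) * ∏ k, (1 + ((Ex k).card : ℝ)) := by
  classical
  have hK : Str X (Kn X sp) := Kn_str hR.anc
  have hKsp : ∀ c ∈ Kn X sp, c ∉ sp := fun c hc => Kn_sp hc
  have hU : ∀ c ∈ Kn X sp, c ∉ EU := fun c hc hh => hKsp c hc (h1 hh)
  have hD : ∀ c ∈ Kn X sp, c ∉ ED := fun c hc hh => hKsp c hc (h2 hh)
  refine V_bound_one h.inv h.ne h.tn hR (h.ori hU hD hK) (fun o₀ => ?_) hcp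
  exact h.class_sum hU hD hK (fun i hi => hR.ov i (hKsp i hi)) o₀

end RMZ

end Pool.Agent.H81.W
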