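import Mathlib
import Pool.Agent.H30.W.Walk
import Pool.Agent.H81.W.BlkZ

set_option autoImplicit false
set_option linter.unusedSectionVars false
open Finset

/-! # The plain zone above a row

`InP` : the tiles above the row up to the height `h`, without the column of the string. `plain_seg` : the
strands of a rectangle above a segment of columns. `UP` : the arcs of the plain zone: `UP c = some c'` iff
the strand of the column `c` stays in the zone and comes back at the column `c'`. -/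

namespace Pool.Agent.H81.W

open Pool.Agent.H75.Perc Pool.Agent.H75.TwoArm Pool.Agent.Q1 Pool.Agent.H81.G1
open Pool.Agent.H30.Mid
open Pool.Agent.H30.W
open Pool.Agent.H40.W (UW_UW uf_iter_rev)
open Pool.Agent.H69.M6b (lbt lbt_inj lbt_odd pr0 PR TD se Kp Bx' tt)
open Pool.Agent.Q1.M6b.Meander (dir dir_lt dir_gt)
open Pool.Agent.H34.Q1 (FarC)

/-! ### Rectangles above a segment of columns -/

/-- tiles of the rectangle above the columns `a, …, a + n - 1` -/
def InS (x0 y0 : ℤ) (a n h : ℕ) (u : ℤ × ℤ) : Prop :=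
  (x0 + a ≤ u.1 ∧ u.1 < x0 + a + n) ∧ y0 + 1 ≤ u.2 ∧ u.2 < y0 + 1 + h

/-- **The strands of a rectangle above a segment of columns.** -/
theorem plain_seg (L : Finset (ℤ × ℤ)) (x0 y0 : ℤ) (a n : ℕ) {h : ℕ} (hh : 0 < h) :
    ∃ (Ex : Finset (Fin n)) (f : Fin n → Fin n), Side Ex f ∧
      (∀ d, d ∉ Ex → PR (uf L) (ud L) {z | InS x0 y0 a n h z.1} (z0 x0 y0 true (a + (d : ℕ)))
        (zr0 x0 y0 true (a + ((f d : Fin n) : ℕ))) (-2 * dir d (f d))) ∧
      ∀ d ∈ Ex, ∃ z', ∃ t, PR (uf L) (ud L) {z | InS x0 y0 a n h z.1}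
        (z0 x0 y0 true (a + (d : ℕ))) z' t ∧ (y0 + 1 ≤ z'.1.2) ∧
        (z'.1.1 + 1 = x0 + a ∨ z'.1.1 = x0 + a + n ∨ z'.1.2 = y0 + 1 + h) := by
  rcases Nat.eq_zero_or_pos n with hn | hn
  · subst hn
    exact ⟨∅, id, ⟨fun c => c.elim0, fun c => c.elim0, fun c => c.elim0, fun c => c.elim0,
      fun c => c.elim0⟩, fun c => c.elim0, fun c => c.elim0⟩
  · obtain ⟨M, hT0⟩ := rectTD L (x0 + a) (y0 + 1) hn hh
    have e0 : x0 + (a : ℤ) = x0 + a - ((0 : ℕ) : ℤ) := by simp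
    have hT := hT0
    rw [e0] at hT
    have how : 0 + n ≤ n := by omega
    have hS := sideU (N := n) (x0 := x0 + a) (y0 := y0) (o := 0) how hT
    refine ⟨_, _, hS, ?_, ?_⟩
    · intro d hd
      have hdn := d.2
      have hk : prt true (h + 0) d < 2 * (h + n) := by
        have e : prt true (h + 0) d = h + 0 + d := rfl
        omega
      have key := hT.path _ hk
      rw [not_exc hd, se_up d how, se_up (mt n M true (h + 0) d) how,
        tt_up (hS.ne d hd).symm how] at key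
      have e1 : UW ((x0 + (a : ℤ) + ((mt n M true (h + 0) d : Fin n) : ℕ), y0 + 1), Dir.S) =
          zr0 x0 y0 true (a + ((mt n M true (h + 0) d : Fin n) : ℕ)) := by
        unfold UW zr0
        refine Prod.ext (Prod.ext ?_ ?_) rfl
        · simp only [if_true]; push_cast; ring
        · simp
      have e2 : (((x0 + (a : ℤ) + (d : ℕ), y0 + 1), Dir.S) : (ℤ × ℤ) × Dir) =
          z0 x0 y0 true (a + (d : ℕ)) := by
        unfold z0
        refine Prod.ext (Prod.ext ?_ rfl) rfl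
        simp only [if_true]; push_cast; ring
      rw [e1, e2] at key
      refine key.mono ?_
      rintro z ⟨i, hi, j, -, hj, e⟩
      show InS x0 y0 a n h z.1
      unfold InS
      rw [e]
      unfold TT
      simp only
      omega
    · intro d hd
      have hdn := d.2
      have hk : prt true (h + 0) d < 2 * (h + n) := by
        have e : prt true (h + 0) d = h + 0 + d := rfl
        omega
      have key := hT.path _ hk
      rw [se_up d how] at key
      have hlt := hT.lt _ hk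
      have hex := mem_exc.1 hd
      set k := M (prt true (h + 0) d) with hkk
      have e2 : (((x0 + (a : ℤ) + (d : ℕ), y0 + 1), Dir.S) : (ℤ × ℤ) × Dir) =
          z0 x0 y0 true (a + (d : ℕ)) := by
        unfold z0
        refine Prod.ext (Prod.ext ?_ rfl) rfl
        simp only [if_true]; push_cast; ring
      rw [e2] at key
      refine ⟨UW (se (TT (x0 + a - ((0 : ℕ) : ℤ)) (y0 + 1)) n h k), _, key.mono ?_, ?_⟩
      · rintro z ⟨i, hi, j, -, hj, e⟩
        show InS x0 y0 a n h z.1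
        unfold InS
        rw [e]
        unfold TT
        simp only
        omega
      · have hk2 : ¬ (h ≤ k ∧ k < h + n) := by
          rintro ⟨h1, h2⟩
          refine hex ⟨k - h, by omega⟩ ?_
          show k = h + 0 + (k - h)
          omega
        unfold se
        split_ifs with h1 h2 h3
        · unfold UW TT
          simp only
          refine ⟨by omega, Or.inl ?_⟩
          push_cast; ring
        · exact absurd ⟨not_lt.1 h1, h2⟩ hk2
        · unfold UW TT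
          simp only
          refine ⟨by omega, Or.inr (Or.inl ?_)⟩
          have : ((n - 1 : ℕ) : ℤ) = n - 1 := by omega
          rw [this]; push_cast; ring
        · unfold UW TT
          simp only
          have : ((h - 1 : ℕ) : ℤ) = h - 1 := by omega
          rw [this]
          refine ⟨by omega, Or.inr (Or.inr ?_)⟩
          ring

/-! ### The plain zone -/

variable {N : ℕ}

/-- tiles of the plain zone -/
def InP (x0 y0 : ℤ) (c0 : Fin N) (h : ℕ) (u : ℤ × ℤ) : Prop :=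
  (x0 ≤ u.1 ∧ u.1 < x0 + N ∧ u.1 ≠ x0 + (c0 : ℕ)) ∧ y0 + 1 ≤ u.2 ∧ u.2 < y0 + 1 + h

variable {L Lg : Finset (ℤ × ℤ)} {x0 y0 : ℤ} {c0 : Fin N} {h : ℕ}

/-- walk from the column `c` to the column `c'` in the zone -/
def Rl (L : Finset (ℤ × ℤ)) (x0 y0 : ℤ) (c0 : Fin N) (h : ℕ) (c c' : Fin N) : Prop :=
  ∃ n, WK L x0 y0 true (InP x0 y0 c0 h) c n (zr0 x0 y0 true c')

lemma wk_uniq {e : Bool} {In : ℤ × ℤ → Prop} {c n m : ℕ} {z z' : (ℤ × ℤ) × Dir}
    (h1 : WK L x0 y0 e In c n z) (h2 : WK L x0 y0 e In c m z') (hz : ¬ In z.1) (hz' : ¬ In z'.1) :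
    z = z' := by
  rcases lt_trichotomy n m with h | h | h
  · exact absurd (h1.tgt ▸ h2.mem n h) hz
  · rw [← h1.tgt, ← h2.tgt, h]
  · exact absurd (h2.tgt ▸ h1.mem m h) hz'

lemma zr0_notIn (c : ℕ) : ¬ InP x0 y0 c0 h (zr0 x0 y0 true c).1 := by
  unfold InP zr0
  simp only [if_true]
  omega

lemma zr0_inj {e : Bool} {c c' : Fin N} (hz : zr0 x0 y0 e (c : ℕ) = zr0 x0 y0 e (c' : ℕ)) : c = c' := by
  unfold zr0 at hz
  cases e <;> simp only [Bool.false_eq_true, if_false, if_true, Prod.mk.injEq] at hz <;>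
    exact Fin.ext (by omega)

lemma Rl.uniq {c c' c'' : Fin N} (h1 : Rl L x0 y0 c0 h c c') (h2 : Rl L x0 y0 c0 h c c'') : c' = c'' := by
  obtain ⟨n, h1⟩ := h1
  obtain ⟨m, h2⟩ := h2
  exact zr0_inj (wk_uniq h1 h2 (zr0_notIn _) (zr0_notIn _))

open Classical in
/-- **the arcs of the plain zone** -/
noncomputable def UP (L : Finset (ℤ × ℤ)) (x0 y0 : ℤ) (c0 : Fin N) (h : ℕ) (c : Fin N) :
    Option (Fin N) := if hh : ∃ c', Rl L x0 y0 c0 h c c' then some (Classical.choose hh) else none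

lemma UP_some {c c' : Fin N} : UP L x0 y0 c0 h c = some c' ↔ Rl L x0 y0 c0 h c c' := by
  unfold UP
  constructor
  · intro hh
    split_ifs at hh with h1
    · have h2 := Classical.choose_spec h1
      rw [Option.some.injEq] at hh
      rw [← hh]; exact h2
  · intro hh
    rw [dif_pos ⟨c', hh⟩]
    congr 1
    exact Rl.uniq (Classical.choose_spec (⟨c', hh⟩ : ∃ c', Rl L x0 y0 c0 h c c')) hh

lemma UP_none {c : Fin N} : UP L x0 y0 c0 h c = none ↔ ∀ c', ¬ Rl L x0 y0 c0 h c c' := by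
  unfold UP
  constructor
  · intro hh c' h1
    rw [dif_pos ⟨c', h1⟩] at hh
    exact absurd hh (by simp)
  · intro hh
    rw [dif_neg]
    rintro ⟨c', h1⟩
    exact hh c' h1

/-- reversed walks -/
lemma Rl.symm {c c' : Fin N} (h1 : Rl L x0 y0 c0 h c c') : Rl L x0 y0 c0 h c' c := by
  obtain ⟨n, hn⟩ := h1
  have e0 : UW (zr0 x0 y0 true (c' : ℕ)) = z0 x0 y0 true (c' : ℕ) := UW_zr0 _ _
  have e1 : UW (z0 x0 y0 true (c : ℕ)) = zr0 x0 y0 true (c : ℕ) := by rw [← UW_zr0, UW_UW]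
  have r := uf_iter_rev L (z0 x0 y0 true (c : ℕ)) n
  rw [hn.tgt, e0] at r
  refine ⟨n, ?_, ?_⟩
  · rw [r n le_rfl, Nat.sub_self, Function.iterate_zero, id_eq, e1]
  · intro i hi
    rw [r i hi.le]
    have e : n - i = (n - 1 - i) + 1 := by omega
    rw [e, Function.iterate_succ_apply', Pool.Agent.H40.W.UW_uf]
    exact hn.mem _ (by omega)

/-- the two segments -/
lemma seg_cases (c : Fin N) (hc : c ≠ c0) : (∃ d : Fin (c0 : ℕ), (c : ℕ) = 0 + (d : ℕ) ∧ c < c0) ∨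
    ∃ d : Fin (N - 1 - (c0 : ℕ)), (c : ℕ) = (c0 : ℕ) + 1 + (d : ℕ) ∧ c0 < c := by
  have h1 : (c : ℕ) ≠ c0 := fun hh => hc (Fin.ext hh)
  have h2 := c.2
  have h3 := c0.2
  rcases Nat.lt_or_gt_of_ne h1 with h4 | h4
  · exact Or.inl ⟨⟨c, h4⟩, by simp, Fin.lt_def.2 h4⟩
  · exact Or.inr ⟨⟨(c : ℕ) - c0 - 1, by omega⟩, by simp only; omega, Fin.lt_def.2 h4⟩

/-- **The strands of a segment in the zone**, `a` first column, `n` number of columns -/
theorem zone_seg (hh : 0 < h) {a n : ℕ} (han : a + n ≤ N) (hc0 : (c0 : ℕ) < a ∨ a + n ≤ (c0 : ℕ)) :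
    ∃ (Ex : Finset (Fin n)) (f : Fin n → Fin n), Side Ex f ∧
      (∀ d, d ∉ Ex → PR (uf L) (ud L) {z | InP x0 y0 c0 h z.1} (z0 x0 y0 true (a + (d : ℕ)))
        (zr0 x0 y0 true (a + ((f d : Fin n) : ℕ))) (-2 * dir d (f d))) ∧
      ∀ d ∈ Ex, ∃ z', (∃ t, PR (uf L) (ud L) {z | InP x0 y0 c0 h z.1}
        (z0 x0 y0 true (a + (d : ℕ))) z' t) ∧ (y0 + 1 ≤ z'.1.2) ∧
        (z'.1.1 + 1 = x0 + a ∨ z'.1.1 = x0 + a + n ∨ z'.1.2 = y0 + 1 + h) := by
  obtain ⟨Ex, f, h1, h2, h3⟩ := plain_seg L x0 y0 a n hh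
  have hsub : ({z | InS x0 y0 a n h z.1} : Set ((ℤ × ℤ) × Dir)) ⊆ {z | InP x0 y0 c0 h z.1} := by
    intro z hz
    have hz : InS x0 y0 a n h z.1 := hz
    obtain ⟨⟨g1, g2⟩, g3, g4⟩ := hz
    exact ⟨⟨by omega, by omega, by omega⟩, g3, g4⟩
  refine ⟨Ex, f, h1, fun d hd => (h2 d hd).mono hsub, ?_⟩
  intro d hd
  obtain ⟨z', t, g1, g2, g3⟩ := h3 d hd
  exact ⟨z', ⟨t, g1.mono hsub⟩, g2, g3⟩

lemma PR.wk {In : ℤ × ℤ → Prop} {c : ℕ} {z' : (ℤ × ℤ) × Dir} {t : ℤ} {e : Bool}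
    (hp : PR (uf L) (ud L) {z | In z.1} (z0 x0 y0 e c) z' t) : ∃ n, WK L x0 y0 e In c n z' := by
  obtain ⟨n, h1, h2, -⟩ := hp
  exact ⟨n, h1, h2⟩

/-- the data of a column of a segment -/
lemma seg_data (hh : 0 < h) {a n : ℕ} (han : a + n ≤ N) (hc0 : (c0 : ℕ) < a ∨ a + n ≤ (c0 : ℕ))
    (ha : a = 0 ∨ a = (c0 : ℕ) + 1) (hn : a + n = (c0 : ℕ) ∨ a + n = N) :
    ∃ (Ex : Finset (Fin n)) (f : Fin n → Fin n), Side Ex f ∧
      (∀ (c : Fin N) (d : Fin n), (c : ℕ) = a + (d : ℕ) → d ∉ Ex → ∃ c' : Fin N,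
        (c' : ℕ) = a + ((f d : Fin n) : ℕ) ∧ Rl L x0 y0 c0 h c c' ∧
        PR (uf L) (ud L) {z | InP x0 y0 c0 h z.1} (z0 x0 y0 true (c : ℕ)) (zr0 x0 y0 true (c' : ℕ))
          (-2 * dir c c')) ∧
      ∀ (c : Fin N) (d : Fin n), (c : ℕ) = a + (d : ℕ) → d ∈ Ex → (∀ c', ¬ Rl L x0 y0 c0 h c c') ∧
        ∃ m z', WK L x0 y0 true (InP x0 y0 c0 h) c m z' ∧ (y0 + 1 ≤ z'.1.2) ∧
        (z'.1.1 + 1 = x0 + a ∨ z'.1.1 = x0 + a + n ∨ z'.1.2 = y0 + 1 + h) := by
  obtain ⟨Ex, f, h1, h2, h3⟩ := zone_seg (L := L) (x0 := x0) (y0 := y0) (c0 := c0) hh han hc0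
  refine ⟨Ex, f, h1, ?_, ?_⟩
  · intro c d hc hd
    have hfd := (f d).2
    have key := h2 d hd
    refine ⟨⟨a + (f d : ℕ), by omega⟩, rfl, ?_, ?_⟩
    · rw [← hc] at key
      exact PR.wk key
    · rw [← hc] at key
      have e : dir c (⟨a + (f d : ℕ), by omega⟩ : Fin N) = dir d (f d) := by
        have hne := h1.ne d hd
        rcases lt_or_gt_of_ne hne with h4 | h4
        · rw [dir_gt h4, dir_gt]
          rw [Fin.lt_def] at h4 ⊢
          simp only; omega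
        · rw [dir_lt h4, dir_lt]
          rw [Fin.lt_def] at h4 ⊢
          simp only; omega
      rw [e]
      exact key
  · intro c d hc hd
    obtain ⟨z', ⟨t, g1⟩, g2, g3⟩ := h3 d hd
    rw [← hc] at g1
    obtain ⟨m, hm⟩ := PR.wk g1
    have hz' : ¬ InP x0 y0 c0 h z'.1 := by
      unfold InP
      rintro ⟨⟨k1, k2, k3⟩, k4, k5⟩
      rcases g3 with g3 | g3 | g3
      · rcases ha with ha | ha <;> omega
      · rcases hn with hn | hn <;> omega
      · omega
    refine ⟨?_, m, z', hm, g2, g3⟩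
    rintro c' ⟨m', hm'⟩
    have e := wk_uniq hm hm' hz' (zr0_notIn _)
    rw [e] at g2
    unfold zr0 at g2
    simp only [if_true] at g2
    omega

/-- **The strand of a column of the zone.** -/
theorem zone (L : Finset (ℤ × ℤ)) (x0 y0 : ℤ) (c0 : Fin N) (hh : 0 < h) {c : Fin N} (hc : c ≠ c0) :
    (∃ c', Rl L x0 y0 c0 h c c' ∧ (c < c0 ↔ c' < c0) ∧ c' ≠ c0 ∧
      PR (uf L) (ud L) {z | InP x0 y0 c0 h z.1} (z0 x0 y0 true (c : ℕ)) (zr0 x0 y0 true (c' : ℕ))
          (-2 * dir c c')) ∨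
    ((∀ c', ¬ Rl L x0 y0 c0 h c c') ∧ ∃ m z', WK L x0 y0 true (InP x0 y0 c0 h) c m z' ∧
      (y0 + 1 ≤ z'.1.2) ∧ (z'.1.1 + 1 = x0 ∨ z'.1.1 = x0 + (c0 : ℕ) ∨ z'.1.1 = x0 + N ∨
        z'.1.2 = y0 + 1 + h)) := by
  have hc0 := c0.2
  obtain ⟨ExL, fL, sL, aL, bL⟩ := seg_data (L := L) (x0 := x0) (y0 := y0) (c0 := c0) (h := h) hh
    (a := 0) (n := (c0 : ℕ)) (by omega) (by omega) (Or.inl rfl) (Or.inl (by omega))
  obtain ⟨ExR, fR, sR, aR, bR⟩ := seg_data (L := L) (x0 := x0) (y0 := y0) (c0 := c0) (h := h) hh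
    (a := (c0 : ℕ) + 1) (n := N - 1 - (c0 : ℕ)) (by omega) (by omega) (Or.inr rfl) (Or.inr (by omega))
  rcases seg_cases c hc with ⟨d, hd, hlt⟩ | ⟨d, hd, hlt⟩
  · by_cases hdE : d ∈ ExL
    · right
      obtain ⟨k1, m, z', k2, k3, k4⟩ := bL c d hd hdE
      refine ⟨k1, m, z', k2, k3, ?_⟩
      rcases k4 with k4 | k4 | k4
      · left; simpa using k4
      · right; left; rw [k4]; push_cast; ring
      · right; right; right; exact k4
    · left
      obtain ⟨c', k1, k2, k3⟩ := aL c d hd hdE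
      have := (fL d).2
      have hc' : c' < c0 := Fin.lt_def.2 (by omega)
      exact ⟨c', k2, ⟨fun _ => hc', fun _ => hlt⟩, hc'.ne, k3⟩
  · by_cases hdE : d ∈ ExR
    · right
      obtain ⟨k1, m, z', k2, k3, k4⟩ := bR c d hd hdE
      refine ⟨k1, m, z', k2, k3, ?_⟩
      rcases k4 with k4 | k4 | k4
      · right; left
        push_cast at k4
        omega
      · right; right; left
        rw [k4]
        have : ((N - 1 - (c0 : ℕ) : ℕ) : ℤ) = N - 1 - (c0 : ℕ) := by omega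
        rw [this]; push_cast; ring
      · right; right; right; exact k4
    · left
      obtain ⟨c', k1, k2, k3⟩ := aR c d hd hdE
      have hc' : c0 < c' := Fin.lt_def.2 (by omega)
      exact ⟨c', k2, ⟨fun hh => absurd hh (not_lt.2 hlt.le), fun hh => absurd hh (not_lt.2 hc'.le)⟩,
        hc'.ne', k3⟩

lemma Rl.ne0 {c' : Fin N} (h1 : Rl L x0 y0 c0 h c0 c') : False := by
  obtain ⟨n, hn⟩ := h1
  rcases Nat.eq_zero_or_pos n with h2 | h2
  · subst h2
    have := hn.tgt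
    unfold z0 zr0 at this
    simp only [if_true, Function.iterate_zero, id_eq, Prod.mk.injEq] at this
    omega
  · have := hn.mem 0 h2
    unfold InP z0 at this
    simp only [if_true, Function.iterate_zero, id_eq] at this
    exact this.1.2.2 rfl

lemma Rl.par {c c' : Fin N} (h1 : Rl L x0 y0 c0 h c c') : c ≠ c' := by
  obtain ⟨n, hn⟩ := h1
  have := WK.par hn
  rintro rfl
  cases hh : rp x0 y0 c <;> rw [hh] at this <;> cases this

/-- the facts about an arc of the zone -/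
lemma Rl.arc (hh : 0 < h) {c c' : Fin N} (h1 : Rl L x0 y0 c0 h c c') : (c < c0 ↔ c' < c0) ∧
    c ≠ c0 ∧ c' ≠ c0 ∧ PR (uf L) (ud L) {z | InP x0 y0 c0 h z.1} (z0 x0 y0 true (c : ℕ))
      (zr0 x0 y0 true (c' : ℕ)) (-2 * dir c c') := by
  have hc : c ≠ c0 := fun hh => (hh ▸ h1).ne0
  rcases zone L x0 y0 c0 hh hc with ⟨c'', k1, k2, k3, k4⟩ | ⟨k1, -⟩
  · have e := k1.uniq h1
    subst e
    exact ⟨k2, hc, k3, k4⟩
  · exact absurd h1 (k1 c')

/-- the strands which do not come back leave the zone -/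
lemma far_zone (hh : 0 < h) {c : Fin N} (hc : c ≠ c0) (hU : UP L x0 y0 c0 h c = none) :
    ∃ m z', WK L x0 y0 true (InP x0 y0 c0 h) c m z' ∧
      (y0 + 1 ≤ z'.1.2) ∧ (z'.1.1 + 1 = x0 ∨ z'.1.1 = x0 + (c0 : ℕ) ∨ z'.1.1 = x0 + N ∨
        z'.1.2 = y0 + 1 + h) := by
  rcases zone L x0 y0 c0 hh hc with ⟨c'', k1, -⟩ | ⟨-, k1⟩
  · exact absurd k1 (UP_none.1 hU c'')
  · exact k1

/-- **The arcs of the plain zone are a noncrossing matching.** -/
theorem UP_pm (hh : 0 < h) : PM (UP L x0 y0 c0 h) where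
  sy c c' hc := UP_some.2 (UP_some.1 hc).symm
  ne c c' hc := (UP_some.1 hc).par
  ns x x' y hx h1 h2 := by
    have hx := UP_some.1 hx
    have hc0 := c0.2
    obtain ⟨hs, hxc, hxc', -⟩ := hx.arc hh
    obtain ⟨ExL, fL, sL, aL, bL⟩ := seg_data (L := L) (x0 := x0) (y0 := y0) (c0 := c0) (h := h) hh
      (a := 0) (n := (c0 : ℕ)) (by omega) (by omega) (Or.inl rfl) (Or.inl (by omega))
    obtain ⟨ExR, fR, sR, aR, bR⟩ := seg_data (L := L) (x0 := x0) (y0 := y0) (c0 := c0) (h := h) hh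
      (a := (c0 : ℕ) + 1) (n := N - 1 - (c0 : ℕ)) (by omega) (by omega) (Or.inr rfl) (Or.inr (by omega))
    have key : ∀ {a n : ℕ} {E : Finset (Fin n)} {f : Fin n → Fin n}, Side E f →
        (∀ (c : Fin N) (d : Fin n), (c : ℕ) = a + (d : ℕ) → d ∉ E → ∃ c' : Fin N,
          (c' : ℕ) = a + ((f d : Fin n) : ℕ) ∧ Rl L x0 y0 c0 h c c') →
        (∀ (c : Fin N) (d : Fin n), (c : ℕ) = a + (d : ℕ) → d ∈ E → ∀ c', ¬ Rl L x0 y0 c0 h c c') →
        ∀ d e : Fin n, (x : ℕ) = a + (d : ℕ) → (y : ℕ) = a + (e : ℕ) →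
        ∃ y', UP L x0 y0 c0 h y = some y' ∧ x < y' ∧ y' < x' := by
      intro a n E f sE aE bE d e hd he
      have hdE : d ∉ E := fun hh => bE x d hd hh x' hx
      obtain ⟨x'', k1, k2⟩ := aE x d hd hdE
      have e1 := k2.uniq hx
      subst e1
      have g1 : d < e := by
        rw [Fin.lt_def] at h1 ⊢; omega
      have g2 : e < f d := by
        rw [Fin.lt_def] at h2 ⊢; omega
      have heE : e ∉ E := fun hh => sE.ex d hdE e hh ⟨g1, g2⟩
      obtain ⟨y', m1, m2⟩ := aE y e he heE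
      have g3 := sE.nc d hdE e heE g1 g2
      rw [Fin.lt_def, Fin.lt_def] at g3
      exact ⟨y', UP_some.2 m2, by rw [Fin.lt_def]; omega, by rw [Fin.lt_def]; omega⟩
    rw [Fin.lt_def] at h1 h2
    rcases seg_cases x hxc with ⟨d, hd, hlt⟩ | ⟨d, hd, hlt⟩
    · have hx'0 := hs.1 hlt
      rw [Fin.lt_def] at hx'0
      exact key sL (fun c d hc hd => by
        obtain ⟨c', m1, m2, -⟩ := aL c d hc hd
        exact ⟨c', m1, m2⟩) (fun c d hc hd => (bL c d hc hd).1) d ⟨y, by omega⟩ hd (by simp)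
    · have hx2 := x'.2
      rw [Fin.lt_def] at hlt
      exact key sR (fun c d hc hd => by
        obtain ⟨c', m1, m2, -⟩ := aR c d hc hd
        exact ⟨c', m1, m2⟩) (fun c d hc hd => (bR c d hc hd).1) d ⟨(y : ℕ) - c0 - 1, by omega⟩ hd
        (by simp only; omega)

/-! ### The glued configuration -/

/-- matchings given by walks have the fields of `SideW` -/
theorem sideW_of {e : Bool} {In : ℤ × ℤ → Prop} {V : Fin N → Option (Fin N)}
    (hg : ∀ u, In u → Glt e L Lg u) (hs : ∀ u, In u → OnS y0 e u)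
    (sy : ∀ c c', V c = some c' → V c' = some c)
    (hV : ∀ c c' : Fin N, V c = some c' → ∃ n, WK L x0 y0 e In c n (zr0 x0 y0 e (c' : ℕ))) :
    SideW Lg (HG y0 e) (sc x0 y0) (fun c => xor e (rp x0 y0 c)) V where
  sy := sy
  ori c c' hc := by
    obtain ⟨n, hn⟩ := hV c c' hc
    simp only [WK.par hn, Bool.xor_not]
  path c c' hc ho := by
    obtain ⟨n, hn⟩ := hV c c' hc
    have hr : rp x0 y0 c = !e := by
      cases e <;> cases h1 : rp x0 y0 c <;> rw [h1] at ho <;> first | rfl | exact absurd ho (by decide)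
    obtain ⟨a1, a2⟩ := (hn.glued hg hs).1 hr
    exact ⟨n, a1, by rw [a2, gc_zr0]⟩
  pl c ho := by
    have hr : rp x0 y0 c = !e := by
      cases e <;> cases h1 : rp x0 y0 c <;> rw [h1] at ho <;> first | rfl | exact absurd ho (by decide)
    exact (seam_HG e c).1 hr
  la c ho := by
    have hr : rp x0 y0 c = e := by
      cases e <;> cases h1 : rp x0 y0 c <;> rw [h1] at ho <;> first | rfl | exact absurd ho (by decide)
    exact (seam_HG e c).2 hr

/-- distance of the corners -/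
lemma far_gc {c : Fin N} {M : ℤ} {z : (ℤ × ℤ) × Dir} (h1 : 1 ≤ M) (h2 : y0 + 1 ≤ z.1.2)
    (h3 : M + 1 ≤ |z.1.1 - (x0 + (c : ℕ))| ∨ M + 1 ≤ z.1.2 - y0) :
    FarC (sc x0 y0 c) M (gc true z) := by
  obtain ⟨⟨x, y⟩, d⟩ := z
  simp only at h2 h3
  have e1 : (sc x0 y0 c).1 = x0 + (c : ℕ) - y0 + 1 := by rw [sc_he]; rfl
  have e2 : (sc x0 y0 c).2 = x0 + (c : ℕ) + y0 + 1 := by rw [sc_he]; rfl
  unfold FarC gc
  rw [e1, e2]
  simp only [if_true]
  rw [le_abs, le_abs]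
  rw [le_abs] at h3
  cases d
  · have e3 : (uc ((x, y), Dir.W) + vg).1 = x - y + 1 := rfl
    have e4 : (uc ((x, y), Dir.W) + vg).2 = x + y + 1 + -1 := rfl
    rw [e3, e4]; omega
  · have e3 : (uc ((x, y), Dir.N) + vg).1 = x - (y + 1) + 1 + 1 := by rw [uc_N]; rfl
    have e4 : (uc ((x, y), Dir.N) + vg).2 = x + (y + 1) + 1 + -1 := by rw [uc_N]; rfl
    rw [e3, e4]; omega
  · have e3 : (uc ((x, y), Dir.E) + vg).1 = x + 1 - y + 1 := by rw [uc_E]; rfl
    have e4 : (uc ((x, y), Dir.E) + vg).2 = x + 1 + y + 1 + -1 := by rw [uc_E]; rfl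
    rw [e3, e4]; omega
  · have e3 : (uc ((x, y), Dir.S) + vg).1 = x - y + 1 + 1 := by rw [uc_S]; rfl
    have e4 : (uc ((x, y), Dir.S) + vg).2 = x + y + 1 + -1 := by rw [uc_S]; rfl
    rw [e3, e4]; omega

/-- **The columns without an arc reach the distance of `c0`, of the ends of the row and of the top.** -/
theorem UP_far (hh : 0 < h) (hg : ∀ u, InP x0 y0 c0 h u → Glt true L Lg u) {c : Fin N}
    (hU : UP L x0 y0 c0 h c = none) (hc : c ≠ c0) {M : ℤ} (h1 : 1 ≤ M)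
    (h2 : M + 1 ≤ |((c : ℕ) : ℤ) - (c0 : ℕ)|) (h3 : M ≤ (c : ℕ)) (h4 : M + 1 + (c : ℕ) ≤ N)
    (h5 : M ≤ h) : FarW Lg (HN y0) (sc x0 y0) (fun c => xor true (rp x0 y0 c)) c M := by
  obtain ⟨m, z', k1, k2, k3⟩ := far_zone hh hc hU
  have hs : ∀ u, InP x0 y0 c0 h u → OnS y0 true u := fun u hu => hu.2.1
  have hfar : FarC (sc x0 y0 c) M (gc true z') := by
    refine far_gc h1 k2 ?_
    rcases k3 with k3 | k3 | k3 | k3
    · left; rw [le_abs]; right; omega
    · left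
      rw [le_abs] at h2 ⊢
      omega
    · left; rw [le_abs]; left; omega
    · right; omega
  constructor
  · intro ho
    have hr : rp x0 y0 c = !true := by
      cases h1 : rp x0 y0 c
      · rfl
      · simp only [h1] at ho; exact absurd ho (by decide)
    obtain ⟨a1, a2⟩ := (k1.glued hg hs).1 hr
    exact ⟨m, a1, by rw [a2]; exact hfar⟩
  · intro ho
    have hr : rp x0 y0 c = true := by
      cases h1 : rp x0 y0 c
      · simp only [h1] at ho; exact absurd ho (by decide)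
      · rfl
    obtain ⟨a1, a2⟩ := (k1.glued hg hs).2 hr
    exact ⟨m, a1, by rw [a2]; exact hfar⟩

end Pool.Agent.H81.W
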