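import Mathlib
import Pool.Agent.H40.W.SPZ
import Pool.Agent.H56.W.StrM
import Pool.Agent.H81.W.PlnZ
import Pool.Agent.H81.W.PlZ
import Pool.Agent.H81.W.CoreZ

set_option autoImplicit false
set_option linter.unusedSectionVars false
open Finset

/-! # The row of the reduced net for a frozen environment with a string

`FZ` : the hypotheses on the frozen environment `X2` (the random labels are the row and the string), the
open labels `L`, the glued configuration `Lg`. `FZ.zrow` : the bound data `ZRow` of the row. -/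

namespace Pool.Agent.H81.W

open Pool.Agent.H75.Perc Pool.Agent.H75.TwoArm Pool.Agent.Q1 Pool.Agent.H81.G1
open Pool.Agent.H30.Mid
open Pool.Agent.H30.W
open Pool.Agent.H40.W
open Pool.Agent.H56.W (SP Spc Wi Flat sw V_sw flat_of_root str_elim Str RowN OvS Out)
open Pool.Agent.H69.M6b (lbt lbt_inj lbt_odd pr0 PR TD se Kp Bx' tt)
open Pool.Agent.Q1.M6b.Meander (dir dir_lt dir_gt)
open Pool.Agent.Q1.M6b.ExN

variable {N M : ℕ}

/-- position of the outer end of the string -/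
def zq (M : ℕ) (x0 y0 : ℤ) (c0 : Fin N) : (ℤ × ℤ) × Dir := ((x0 + (c0 : ℕ), y0 + M), .N)

/-- the root corner lies on the wire of the outer end of the string -/
def RootS (X2 : Env) (z : (ℤ × ℤ) × Dir) : Prop :=
  (ui z = true ∧ ∃ n, X2.out^[n] X2.c0 = uc z ∧ ∀ i < n, lab (X2.out^[i] X2.c0) ∉ X2.E) ∨
  (ui z = false ∧ ∃ n, X2.out^[n] (uc z) = X2.c0 ∧ ∀ i < n, lab (X2.out^[i] (uc z)) ∉ X2.E)

/-- **The frozen environment of a row with a string**: `X2` : its random labels are the row `(x0 + c, y0)`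
and the string `(x0 + c0, y0 + 1), …, (x0 + c0, y0 + M)`; `L` : the other open labels, `Lg` : the glued
configuration, `ct` : the target corner, `Wr` : the relation of the wires, `g` : bound of the number of
exceptional columns, `h` : height of the plain zone. -/
structure FZ (X2 : Env) (L Lg : Finset (ℤ × ℤ)) (M : ℕ) (c0 : Fin N) (x0 y0 : ℤ) (ct : ℤ × ℤ)
    (Wr : Bool → Fin N → Fin N → Prop) (g h : ℕ) where
  F : FrameZ L M c0 x0 y0
  out : OutL X2 L
  hE : X2.E = univ.image (lbE N x0 y0 (lsZ M x0 y0 c0))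
  root : RootS X2 (zq M x0 y0 c0)
  r0 : ∀ u, F.In u ∨ InP x0 y0 c0 h u → plab X2.c0 ≠ lbt u.1 u.2
  r1 : ∀ u, F.In u ∨ InP x0 y0 c0 h u → plab ct ≠ lbt u.1 u.2
  card : (F.u.Ex ∪ F.d.Ex).card ≤ g
  hpos : 0 < h
  gu : ∀ u, InP x0 y0 c0 h u → Glt true L Lg u
  gd : ∀ u, InD x0 y0 F.d.o F.d.w F.d.h u → Glt false L Lg u
  wU : ∀ c c' : Fin N, Wr true c c' → (c < c0 ↔ c' < c0) → c ≠ c0 →
    ∃ n, WK L x0 y0 true (InP x0 y0 c0 h) c n (zr0 x0 y0 true (c' : ℕ))
  wD : ∀ c c' : Fin N, Wr false c c' →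
    ∃ n, WK L x0 y0 false (InD x0 y0 F.d.o F.d.w F.d.h) c n (zr0 x0 y0 false (c' : ℕ))

/-! ### The root -/

section root
variable {ι : Type*} [Fintype ι] [DecidableEq ι]
variable {tc : ι → ℤ × ℤ} {lb : ι → ℤ × ℤ} {p : ι → Bool} {cr : ι × Dir → ℤ × ℤ} {X2 : Env}
  {Nw : Net ι} {n0 : ℕ}

/-- the end of the root wire -/
theorem root_of (T : PT tc lb p cr) (W : Wired X2 lb p cr Nw n0) {x : ι × Dir}
    (hR : RootS X2 (tc x.1, x.2)) : Nw.x0 = x ∨ Nw.π Nw.x0 = x := by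
  obtain ⟨r1, r2⟩ := W.root
  have hx0 := mem_cr W.tiles W.good.x0_in
  rcases hR with ⟨h1, n, h2, h3⟩ | ⟨h1, n, h2, h3⟩
  · left
    rw [← T.inc] at h1
    rw [← T.ecr] at h2
    have hn : n0 = n := first_hit (f := X2.out) (P := fun c => lab c ∈ X2.E) (c := X2.c0) r1
      (by rw [← r2]; exact hx0) h3 (by rw [h2]; exact mem_cr W.tiles h1)
    subst hn
    exact cr_inj W.tiles W.good.x0_in h1 (by rw [r2, h2])
  · right
    rw [← T.inc] at h1
    rw [← T.ecr] at h2 h3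
    obtain ⟨m, w1, w2, -⟩ := W.wire x h1
    have hπ : inc p (Nw.π x) = true := by rw [W.good.ty, h1]; rfl
    have hn : m = n + n0 := first_hit (f := X2.out) (P := fun c => lab c ∈ X2.E) (c := cr x) w1
      (by rw [← w2]; exact mem_cr W.tiles hπ) (by
        intro i hi
        rcases Nat.lt_or_ge i n with h4 | h4
        · exact h3 i h4
        · obtain ⟨j, rfl⟩ : ∃ j, i = n + j := ⟨i - n, by omega⟩
          rw [Nat.add_comm, Function.iterate_add_apply, h2]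
          exact r1 j (by omega)) (by
        rw [Nat.add_comm, Function.iterate_add_apply, h2, ← r2]
        exact hx0)
    have e : Nw.π x = Nw.x0 := by
      apply cr_inj W.tiles hπ W.good.x0_in
      rw [w2, hn, r2, Nat.add_comm, Function.iterate_add_apply, h2]
    rw [← e, W.good.inv]

lemma outR_sub {In In' : ℤ × ℤ → Prop} {ct : ℤ × ℤ} {n1 : ℕ} (R : OutR X2 cr Nw In ct n1)
    (h : ∀ u, In' u → In u) : OutR X2 cr Nw In' ct n1 :=
  ⟨fun u hu => R.root u (h u hu), fun u hu => R.tgt u (h u hu), R.mark, R.eq⟩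

end root

/-! ### The string -/

/-- tiles of the string, then the column `c0` -/
def qZ (N M : ℕ) (c0 : Fin N) (i : ℕ) : Fin N ⊕ Fin M :=
  if h : i < M then Sum.inr ⟨i, h⟩ else Sum.inl c0

section str
variable {c0 : Fin N}

lemma qZ_lt {i : ℕ} (h : i < M) : qZ N M c0 i = Sum.inr ⟨i, h⟩ := by unfold qZ; rw [dif_pos h]

lemma qZ_ge {i : ℕ} (h : M ≤ i) : qZ N M c0 i = Sum.inl c0 := by
  unfold qZ; rw [dif_neg (by omega)]

lemma stZ_iff (k : Fin N ⊕ Fin M) : StZ k ↔ ∃ i < M, k = qZ N M c0 i := by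
  constructor
  · rintro ⟨i, rfl⟩
    exact ⟨i, i.2, by rw [qZ_lt i.2]⟩
  · rintro ⟨i, hi, rfl⟩
    exact ⟨⟨i, hi⟩, qZ_lt hi⟩

lemma tc_qZ (x0 y0 : ℤ) : tcZ N M x0 y0 c0 (qZ N M c0 0) = (x0 + (c0 : ℕ), y0 + M) := by
  rcases Nat.eq_zero_or_pos M with h | h
  · subst h
    rw [qZ_ge le_rfl]
    unfold tcZ
    simp
  · rw [qZ_lt h]
    unfold tcZ
    simp

end str

/-! ### The network -/

section net
variable {L : Finset (ℤ × ℤ)} {c0 : Fin N} {x0 y0 : ℤ} {F : FrameZ L M c0 x0 y0}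
variable {X2 : Env} {Nw : Net (Fin N ⊕ Fin M)} {n0 : ℕ} {ct : ℤ × ℤ} {n1 : ℕ}
variable (W : Wired X2 (lbE N x0 y0 (lsZ M x0 y0 c0)) (gp (lbE N x0 y0 (lsZ M x0 y0 c0)))
    (gcr (lbE N x0 y0 (lsZ M x0 y0 c0))) Nw n0) (ho : OutL X2 L)
  (hE : X2.E = univ.image (lbE N x0 y0 (lsZ M x0 y0 c0)))
  (R : OutR X2 (gcr (lbE N x0 y0 (lsZ M x0 y0 c0))) Nw F.In ct n1)

include W ho R

/-- the wires of the string -/
lemma chain_q {i : ℕ} (hi : i < M) : Nw.π (qZ N M c0 i, .S) = (qZ N M c0 (i + 1), .N) ∧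
    NSp Nw (qZ N M c0 i, .S) := by
  rcases Nat.lt_or_ge (i + 1) M with h | h
  · obtain ⟨⟨h1, -, h2⟩, -⟩ := FrameZ.str W ho R (i := ⟨i, hi⟩) (i' := ⟨i + 1, h⟩) rfl
    rw [qZ_lt hi, qZ_lt h]
    exact ⟨h1, h2⟩
  · obtain ⟨⟨h1, -, h2⟩, -⟩ := FrameZ.str_last W ho R (i := ⟨i, hi⟩) (by simp only; omega)
    rw [qZ_lt hi, qZ_ge h]
    exact ⟨h1, h2⟩

/-- the network is connected -/
theorem conn (hr : Nw.x0 = (qZ N M c0 0, .N) ∨ Nw.π Nw.x0 = (qZ N M c0 0, .N)) : Nw.Connected := by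
  intro A h0 hπ ht
  have hq0 : (qZ N M c0 0, Dir.N) ∈ A := by
    rcases hr with h | h
    · rw [← h]; exact h0
    · rw [← h]; exact hπ _ h0
  have hq : ∀ i ≤ M, ∀ d, (qZ N M c0 i, d) ∈ A := by
    intro i
    induction i with
    | zero => intro _ d; exact ht _ hq0 d
    | succ i ih =>
      intro hi d
      have h1 := hπ _ (ih (by omega) .S)
      rw [(chain_q W ho R (by omega : i < M)).1] at h1
      exact ht _ h1 d
  have hc0 : ∀ d, ((Sum.inl c0 : Fin N ⊕ Fin M), d) ∈ A := by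
    intro d
    have := hq M le_rfl d
    rwa [qZ_ge le_rfl] at this
  have up : ∀ n : ℕ, ∀ h : (c0 : ℕ) + n < N, ∀ d,
      ((Sum.inl ⟨(c0 : ℕ) + n, h⟩ : Fin N ⊕ Fin M), d) ∈ A := by
    intro n
    induction n with
    | zero => intro h d; exact hc0 d
    | succ n ih =>
      intro h d
      have h2 := hπ _ (ih (by omega) .E)
      rw [(FrameZ.row W ho R (c := ⟨(c0 : ℕ) + n, by omega⟩) (c' := ⟨(c0 : ℕ) + (n + 1), h⟩)
        rfl).1.1] at h2
      exact ht _ h2 d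
  have dn : ∀ n : ℕ, ∀ c : Fin N, (c : ℕ) + n = c0 → ∀ d, ((Sum.inl c : Fin N ⊕ Fin M), d) ∈ A := by
    intro n
    induction n with
    | zero =>
      intro c hc d
      have : c = c0 := Fin.ext (by omega)
      rw [this]; exact hc0 d
    | succ n ih =>
      intro c hc d
      have hlt : (c : ℕ) + 1 < N := by have := c0.2; omega
      have h2 := hπ _ (ih ⟨(c : ℕ) + 1, hlt⟩ (by simp only; omega) .W)
      rw [(FrameZ.row W ho R (c := c) (c' := ⟨(c : ℕ) + 1, hlt⟩) rfl).2.1] at h2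
      exact ht _ h2 d
  rintro ⟨k, d⟩
  rcases k with c | i
  · rcases Nat.lt_or_ge (c : ℕ) c0 with h | h
    · exact dn ((c0 : ℕ) - c) c (by omega) d
    · have h1 := up ((c : ℕ) - c0) (by have := c.2; omega) d
      have e : (⟨(c0 : ℕ) + ((c : ℕ) - c0), by have := c.2; omega⟩ : Fin N) = c :=
        Fin.ext (by simp only; omega)
      rw [e] at h1
      exact h1
  · have h1 := hq i i.2.le d
    rw [qZ_lt i.2] at h1
    exact h1

/-- a net with the wires of `Nw` and the root at the outer end of the string -/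
structure Rt (Nw X : Net (Fin N ⊕ Fin M)) (c0 : Fin N) : Prop where
  π : X.π = Nw.π
  t : X.t = Nw.t
  x0 : X.x0 = (qZ N M c0 0, .N)
  y0 : X.y0 = Nw.y0
  xx : X.x0 = Nw.x0 ∨ X.x0 = Nw.π Nw.x0
  V : ∀ a b, X.V a b = Nw.V a b
  fl : Flat X

omit R in
lemma exists_rt (hc : Nw.Connected)
    (hr : Nw.x0 = (qZ N M c0 0, .N) ∨ Nw.π Nw.x0 = (qZ N M c0 0, .N)) : ∃ X, Rt Nw X c0 := by
  obtain ⟨f1, f2⟩ := flat_of_root W.good hc X2.T (root_turn W)
  rcases hr with h | h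
  · exact ⟨Nw, rfl, rfl, h, rfl, Or.inl rfl, fun _ _ => rfl, f1⟩
  · exact ⟨sw Nw, rfl, rfl, h, rfl, Or.inr rfl, fun a b => V_sw W.good.inv a b, f2⟩

section
variable {X : Net (Fin N ⊕ Fin M)}

omit ho R in
lemma Rt.spc (h : Rt Nw X c0) (x : (Fin N ⊕ Fin M) × Dir) : Spc X x ↔ Spc Nw x := by
  have hinv := W.good.inv
  unfold Spc
  rw [h.π, h.y0]
  rcases h.xx with e | e
  · rw [e]
  · rw [e, hinv]
    tauto

omit ho R in
/-- the straight paths do not depend on the choice of the root end -/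
lemma Rt.sp (h : Rt Nw X c0) {Q : Fin N ⊕ Fin M → Prop} {x y : (Fin N ⊕ Fin M) × Dir} {t : ℤ}
    (hs : SP Nw Q x y t) : SP X Q x y t := by
  induction hs with
  | base h1 h2 =>
    rw [← h.π, ← h.t]
    rw [← h.π] at h1
    exact SP.base h1 (fun hh => h2 ((h.spc W _).1 hh))
  | west h1 h2 h3 h4 ih =>
    rw [← h.π] at h1
    rw [← h.t]
    exact SP.west h1 h2 (fun hh => h3 ((h.spc W _).1 hh)) ih
  | east h1 h2 h3 h4 ih =>
    rw [← h.π] at h1
    rw [← h.t]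
    exact SP.east h1 h2 (fun hh => h3 ((h.spc W _).1 hh)) ih

/-- **The string of the network.** -/
theorem Rt.str (h : Rt Nw X c0) : Str X M (qZ N M c0) Sum.inl c0 where
  wi := ⟨fun x => by rw [h.π]; exact W.good.inv x, fun x => by rw [h.π]; exact W.good.ne x,
    fun x => by rw [h.π, h.t]; exact W.good.t_neg x⟩
  qi i hi i' hi' e := by
    rw [qZ_lt hi, qZ_lt hi'] at e
    have := Sum.inr.inj e
    exact congrArg Fin.val this
  ji := Sum.inl_injective
  dis i hi k := by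
    rw [qZ_lt hi]
    exact Sum.inr_ne_inl
  all k := by
    rcases k with c | i
    · exact Or.inr ⟨c, rfl⟩
    · exact Or.inl ⟨i, i.2, (qZ_lt i.2).symm⟩
  root := by
    rw [h.x0]
    split_ifs with hM
    · rw [qZ_ge (by omega)]
    · rfl
  chain i hi := by
    rw [h.π, (chain_q W ho R hi).1]
    split_ifs with h1
    · rfl
    · rw [qZ_ge (by omega)]
  y1 := by
    rw [h.y0]
    rcases h.xx with e | e
    · rw [e]; exact W.good.y0_ne
    · rw [e]
      intro hh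
      have h1 := W.good.y0_in
      have h2 := W.good.ty Nw.x0
      rw [← hh, h1, W.good.x0_in] at h2
      cases h2
  y2 := by
    rw [h.y0, h.π]
    rcases h.xx with e | e
    · rw [e]
      intro hh
      have h1 := W.good.y0_in
      have h2 := W.good.ty Nw.x0
      rw [← hh, h1, W.good.x0_in] at h2
      cases h2
    · rw [e, W.good.inv]; exact W.good.y0_ne
  y3 i hi := by
    rw [h.y0, h.π]
    have h1 := (chain_q W ho R hi).2
    refine ⟨fun hh => h1.2.2.1 hh.symm, fun hh => h1.2.2.2 ?_⟩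
    rw [hh, W.good.inv]

include hE

/-- **The reduced net of the row.** -/
theorem rmz (h : Rt Nw X c0) {X' : Net (Fin N)} (H : RowN X M (qZ N M c0) Sum.inl c0 X') :
    RMZ X' c0 F.u.Ex F.d.Ex F.u.U F.d.D := by
  have hQ : (StZ : Fin N ⊕ Fin M → Prop) = fun k => ∃ i < M, k = qZ N M c0 i := by
    funext k
    exact propext (stZ_iff k)
  have key : ∀ {x y : Fin N × Dir} {t : ℤ}, SP Nw StZ (Sum.inl x.1, x.2) (Sum.inl y.1, y.2) t →
      X'.π x = y ∧ X'.t x = t ∧ ¬ Sp X' x := by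
    intro x y t hs
    have h1 := h.sp W hs
    rw [hQ] at h1
    exact H.path x y t h1
  refine ⟨H.wi.inv, H.wi.ne, H.wi.tn, H.x0, ?_, F.u.side, F.d.side, ?_, ?_⟩
  · intro c c' hc
    exact key (x := (c, .E)) (y := (c', .W)) (FrameZ.row_SP W ho R hc).1
  · intro c hc
    obtain ⟨h1, h2, h3⟩ := key (x := (c, .N)) (y := (F.u.U c, .N)) (FrameZ.up_SP W ho hE R hc)
    refine ⟨h1, ?_, h3⟩
    rw [h2]
    unfold th0
    split_ifs <;> ring
  · intro c hc
    exact key (x := (c, .S)) (y := (F.d.D c, .S)) (FrameZ.dn_SP W ho hE R hc)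

/-- the arcs of the plain zone in the reduced net -/
theorem arcs (h : Rt Nw X c0) {X' : Net (Fin N)} (H : RowN X M (qZ N M c0) Sum.inl c0 X') {hh : ℕ}
    (h0 : 0 < hh) (R' : OutR X2 (gcr (lbE N x0 y0 (lsZ M x0 y0 c0))) Nw
      (fun u => F.In u ∨ InP x0 y0 c0 hh u) ct n1) {c c' : Fin N}
    (hc : UP L x0 y0 c0 hh c = some c') : X'.π (c, .N) = (c', .N) ∧ X'.t (c, .N) = -2 * dir c c' ∧
      ¬ Sp X' (c, .N) := by
  have hQ : (StZ : Fin N ⊕ Fin M → Prop) = fun k => ∃ i < M, k = qZ N M c0 i := by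
    funext k
    exact propext (stZ_iff k)
  obtain ⟨-, -, -, n, h1, h2, h3⟩ := (UP_some.1 hc).arc h0
  have T := ptZ N M x0 y0 c0
  have ez : UW (tcZ N M x0 y0 c0 (Sum.inl c), Dir.N) = z0 x0 y0 true (c : ℕ) := by
    unfold tcZ UW z0
    simp
  have ez' : (tcZ N M x0 y0 c0 (Sum.inl c'), Dir.N) = zr0 x0 y0 true (c' : ℕ) := by
    unfold tcZ zr0
    simp
  have hlab : ∀ i < n, lbt ((uf L)^[i] (UW (tcZ N M x0 y0 c0 (Sum.inl c), Dir.N))).1.1
      ((uf L)^[i] (UW (tcZ N M x0 y0 c0 (Sum.inl c), Dir.N))).1.2 ∉ X2.E := by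
    intro i hi
    rw [ez]
    have h4 : InP x0 y0 c0 hh ((uf L)^[i] (z0 x0 y0 true (c : ℕ))).1 := h2 i hi
    exact FrameZ.not_image hE (by have := h4.2.1; omega) (Or.inl h4.1.2.2)
  have htgt : (uf L)^[n] (UW (tcZ N M x0 y0 c0 (Sum.inl c), Dir.N)) =
      (tcZ N M x0 y0 c0 (Sum.inl c'), Dir.N) := by
    rw [ez, ez', h1]
  obtain ⟨b1, b2⟩ := wire_pos T W ho (x := (Sum.inl c, Dir.N)) (x' := (Sum.inl c', Dir.N)) htgt hlab
  have b3 : Nw.t (Sum.inl c, Dir.N) = -2 * dir c c' := by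
    rw [b2, h3]
    refine sum_congr rfl fun i _ => ?_
    show ud L ((uf L)^[i] (UW (tcZ N M x0 y0 c0 (Sum.inl c), Dir.N))) = _
    rw [ez]
  have hns : NSp Nw (Sum.inl c, Dir.N) := by
    refine R'.ne T W ho (x' := (Sum.inl c', Dir.N)) (n := n) ⟨htgt, Or.inl (F.In_tc _),
      Or.inl (F.In_tc _), fun i hi => ⟨Or.inr ?_, hlab i hi⟩⟩
    show InP x0 y0 c0 hh ((uf L)^[i] (UW (tcZ N M x0 y0 c0 (Sum.inl c), Dir.N))).1
    rw [ez]
    exact h2 i hi
  have hs := SP.base (X := Nw) (Q := StZ) (x := (Sum.inl c, Dir.N)) (by rw [b1]; exact not_StZ _)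
    hns.spc
  rw [b1, b3] at hs
  have h5 := h.sp W hs
  rw [hQ] at h5
  exact H.path (c, .N) (c', .N) _ h5

end

end net

/-! ### The theorem -/

section main

variable {X : Env} {L Lg : Finset (ℤ × ℤ)} {c0 : Fin N} {x0 y0 : ℤ} {ct : ℤ × ℤ}
  {Wr : Bool → Fin N → Fin N → Prop} {g h : ℕ} {ω : Finset (ℤ × ℤ)} {S : Finset (Fin N)} {r : ℝ}

/-- **The row of the reduced net.** -/
theorem FZ.zrow (hF : Fam X (lbE N x0 y0 (lsZ M x0 y0 c0)))
    (Z : FZ (X.freeze (univ.image (lbE N x0 y0 (lsZ M x0 y0 c0))) ω) L Lg M c0 x0 y0 ct Wr g h)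
    (hS : c0 ∈ S) (h0 : 0 < r)
    (hr : r ≤ ‖AG X (lbE N x0 y0 (lsZ M x0 y0 c0)) ct (eA S (zt ^ (4 : ℤ)) (fun _ => zt ^ (4 : ℤ)))
      (eB S (zt ^ (-4 : ℤ)) (fun _ => zt ^ (-4 : ℤ))) ω‖) : Nonempty (ZRow x0 y0 c0 Lg Wr g h S r) := by
  classical
  set lb := lbE N x0 y0 (lsZ M x0 y0 c0) with hlb
  set a : Fin N ⊕ Fin M → ℂ := eA S (zt ^ (4 : ℤ)) (fun _ => zt ^ (4 : ℤ)) with ha
  set b : Fin N ⊕ Fin M → ℂ := eB S (zt ^ (-4 : ℤ)) (fun _ => zt ^ (-4 : ℤ)) with hb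
  have hcoup : a (Sum.inl c0) + b (Sum.inl c0) = 0 := by
    rw [ha, hb]
    unfold eA eB
    simp only [Sum.elim_inl]
    unfold cA cB
    rw [if_pos hS, if_pos hS]
    ring
  rcases AG_net hF ct ω (a := a) (b := b) ⟨_, hcoup⟩ with h1 | ⟨hm, y, hy, hne, ⟨n1, n2, n3, -⟩, h1⟩
  · rw [h1, norm_zero] at hr
    linarith
  set X2 := X.freeze (univ.image lb) ω with hX2
  have W : Wired X2 lb (gp lb) (gcr lb) (net (hF.tiles ω) hm y) (rn0 X2) := net_wired (hF.tiles ω) hm hy hne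
  set Nw := net (hF.tiles ω) hm y with hNw
  have ho := Z.out
  have hE := Z.hE
  have R' : OutR X2 (gcr lb) Nw (fun u => Z.F.In u ∨ InP x0 y0 c0 h u) ct n1 :=
    ⟨Z.r0, Z.r1, fun i hi => by rw [hE]; exact n2 i hi, n3.symm⟩
  have R : OutR X2 (gcr lb) Nw Z.F.In ct n1 := outR_sub R' fun u hu => Or.inl hu
  have hroot : Nw.x0 = (qZ N M c0 0, .N) ∨ Nw.π Nw.x0 = (qZ N M c0 0, .N) := by
    refine root_of (ptZ N M x0 y0 c0) W (x := (qZ N M c0 0, .N)) ?_
    show RootS X2 (tcZ N M x0 y0 c0 (qZ N M c0 0), .N)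
    rw [tc_qZ]
    exact Z.root
  have hconn := conn W ho R hroot
  obtain ⟨Xr, hXr⟩ := exists_rt W ho hconn hroot
  have hZV : ‖Nw.Z a b‖ = ‖Nw.V a b‖ := by
    have h2 := congrArg norm (vertex_eq' W.good hconn a b X2.T (root_turn W))
    rw [norm_mul, norm_mul, norm_zpow, norm_zpow, zt_norm, one_zpow, one_zpow, one_mul, one_mul] at h2
    exact h2
  have hOv : OvS M (qZ N M c0) a b := by
    intro i hi
    rw [qZ_lt hi]
    exact ⟨rfl, rfl⟩
  rcases str_elim M _ Xr (qZ N M c0) Sum.inl c0 (hXr.str W ho R) hXr.fl with h2 | ⟨X', H⟩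
  · exfalso
    have h3 := h2 a b hOv
    rw [prod_eq_zero (mem_univ c0) (by rw [hcoup, norm_zero])] at h3
    rw [h1, hZV, ← hXr.V] at hr
    linarith
  have hV : r ≤ ‖X'.V (cA S (zt ^ (4 : ℤ))) (cB S (zt ^ (-4 : ℤ)))‖ := by
    rw [h1, hZV, ← hXr.V, H.V a b hOv] at hr
    exact hr
  have hRM := rmz W ho hE R hXr H
  have hA : ∀ {c c' : Fin N}, UP L x0 y0 c0 h c = some c' → X'.π (c, .N) = (c', .N) ∧
      X'.t (c, .N) = -2 * dir c c' ∧ ¬ Sp X' (c, .N) := fun hc =>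
    arcs W ho hE R hXr H Z.hpos R' hc
  have hDw : ∀ {c : Fin N}, c ∉ Z.F.d.Ex → ∃ n, WK L x0 y0 false
      (InD x0 y0 Z.F.d.o Z.F.d.w Z.F.d.h) c n (zr0 x0 y0 false ((Z.F.d.D c : Fin N) : ℕ)) := by
    intro c hc
    obtain ⟨n, k1, k2, -⟩ := Z.F.d.path hc
    exact ⟨n, k1, k2⟩
  exact ⟨{
    X := X'
    U := UP L x0 y0 c0 h
    D := opt Z.F.d.Ex Z.F.d.D
    G := Z.F.u.Ex ∪ Z.F.d.Ex
    oU := fun c => xor true (rp x0 y0 c)
    oD := fun c => xor false (rp x0 y0 c)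
    card := Z.card
    rm := {
      inv := hRM.inv
      ne := hRM.ne
      tn := hRM.tn
      row := fun c c' hc => (hRM.row c c' hc).1
      tE := fun c hc => (hRM.row c ⟨c + 1, hc⟩ rfl).2.1
      pU := UP_pm Z.hpos
      pD := side_pm Z.F.d.side
      up := fun c c' hc => ⟨(hA hc).1, (hA hc).2.1⟩
      dn := fun c c' hc => by
        obtain ⟨h3, rfl⟩ := opt_some.1 hc
        exact ⟨(hRM.dn c h3).1, (hRM.dn c h3).2.1⟩ }
    mE := fun c hc => by
      by_contra hh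
      have hlt : (c : ℕ) + 1 < N := by have := c.2; omega
      exact (hRM.row c ⟨c + 1, hlt⟩ rfl).2.2 hc
    mN := fun c hc => by
      cases hU : UP L x0 y0 c0 h c with
      | none => rfl
      | some c' => exact absurd hc (hA hU).2.2
    mS := fun c hc => by
      rw [opt_none]
      by_contra hh
      exact (hRM.dn c hh).2.2 hc
    gD := fun c hc => mem_union_right _ (opt_none.1 hc)
    wU := by
      refine sideW_of (e := true) (In := InP x0 y0 c0 h) Z.gu (fun u hu => hu.2.1) (UP_pm Z.hpos).sy ?_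
      intro c c' hc
      exact UP_some.1 hc
    wD := by
      refine sideW_of (e := false) (In := InD x0 y0 Z.F.d.o Z.F.d.w Z.F.d.h) Z.gd
        (fun u hu => hu.2.2) (side_pm Z.F.d.side).sy ?_
      intro c c' hc
      obtain ⟨h3, rfl⟩ := opt_some.1 hc
      exact hDw h3
    far := fun c _ hU hc k k1 k2 k3 k4 k5 => UP_far Z.hpos Z.gu hU hc k1 k2 k3 k4 k5
    up := fun c c' hW hc hs => by
      have hcc : c ≠ c0 := fun hh => hc (mem_union_left _ (hh ▸ Z.F.u.side.zero))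
      exact UP_some.2 (Z.wU c c' hW hs hcc)
    dn := fun c c' hW hc => by
      have hcD : c ∉ Z.F.d.Ex := fun hh => hc (mem_union_right _ hh)
      obtain ⟨n, hn⟩ := Z.wD c c' hW
      obtain ⟨m, hm'⟩ := hDw hcD
      have hout : ∀ c : ℕ, ¬ InD x0 y0 Z.F.d.o Z.F.d.w Z.F.d.h (zr0 x0 y0 false c).1 := by
        intro c
        unfold InD zr0
        simp
      exact opt_some.2 ⟨hcD, zr0_inj (wk_uniq hm' hn (hout _) (hout _))⟩
    bd := fun LN LS m Ex hR _ _ => hV.trans (hRM.V_bound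
      (subset_union_left.trans subset_union_right) (subset_union_right.trans subset_union_right)
      hR (fun c hc => by
        unfold cA cB
        by_cases hcS : c ∈ S
        · rw [if_pos hcS, if_pos hcS]; exact Or.inl ⟨rfl, rfl⟩
        · rw [if_neg hcS, if_neg hcS]; exact Or.inr ⟨rfl, rfl⟩)) }⟩

end main

end Pool.Agent.H81.W
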