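import Mathlib
import Pool.Agent.H30.W.Slit
import Pool.Agent.H83.W.TGE

set_option autoImplicit false
set_option linter.unusedSectionVars false
open Finset

/-! # The colours around a row with a string in a window

`ExtL S L` : the fixed tiles around the window have their colours in `L`, except the tile `(xs, w)`.
`Jmp D J` : the walls of the floor are at the columns `J`. `exists_halfD_exc` : the rectangle below a row with
the number of its exceptional columns. The lemmas `r_..` : the colours of the rings of the rectangle below the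
row and of the n-shaped region above it. -/

namespace Pool.Agent.H81.W

open Pool.Agent.H75.Perc Pool.Agent.H75.TwoArm Pool.Agent.Q1 Pool.Agent.H81.G1
open Pool.Agent.H30.Mid
open Pool.Agent.H30.W
open Pool.Agent.H40.W
open Pool.Agent.H69.M6b (lbt lbt_inj lbt_odd)
open Pool.Agent.H54.W Pool.Agent.H54.W.HWin
open Pool.Agent.H76.W (OutH outCol outLft outRgt)

/-! ### The rectangle below a row -/

/-- **The rectangle below a row**, with the number of the exceptional columns. -/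
theorem exists_halfD_exc {N : ℕ} {L : Finset (ℤ × ℤ)} {x0 y0 : ℤ} {o W HD : ℕ} (hN : 0 < N)
    (hoN : o + N ≤ W) (hHD : 0 < HD) {CDL CDR CDT CDB : Finset ℤ}
    (hDL : ∀ y, y0 - HD ≤ y → y + 1 < y0 → y ∉ CDL →
      (lbt (x0 - o) y ∈ L ↔ lbt (x0 - o) (y + 1) ∈ L))
    (hDR : ∀ y, y0 - HD ≤ y → y + 1 < y0 → y ∉ CDR →
      (lbt (x0 - o + W - 1) y ∈ L ↔ lbt (x0 - o + W - 1) (y + 1) ∈ L))
    (hDB : ∀ x, x0 - o ≤ x → x + 1 < x0 - o + W → x ∉ CDB →
      (lbt x (y0 - HD) ∈ L ↔ lbt (x + 1) (y0 - HD) ∈ L))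
    (hDT : ∀ x, x0 - o ≤ x → x + 1 < x0 - o + W → x ∉ CDT → (x + 1 < x0 ∨ x0 + N ≤ x) →
      (lbt x (y0 - 1) ∈ L ↔ lbt (x + 1) (y0 - 1) ∈ L)) :
    ∃ F : HalfD L N x0 y0, F.o = o ∧ F.w = W ∧ F.h = HD ∧
      F.Ex.card ≤ 2 * (CDL.card + CDB.card + CDR.card + CDT.card) + 10 := by
  have hW : 0 < W := by omega
  obtain ⟨M', hM'⟩ := rectTD L (x0 - o) (y0 - HD) (w := W) (h := HD) hW hHD
  refine ⟨⟨o, W, HD, hoN, hHD, M', hM'⟩, rfl, rfl, rfl, ?_⟩
  have h1 := Pool.Agent.H30.Sp.exc_ring (N := N) (p0 := 2 * (HD + W) - 1 - o) (up := false) hW hHD hM'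
    (fun h => by omega)
    (fun c => by unfold prt; have := c.2; simp only [Bool.false_eq_true, if_false]; omega)
    (Pool.Agent.H30.Sp.chp (x0 - o) (y0 - HD) W HD CDL CDB CDR CDT)
    (Pool.Agent.H30.Sp.ring_col hW (by assumption) ?_ ?_ ?_ ?_)
  · refine h1.trans ?_
    have := Pool.Agent.H30.Sp.card_chp (xa := x0 - o) (yb := y0 - HD) (w := W) (h := HD) (CL := CDL)
      (CB := CDB) (CR := CDR) (CT := CDT)
    omega
  · exact fun y a1 a2 a3 => hDL y (by omega) (by omega) a3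
  · exact fun y a1 a2 a3 => hDR y (by omega) (by omega) a3
  · exact fun x a1 a2 a3 _ _ => hDB x a1 a2 a3
  · intro x a1 a2 a3 a4 a5
    have h7 := hDT x a1 a2 a3 ?_
    · rwa [show y0 - (HD : ℤ) + HD - 1 = y0 - 1 by ring]
    by_contra h5
    rcases lt_or_ge x x0 with h6 | h6
    · have := a5 ⟨(x + 1 - x0).toNat, by omega⟩
      unfold prt at this
      simp only [Bool.false_eq_true, if_false] at this
      omega
    · have := a4 ⟨(x - x0).toNat, by omega⟩
      unfold prt at this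
      simp only [Bool.false_eq_true, if_false] at this
      omega

/-! ### The colours around the window -/

variable {D : HWin} (S : Slit D) {L : Finset (ℤ × ℤ)} {J : Finset ℤ} {x y : ℤ}

/-- the fixed tiles around the window have their colours -/
def ExtL (S : Slit D) (L : Finset (ℤ × ℤ)) : Prop :=
  ∀ x y c, OutH D S.τ x y c → ¬ S.Xt x y → (lbt x y ∈ L ↔ c = true)

/-- the walls of the floor -/
def Jmp (D : HWin) (J : Finset ℤ) : Prop := ∀ x, D.p ≤ x → x + 1 < D.q → D.a x ≠ D.a (x + 1) → x ∈ J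

section
variable {S}

lemma r_lo (h1 : D.p ≤ x) (h2 : x < D.q) : D.lo ≤ S.τ x := (D.hlo x h1 h2).trans (S.pos.lo x h1 h2)

lemma r_p : D.p < D.q := by have := D.hh; omega

lemma r_lo_y0 : D.lo + 1 ≤ S.y0 := by
  have h1 := S.s1
  have h2 := S.s2
  have h3 := S.p_le
  have h4 := S.le_q
  have h5 := S.fl S.x1 le_rfl (by omega)
  have h6 := D.hlo S.x1 h3 (by omega)
  have h7 := S.r2
  omega

/-- the left column of the box -/
lemma r_lft (hL : ExtL S L) (h1 : D.lo ≤ y + 2) (h2 : y ≤ D.w) :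
    lbt (D.p - 2) y ∈ L ↔ D.cL = true := by
  have hs := S.s1
  have hp := S.p_le
  exact hL _ _ _ (outLft (by omega) (by omega) h1 h2 (fun h => by omega)
    (S.pos.hi D.p le_rfl r_p)) (fun h => by have := h.2.1; omega)

/-- the right column of the box -/
lemma r_rgt (hL : ExtL S L) (h1 : D.lo ≤ y + 2) (h2 : y ≤ D.w) :
    lbt (D.q + 1) y ∈ L ↔ D.cR = true := by
  have hs := S.s2
  have hp := S.le_q
  have hh := D.hh
  exact hL _ _ _ (outRgt (by omega) (by omega) h1 h2 (fun h => by omega)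
    (S.pos.hi (D.q - 1) (by omega) (by omega))) (fun h => by have := h.2.1; omega)

/-- the bottom row of the box -/
lemma r_bot_in (hL : ExtL S L) (h1 : D.p ≤ x) (h2 : x < D.q) :
    lbt x (D.lo - 2) ∈ L ↔ D.c x = true := by
  have hl := D.hlo x h1 h2
  refine hL _ _ _ (outCol S.pos h1 h2 (by omega) (by omega) (fun h3 _ => ?_) (fun h3 _ => ?_))
    (fun h => ?_)
  · have := r_lo (S := S) (x := x + 1) (by omega) h3
    omega
  · have := r_lo (S := S) (x := x - 1) (by omega) (by omega)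
    omega
  · have := D.aw x h1 h2
    have := h.2.2
    omega

lemma r_bot_l (hL : ExtL S L) (h1 : D.p ≤ x + 2) (h2 : x < D.p) :
    lbt x (D.lo - 2) ∈ L ↔ D.cL = true := by
  have hs := S.s1
  have hp := S.p_le
  have hl := r_lo (S := S) le_rfl r_p
  have hw := S.pos.hi D.p le_rfl r_p
  exact hL _ _ _ (outLft h1 h2 (by omega) (by omega) (fun h => by omega) hw)
    (fun h => by have := h.2.1; omega)

lemma r_bot_r (hL : ExtL S L) (h1 : D.q ≤ x) (h2 : x ≤ D.q + 1) :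
    lbt x (D.lo - 2) ∈ L ↔ D.cR = true := by
  have hs := S.s2
  have hp := S.le_q
  have hh := D.hh
  have hl := r_lo (S := S) (x := D.q - 1) (by omega) (by omega)
  have hw := S.pos.hi (D.q - 1) (by omega) (by omega)
  exact hL _ _ _ (outRgt h1 h2 (by omega) (by omega) (fun h => by omega) hw)
    (fun h => by have := h.2.1; omega)

/-- neighbours in the bottom row -/
lemma r_bot (hL : ExtL S L) (hJ : Jmp D J) (h1 : D.p - 2 ≤ x) (h2 : x + 1 ≤ D.q + 1)
    (h3 : x ∉ J ∪ {D.p - 1, D.q - 1}) :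
    lbt x (D.lo - 2) ∈ L ↔ lbt (x + 1) (D.lo - 2) ∈ L := by
  simp only [mem_union, mem_insert, mem_singleton, not_or] at h3
  obtain ⟨n1, n2, n3⟩ := h3
  rcases lt_or_ge x D.p with h4 | h4
  · rw [r_bot_l hL (by omega) h4, r_bot_l hL (by omega) (by omega)]
  rcases lt_or_ge (x + 1) D.q with h5 | h5
  · rw [r_bot_in hL h4 (by omega), r_bot_in hL (by omega) h5, D.sc x h4 h5 (by
      by_contra h
      exact n1 (hJ x h4 h5 h))]
  · rw [r_bot_r hL (by omega) (by omega), r_bot_r hL (by omega) (by omega)]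

/-- the top row of the box -/
lemma r_top_in (hL : ExtL S L) (h1 : D.p ≤ x) (h2 : x < D.q) (h3 : x ≠ S.xs) :
    lbt x D.w ∈ L ↔ D.cc x = true := by
  have ha := D.aw x h1 h2
  have hl := D.hlo x h1 h2
  have hf : D.fill x D.w = D.cc x := by
    unfold fill
    rw [if_neg (by omega), if_neg (by omega), if_neg (by omega)]
  rw [← hf]
  refine hL _ _ _ (OutH.of ⟨by omega, by omega, by omega, le_rfl⟩ ?_ ?_ ?_)
    (fun h => h3 h.2.1)
  · intro h
    have := (h.z S.pos).2.2.2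
    omega
  · rintro (⟨g1, g2, g3, g4⟩ | ⟨g1, g2⟩)
    · have := S.pos.hi x (by omega) g2
      omega
    · omega
  · rintro (⟨g1, g2, g3, g4⟩ | ⟨g1, g2⟩)
    · have := S.pos.hi x g1 (by omega)
      omega
    · omega

lemma r_top_l (hL : ExtL S L) (h1 : D.p ≤ x + 2) (h2 : x < D.p) :
    lbt x D.w ∈ L ↔ D.cL = true := by
  have hs := S.s1
  have hp := S.p_le
  have hl := r_lo (S := S) le_rfl r_p
  have hw := S.pos.hi D.p le_rfl r_p
  exact hL _ _ _ (outLft h1 h2 (by omega) (by omega) (fun h => Or.inr le_rfl) hw)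
    (fun h => by have := h.2.1; omega)

lemma r_top_r (hL : ExtL S L) (h1 : D.q ≤ x) (h2 : x ≤ D.q + 1) :
    lbt x D.w ∈ L ↔ D.cR = true := by
  have hs := S.s2
  have hp := S.le_q
  have hh := D.hh
  have hl := r_lo (S := S) (x := D.q - 1) (by omega) (by omega)
  have hw := S.pos.hi (D.q - 1) (by omega) (by omega)
  exact hL _ _ _ (outRgt h1 h2 (by omega) (by omega) (fun h => Or.inr le_rfl) hw)
    (fun h => by have := h.2.1; omega)

/-- neighbours in the top row -/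
lemma r_top (hL : ExtL S L) (h1 : D.p - 2 ≤ x) (h2 : x + 1 ≤ D.q + 1)
    (h3 : x ∉ ({D.p - 1, D.q - 1} : Finset ℤ)) (h4 : x ≠ S.xs) (h5 : x + 1 ≠ S.xs) :
    lbt x D.w ∈ L ↔ lbt (x + 1) D.w ∈ L := by
  simp only [mem_insert, mem_singleton, not_or] at h3
  obtain ⟨n2, n3⟩ := h3
  rcases lt_or_ge x D.p with h6 | h6
  · rw [r_top_l hL (by omega) h6, r_top_l hL (by omega) (by omega)]
  rcases lt_or_ge (x + 1) D.q with h7 | h7
  · rw [r_top_in hL h6 (by omega) h4, r_top_in hL (by omega) h7 h5]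
    rcases lt_or_gt_of_ne h4 with h8 | h8
    · rw [S.cl x h6 h8, S.cl (x + 1) (by omega) (by omega)]
    · rw [S.cr x h8 (by omega), S.cr (x + 1) (by omega) h7]
  · rw [r_top_r hL (by omega) (by omega), r_top_r hL (by omega) (by omega)]

/-! ### The walls of the component -/

/-- the wall on the left of the component: the columns `x1 - 1`, `x1 - 2`, `x1 - 3` -/
lemma r_wl (h : D.p < S.x1) : D.p + 4 ≤ S.x1 ∧ S.y0 + 1 < D.a (S.x1 - 1) ∧
    D.a (S.x1 - 1) ≤ D.a (S.x1 - 2) ∧ D.a (S.x1 - 2) ≤ D.a (S.x1 - 3) ∧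
    D.a (S.x1 - 3) ≤ D.a (S.x1 - 4) := by
  have h1 := S.s1
  have h2 := S.s2
  have h4 := S.le_q
  have h5 := S.fl S.x1 le_rfl (by omega)
  have h6 := S.r2
  have h7 := S.lft h
  have h8 := D.fe S.x1 h (by omega) (by omega)
  have key : ∀ z, S.x1 - 4 < z → D.p < z → z < S.x1 → ¬ D.a (z - 1) < D.a z := by
    intro z z1 z2 z3 z4
    have := D.ud z S.x1 z2 z3 (by omega) z4 (by omega)
    omega
  have k1 := key (S.x1 - 1) (by omega) (by omega) (by omega)
  have k2 := key (S.x1 - 2) (by omega) (by omega) (by omega)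
  have k3 := key (S.x1 - 3) (by omega) (by omega) (by omega)
  rw [show S.x1 - 1 - 1 = S.x1 - 2 by ring] at k1
  rw [show S.x1 - 2 - 1 = S.x1 - 3 by ring] at k2
  rw [show S.x1 - 3 - 1 = S.x1 - 4 by ring] at k3
  exact ⟨h8.1, h7, by omega, by omega, by omega⟩

/-- the wall on the right of the component: the columns `x2`, `x2 + 1`, `x2 + 2` -/
lemma r_wr (h : S.x2 < D.q) : S.x2 + 4 ≤ D.q ∧ S.y0 + 1 < D.a S.x2 ∧
    D.a S.x2 ≤ D.a (S.x2 + 1) ∧ D.a (S.x2 + 1) ≤ D.a (S.x2 + 2) ∧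
    D.a (S.x2 + 2) ≤ D.a (S.x2 + 3) := by
  have h1 := S.s1
  have h2 := S.s2
  have h3 := S.p_le
  have h4 := S.le_q
  have h5 := S.fl (S.x2 - 1) (by omega) (by omega)
  have h6 := S.r2
  have h7 := S.rgt h
  have h8 := D.fe S.x2 (by omega) h (by omega)
  have key : ∀ z, S.x2 < z → z < S.x2 + 4 → z < D.q → ¬ D.a z < D.a (z - 1) := by
    intro z z1 z2 z3 z4
    have := D.ud S.x2 z (by omega) z1 z3 (by omega) z4
    omega
  have k1 := key (S.x2 + 1) (by omega) (by omega) (by omega)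
  have k2 := key (S.x2 + 2) (by omega) (by omega) (by omega)
  have k3 := key (S.x2 + 3) (by omega) (by omega) (by omega)
  rw [show S.x2 + 1 - 1 = S.x2 by ring] at k1
  rw [show S.x2 + 2 - 1 = S.x2 + 1 by ring] at k2
  rw [show S.x2 + 3 - 1 = S.x2 + 2 by ring] at k3
  exact ⟨h8.2, h7, by omega, by omega, by omega⟩

/-- colour of a column of the left wall -/
lemma r_colL (hL : ExtL S L) (h : D.p < S.x1) (hx : x = S.x1 - 2 ∨ x = S.x1 - 3)
    (h1 : D.lo ≤ y + 2) (h2 : y ≤ S.y0) : lbt x y ∈ L ↔ D.c x = true := by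
  obtain ⟨w1, w2, w3, w4, w5⟩ := r_wl h
  have s1 := S.s1
  have s2 := S.s2
  have hq := S.le_q
  have t1 : S.τ (x - 1) = D.a (x - 1) := S.τ_out (by omega)
  have t2 : S.τ x = D.a x := S.τ_out (by omega)
  have t3 : S.τ (x + 1) = D.a (x + 1) := S.τ_out (by omega)
  rcases hx with rfl | rfl
  · rw [show S.x1 - 2 - 1 = S.x1 - 3 by ring] at t1
    rw [show S.x1 - 2 + 1 = S.x1 - 1 by ring] at t3
    refine hL _ _ _ (outCol S.pos (by omega) (by omega) h1 (by omega) (fun h3 h4 => ?_)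
      (fun h3 h4 => ?_)) (fun h3 => by have := h3.2.1; omega)
    · rw [show S.x1 - 2 + 1 = S.x1 - 1 by ring] at h4 ⊢
      omega
    · rw [show S.x1 - 2 - 1 = S.x1 - 3 by ring] at h4 ⊢
      omega
  · rw [show S.x1 - 3 - 1 = S.x1 - 4 by ring] at t1
    rw [show S.x1 - 3 + 1 = S.x1 - 2 by ring] at t3
    refine hL _ _ _ (outCol S.pos (by omega) (by omega) h1 (by omega) (fun h3 h4 => ?_)
      (fun h3 h4 => ?_)) (fun h3 => by have := h3.2.1; omega)
    · rw [show S.x1 - 3 + 1 = S.x1 - 2 by ring] at h4 ⊢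
      omega
    · rw [show S.x1 - 3 - 1 = S.x1 - 4 by ring] at h4 ⊢
      omega

/-- colour of a column of the right wall -/
lemma r_colR (hL : ExtL S L) (h : S.x2 < D.q) (hx : x = S.x2 + 1 ∨ x = S.x2 + 2)
    (h1 : D.lo ≤ y + 2) (h2 : y ≤ S.y0) : lbt x y ∈ L ↔ D.c x = true := by
  obtain ⟨w1, w2, w3, w4, w5⟩ := r_wr h
  have s1 := S.s1
  have s2 := S.s2
  have hp := S.p_le
  have t1 : S.τ (x - 1) = D.a (x - 1) := S.τ_out (by omega)
  have t2 : S.τ x = D.a x := S.τ_out (by omega)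
  have t3 : S.τ (x + 1) = D.a (x + 1) := S.τ_out (by omega)
  rcases hx with rfl | rfl
  · rw [show S.x2 + 1 - 1 = S.x2 by ring] at t1
    rw [show S.x2 + 1 + 1 = S.x2 + 2 by ring] at t3
    refine hL _ _ _ (outCol S.pos (by omega) (by omega) h1 (by omega) (fun h3 h4 => ?_)
      (fun h3 h4 => ?_)) (fun h3 => by have := h3.2.1; omega)
    · rw [show S.x2 + 1 + 1 = S.x2 + 2 by ring] at h4 ⊢
      omega
    · rw [show S.x2 + 1 - 1 = S.x2 by ring] at h4 ⊢
      omega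
  · rw [show S.x2 + 2 - 1 = S.x2 + 1 by ring] at t1
    rw [show S.x2 + 2 + 1 = S.x2 + 3 by ring] at t3
    refine hL _ _ _ (outCol S.pos (by omega) (by omega) h1 (by omega) (fun h3 h4 => ?_)
      (fun h3 h4 => ?_)) (fun h3 => by have := h3.2.1; omega)
    · rw [show S.x2 + 2 + 1 = S.x2 + 3 by ring] at h4 ⊢
      omega
    · rw [show S.x2 + 2 - 1 = S.x2 + 1 by ring] at h4 ⊢
      omega

/-- the left side of the rectangle below the row -/
lemma r_dl (hL : ExtL S L) (h1 : D.lo ≤ y + 2) (h2 : y + 1 ≤ S.y0) :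
    lbt (S.x1 - 2) y ∈ L ↔ lbt (S.x1 - 2) (y + 1) ∈ L := by
  have hp := S.p_le
  have up := S.up
  have r2 := S.r2
  rcases eq_or_lt_of_le hp with h | h
  · rw [← h, r_lft hL h1 (by omega), r_lft hL (by omega) (by omega)]
  · rw [r_colL hL h (Or.inl rfl) h1 (by omega), r_colL hL h (Or.inl rfl) (by omega) h2]

/-- the right side of the rectangle below the row -/
lemma r_dr (hL : ExtL S L) (h1 : D.lo ≤ y + 2) (h2 : y + 1 ≤ S.y0) :
    lbt (S.x2 + 1) y ∈ L ↔ lbt (S.x2 + 1) (y + 1) ∈ L := by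
  have hp := S.le_q
  have up := S.up
  have r2 := S.r2
  rcases eq_or_lt_of_le hp with h | h
  · rw [h, r_rgt hL h1 (by omega), r_rgt hL (by omega) (by omega)]
  · rw [r_colR hL h (Or.inl rfl) h1 (by omega), r_colR hL h (Or.inl rfl) (by omega) h2]

/-- **The rectangle below the row.** -/
theorem exists_dn (hL : ExtL S L) (hJ : Jmp D J) : ∃ F : HalfD L S.N S.x1 S.y0,
    F.o = 2 ∧ F.w = S.N + 4 ∧ F.h = (S.y0 - D.lo + 2).toNat ∧ F.Ex.card ≤ 2 * J.card + 18 := by
  have n1 := S.N_eq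
  have s1 := S.s1
  have s2 := S.s2
  have hp := S.p_le
  have hq := S.le_q
  have up := S.up
  have r2 := S.r2
  have hl := r_lo_y0 (S := S)
  have hh : (((S.y0 - D.lo + 2).toNat : ℕ) : ℤ) = S.y0 - D.lo + 2 := by omega
  have key := exists_halfD_exc (N := S.N) (L := L) (x0 := S.x1) (y0 := S.y0)
    (o := 2) (W := S.N + 4) (HD := (S.y0 - D.lo + 2).toNat) (by omega) (by omega) (by omega)
    (CDL := ∅) (CDR := ∅) (CDT := {S.x1 - 2, S.x2}) (CDB := J ∪ {D.p - 1, D.q - 1})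
    (fun y h1 h2 _ => by
      rw [hh] at h1
      exact r_dl hL (by omega) (by omega))
    (fun y h1 h2 _ => by
      rw [hh] at h1
      have e : S.x1 - ((2 : ℕ) : ℤ) + ((S.N + 4 : ℕ) : ℤ) - 1 = S.x2 + 1 := by push_cast; omega
      rw [e]
      exact r_dr hL (by omega) (by omega))
    (fun x h1 h2 h3 => by
      rw [hh]
      push_cast at h1 h2
      have e : S.y0 - (S.y0 - D.lo + 2) = D.lo - 2 := by ring
      rw [e]
      exact r_bot hL hJ (by omega) (by omega) h3)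
    (fun x h1 h2 h3 h4 => by
      exfalso
      simp only [mem_insert, mem_singleton, not_or] at h3
      push_cast at h1 h2
      omega)
  obtain ⟨F, f1, f2, f3, f4⟩ := key
  refine ⟨F, f1, f2, f3, f4.trans ?_⟩
  have c1 := card_union_le J {D.p - 1, D.q - 1}
  have c2 : ({D.p - 1, D.q - 1} : Finset ℤ).card ≤ 2 := card_le_two
  have c3 : ({S.x1 - 2, S.x2} : Finset ℤ).card ≤ 2 := card_le_two
  rw [card_empty]
  omega

end

/-! ### The n-shaped region above the row -/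

/-- number of columns of the left leg -/
def wlz : ℕ := (S.x1 - D.p).toNat

/-- number of columns of the right leg -/
def wrz : ℕ := (D.q - S.x2).toNat

/-- number of rows of the left leg -/
def elz : ℕ := if S.x1 = D.p then 0 else (S.y0 - D.lo + 3).toNat

/-- number of rows of the right leg -/
def erz : ℕ := if S.x2 = D.q then 0 else (S.y0 - D.lo + 3).toNat

/-- number of rows of the rectangle -/
def hz : ℕ := (D.w - S.y0).toNat

section
variable {S}

lemma wlz_eq : (wlz S : ℤ) = S.x1 - D.p := by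
  have := S.p_le
  unfold wlz
  omega

lemma wrz_eq : (wrz S : ℤ) = D.q - S.x2 := by
  have := S.le_q
  unfold wrz
  omega

lemma hz_eq : (hz S : ℤ) = D.w - S.y0 := by
  have := S.up
  have := S.r2
  unfold hz
  omega

lemma elz_eq : (S.x1 = D.p ∧ elz S = 0) ∨ (D.p < S.x1 ∧ (elz S : ℤ) = S.y0 - D.lo + 3) := by
  have h1 := S.p_le
  have h2 := r_lo_y0 (S := S)
  unfold elz
  split_ifs with h
  · exact Or.inl ⟨h, rfl⟩
  · exact Or.inr ⟨by omega, by omega⟩

lemma erz_eq : (S.x2 = D.q ∧ erz S = 0) ∨ (S.x2 < D.q ∧ (erz S : ℤ) = S.y0 - D.lo + 3) := by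
  have h1 := S.le_q
  have h2 := r_lo_y0 (S := S)
  unfold erz
  split_ifs with h
  · exact Or.inl ⟨h, rfl⟩
  · exact Or.inr ⟨by omega, by omega⟩

lemma u_L (hL : ExtL S L) (h1 : S.y0 - elz S < y) (h2 : y < S.y0 + hz S) :
    lbt (D.p - 2) y ∈ L ↔ lbt (D.p - 2) (y + 1) ∈ L := by
  have e1 := hz_eq (S := S)
  have e3 := r_lo_y0 (S := S)
  rcases elz_eq (S := S) with ⟨e2, e4⟩ | ⟨e2, e4⟩
  · rw [r_lft hL (by omega) (by omega), r_lft hL (by omega) (by omega)]
  · rw [r_lft hL (by omega) (by omega), r_lft hL (by omega) (by omega)]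

lemma u_B1 (hL : ExtL S L) (hJ : Jmp D J) (h1 : D.p - 2 ≤ x) (h2 : x + 1 < D.p - 2 + wlz S)
    (h3 : x ∉ J ∪ {D.p - 1, D.q - 1}) :
    lbt x (S.y0 + 1 - elz S) ∈ L ↔ lbt (x + 1) (S.y0 + 1 - elz S) ∈ L := by
  have e1 := wlz_eq (S := S)
  have s1 := S.s1
  have s2 := S.s2
  have hq := S.le_q
  rcases elz_eq (S := S) with ⟨e2, e4⟩ | ⟨e2, e4⟩
  · omega
  · rw [e4, show S.y0 + 1 - (S.y0 - D.lo + 3) = D.lo - 2 by ring]
    exact r_bot hL hJ h1 (by omega) h3

lemma u_R1 (hL : ExtL S L) (h1 : S.y0 - elz S < y) (h2 : y < S.y0) :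
    lbt (S.x1 - 3) y ∈ L ↔ lbt (S.x1 - 3) (y + 1) ∈ L := by
  rcases elz_eq (S := S) with ⟨e2, e4⟩ | ⟨e2, e4⟩
  · rw [e4] at h1
    push_cast at h1
    omega
  · rw [r_colL hL e2 (Or.inr rfl) (by omega) (by omega), r_colL hL e2 (Or.inr rfl) (by omega) (by omega)]

lemma u_L2 (hL : ExtL S L) (h1 : S.y0 - erz S < y) (h2 : y < S.y0) :
    lbt (S.x2 + 2) y ∈ L ↔ lbt (S.x2 + 2) (y + 1) ∈ L := by
  rcases erz_eq (S := S) with ⟨e2, e4⟩ | ⟨e2, e4⟩
  · rw [e4] at h1
    push_cast at h1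
    omega
  · rw [r_colR hL e2 (Or.inr rfl) (by omega) (by omega),
      r_colR hL e2 (Or.inr rfl) (by omega) (by omega)]

lemma u_B2 (hL : ExtL S L) (hJ : Jmp D J) (h1 : S.x2 + 2 ≤ x) (h2 : x < S.x2 + 1 + wrz S)
    (h3 : x ∉ J ∪ {D.p - 1, D.q - 1}) :
    lbt x (S.y0 + 1 - erz S) ∈ L ↔ lbt (x + 1) (S.y0 + 1 - erz S) ∈ L := by
  have e3 := wrz_eq (S := S)
  have s1 := S.s1
  have s2 := S.s2
  have hp := S.p_le
  rcases erz_eq (S := S) with ⟨e2, e4⟩ | ⟨e2, e4⟩
  · omega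
  · rw [e4, show S.y0 + 1 - (S.y0 - D.lo + 3) = D.lo - 2 by ring]
    exact r_bot hL hJ (by omega) (by omega) h3

lemma u_R (hL : ExtL S L) (h1 : S.y0 - erz S < y) (h2 : y < S.y0 + hz S) :
    lbt (S.x2 + 1 + wrz S) y ∈ L ↔ lbt (S.x2 + 1 + wrz S) (y + 1) ∈ L := by
  have e3 := wrz_eq (S := S)
  have e6 := hz_eq (S := S)
  have e7 := r_lo_y0 (S := S)
  have e5 : S.x2 + 1 + wrz S = D.q + 1 := by omega
  rw [e5]
  rcases erz_eq (S := S) with ⟨e2, e4⟩ | ⟨e2, e4⟩
  · rw [r_rgt hL (by omega) (by omega), r_rgt hL (by omega) (by omega)]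
  · rw [r_rgt hL (by omega) (by omega), r_rgt hL (by omega) (by omega)]

lemma u_T (hL : ExtL S L) (h1 : D.p - 2 ≤ x) (h2 : x < S.x2 + 1 + wrz S)
    (h3 : x ∉ ({D.p - 1, D.q - 1} : Finset ℤ)) (h4 : x ≠ S.xs) (h5 : x + 1 ≠ S.xs) :
    lbt x (S.y0 + hz S) ∈ L ↔ lbt (x + 1) (S.y0 + hz S) ∈ L := by
  have e3 := wrz_eq (S := S)
  have e6 := hz_eq (S := S)
  rw [e6, show S.y0 + (D.w - S.y0) = D.w by ring]
  exact r_top hL h1 (by omega) h3 h4 h5

/-! ### The tiles next to the exit -/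

lemma us_lft (hL : ExtL S L) (he : S.e = 0) : us L (S.xs - 1, D.w) = true := by
  have s1 := S.s1
  have s2 := S.s2
  have hp := S.p_le
  have hq := S.le_q
  have h1 := r_top_in hL (x := S.xs - 1) (by omega) (by omega) (by omega)
  rw [S.cl (S.xs - 1) (by omega) (by omega), ← (S.par he).1] at h1
  unfold us
  simp only
  by_cases h : (S.xs + D.w) % 2 = 0
  · rw [decide_eq_true (h1.2 h), pr0_lbt_true.2 (by omega)]
    rfl
  · rw [decide_eq_false (fun h2 => h (h1.1 h2)), pr0_lbt_false.2 (by omega)]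
    rfl

lemma us_rgt (hL : ExtL S L) (he : S.e = 0) : us L (S.xs + 1, D.w) = false := by
  have s1 := S.s1
  have s2 := S.s2
  have hp := S.p_le
  have hq := S.le_q
  have h1 := r_top_in hL (x := S.xs + 1) (by omega) (by omega) (by omega)
  rw [S.cr (S.xs + 1) (by omega) (by omega), ← (S.par he).2] at h1
  unfold us
  simp only
  by_cases h : (S.xs + D.w) % 2 = 1
  · rw [decide_eq_true (h1.2 h), pr0_lbt_false.2 (by omega)]
    rfl
  · rw [decide_eq_false (fun h2 => h (h1.1 h2)), pr0_lbt_true.2 (by omega)]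
    rfl

end

end Pool.Agent.H81.W
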