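import Mathlib
import Pool.Agent.H30.W.Walk
import Pool.Agent.H30.W.RowE

set_option autoImplicit false
set_option linter.unusedSectionVars false
open Finset

/-! # The wires near a row

`WrZ x0 y0 EL EU ζ e c c'` : the walk of the column `c` on the side `e` (`true` : above the row) through
tiles with random labels (`EU` above, `EL` below) comes back to the row at the column `c'`. `WrZ.mono` : it is
a walk in every larger region, for every set of open labels which agrees on the random labels. -/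

namespace Pool.Agent.H81.W

open Pool.Agent.H75.Perc Pool.Agent.H75.TwoArm Pool.Agent.Q1 Pool.Agent.H81.G1
open Pool.Agent.H30.Mid
open Pool.Agent.H30.W
open Pool.Agent.H69.M6b (lbt)

variable {N : ℕ}

/-- **The wires near a row.** -/
def WrZ (x0 y0 : ℤ) (EL EU ζ : Finset (ℤ × ℤ)) (e : Bool) (c c' : Fin N) : Prop :=
  ∃ n, WK (ug EL EU (1, -1) ζ) x0 y0 e (fun u => lbt u.1 u.2 ∈ (if e then EU else EL)) c n
    (zr0 x0 y0 e c')

lemma uf_agree {L L' : Finset (ℤ × ℤ)} {z : (ℤ × ℤ) × Dir}
    (h : lbt z.1.1 z.1.2 ∈ L ↔ lbt z.1.1 z.1.2 ∈ L') : uf L z = uf L' z := by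
  have e : us L z.1 = us L' z.1 := by
    unfold us
    simp only [h]
  unfold uf
  rw [e]

/-- walks of two configurations which agree on the region -/
lemma WK.agree {L L' : Finset (ℤ × ℤ)} {x0 y0 : ℤ} {e : Bool} {In In' : ℤ × ℤ → Prop} {c n : ℕ}
    {z' : (ℤ × ℤ) × Dir} (h : WK L x0 y0 e In c n z')
    (hL : ∀ u, In u → (lbt u.1 u.2 ∈ L ↔ lbt u.1 u.2 ∈ L')) (hI : ∀ u, In u → In' u) :
    WK L' x0 y0 e In' c n z' := by
  have key : ∀ i ≤ n, (uf L')^[i] (z0 x0 y0 e c) = (uf L)^[i] (z0 x0 y0 e c) := by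
    intro i
    induction i with
    | zero => intro _; rfl
    | succ i ih =>
      intro hi
      rw [Function.iterate_succ_apply', Function.iterate_succ_apply', ih (by omega)]
      exact (uf_agree (hL _ (h.mem i (by omega)))).symm
  refine ⟨by rw [key n le_rfl]; exact h.tgt, fun i hi => ?_⟩
  rw [key i hi.le]
  exact hI _ (h.mem i hi)

/-- **The wires in every larger region**, for every set of open labels which agrees on the random labels. -/
theorem WrZ.mono {x0 y0 : ℤ} {EL EU ζ L : Finset (ℤ × ℤ)} {e : Bool} {c c' : Fin N} {In : ℤ × ℤ → Prop}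
    (h : WrZ x0 y0 EL EU ζ e c c')
    (hL : ∀ u ∈ EL ∪ EU, (u ∈ ug EL EU (1, -1) ζ ↔ u ∈ L))
    (hI : ∀ u : ℤ × ℤ, lbt u.1 u.2 ∈ (if e then EU else EL) → In u) :
    ∃ n, WK L x0 y0 e In c n (zr0 x0 y0 e c') := by
  obtain ⟨n, hn⟩ := h
  refine ⟨n, WK.agree hn (fun u hu => hL _ ?_) hI⟩
  cases e
  · exact mem_union_left _ (by simpa using hu)
  · exact mem_union_right _ (by simpa using hu)

end Pool.Agent.H81.W
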