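import Mathlib
import Pool.Agent.H81.W.RgZ
import Pool.Agent.H81.W.WrZ
import Pool.Agent.H81.W.FrZ
import Pool.Agent.H56.W.UpN
import Pool.Agent.H40.W.FBz

set_option autoImplicit false
set_option linter.unusedSectionVars false
open Finset

/-! # The hypotheses `FZ` for a row with a string in a window

`fz_slit` : for every state `t` of the other labels, every state `κ` of the tile at the target and every
state `ζ` of the labels near the row (glued), the frozen environment satisfies `FZ` with the wires `WrZ`.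
`zrow_slit` : the reduced nets `ZRow` for the frozen bound `fb_slit`. -/

namespace Pool.Agent.H81.W

open Pool.Agent.H75.Perc Pool.Agent.H75.TwoArm Pool.Agent.Q1 Pool.Agent.H81.G1
open Pool.Agent.H30.Mid
open Pool.Agent.H30.W
open Pool.Agent.H40.W
open Pool.Agent.H83.W (NB)
open Pool.Agent.H69.M6b (lbt lbt_inj lbt_odd)
open Pool.Agent.H54.W Pool.Agent.H54.W.HWin
open Pool.Agent.H30.Sp (WGb)
open Pool.Agent.H76.W (OutH)
open Pool.Agent.Q1.M6b.Gl

/-! ### The root -/

section root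
variable {X : Env} {E' ω : Finset (ℤ × ℤ)} {c : ℤ × ℤ} {n : ℕ}

lemma out_freeze_iter (h : ∀ i < n, lab (X.out^[i] c) ∉ X.E) :
    ∀ i ≤ n, (X.freeze E' ω).out^[i] c = X.out^[i] c := by
  intro i
  induction i with
  | zero => intro _; rfl
  | succ i ih =>
    intro hi
    rw [Function.iterate_succ_apply', Function.iterate_succ_apply', ih (by omega)]
    show (if lab (X.out^[i] c) ∈ X.E then nx ω (X.out^[i] c) else X.out (X.out^[i] c)) = _
    rw [if_neg (h i (by omega))]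

/-- the root wire after freezing some labels -/
lemma RootS.freeze {z : (ℤ × ℤ) × Dir} (h : RootS X z) : RootS (X.freeze E' ω) z := by
  rcases h with ⟨h1, n, h2, h3⟩ | ⟨h1, n, h2, h3⟩
  · refine Or.inl ⟨h1, n, ?_, fun i hi => ?_⟩
    · show (X.freeze E' ω).out^[n] X.c0 = _
      rw [out_freeze_iter h3 n le_rfl, h2]
    · show lab ((X.freeze E' ω).out^[i] X.c0) ∉ _
      rw [out_freeze_iter h3 i hi.le, Env.freeze_E, mem_inter]
      exact fun h4 => h3 i hi h4.1
  · refine Or.inr ⟨h1, n, ?_, fun i hi => ?_⟩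
    · rw [out_freeze_iter h3 n le_rfl, h2]
      rfl
    · rw [out_freeze_iter h3 i hi.le, Env.freeze_E, mem_inter]
      exact fun h4 => h3 i hi h4.1

end root

variable {D : HWin} {S : Slit D} {X : Env} {W B t : Finset (ℤ × ℤ)} {em : ℤ × ℤ} {J : Finset ℤ}

section

/-- the fixed tiles around the window in the frozen environment -/
lemma extL_LGE (R : SlitEnv S X W B em) (κ : Bool) {ζ : Finset (ℤ × ℤ)} :
    ExtL S (LGE (fz1 (XFz X S B em t) em κ) (WFz X W S B em t ∪ st1 em κ) S.M S.c0 S.x1 S.y0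
      (ELz S B) (EUz S B) ζ) := by
  intro x y c h hx
  obtain ⟨h1, h2, h3⟩ := R.ext_F (t := t) h hx
  have n1 : lbt x y ∉ ELz S B := fun h4 => h1 (by
    unfold EFz; exact mem_union_left _ (mem_union_left _ h4))
  have n2 : lbt x y ∉ EUz S B := fun h4 => h1 (by
    unfold EFz; exact mem_union_left _ (mem_union_right _ h4))
  rw [mem_LGE_out (R.renv t κ) n1 n2]
  cases κ
  · exact h3
  · exact h2

/-- **The n-shaped region above the row.** -/
theorem exists_up {L : Finset (ℤ × ℤ)} (hL : ExtL S L) (hJ : Jmp D J) :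
    ∃ F : UpH L S.c0 S.x1 S.y0 S.M,
      F.Rg = NB (D.p - 2) S.y0 (S.xs - (D.p - 2)) (hz S) (elz S) (erz S) (wlz S) (S.N + 3) (wrz S) ∧
      F.Ex.card ≤ 4 * J.card + 37 := by
  have n1 := S.N_eq
  have k1 := S.k_eq
  have m1 := S.M_eq
  have s1 := S.s1
  have s2 := S.s2
  have hp := S.p_le
  have hq := S.le_q
  have up := S.up
  have r2 := S.r2
  have e1 := S.e1
  have w1 := wlz_eq (S := S)
  have w2 := wrz_eq (S := S)
  have w3 := hz_eq (S := S)
  have c0 := S.c0_val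
  have xe : S.x1 + ((S.c0 : Fin S.N) : ℕ) = S.xs := S.xs_eq
  have n2 : S.x1 + S.N = S.x2 := by omega
  obtain ⟨F, f1, f2⟩ := Pool.Agent.H56.W.exists_upH_n L S.c0 (x0 := S.x1) (xa := D.p - 2) S.y0
    (C := S.xs - (D.p - 2)) S.M (h := hz S) (el := elz S) (er := erz S) (wl := wlz S) (wr := wrz S)
    (by omega) (by omega) (by omega) (fun h => by
      rcases elz_eq (S := S) with ⟨-, h2⟩ | ⟨h2, -⟩
      · exact h2
      · omega) (fun h => by
      rcases erz_eq (S := S) with ⟨-, h2⟩ | ⟨h2, -⟩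
      · exact h2
      · omega) (by
      rcases Nat.lt_or_ge S.e 1 with h | h
      · right
        have h0 : S.e = 0 := by omega
        have eM : S.y0 + 1 + (S.M : ℤ) = D.w := by omega
        refine ⟨by omega, ?_⟩
        rw [xe, eM]
        exact ⟨fun _ => us_lft hL h0, fun _ => us_rgt hL h0⟩
      · left; omega)
  refine ⟨F, f1, ?_⟩
  have f3 := f2 ∅ (J ∪ {D.p - 1, D.q - 1}) ∅ {S.x1 - 2, S.x2} ∅ (J ∪ {D.p - 1, D.q - 1}) ∅
    {D.p - 1, D.q - 1}
  rw [n2, xe] at f3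
  refine (f3 ?_ ?_ ?_ ?_ ?_ ?_ ?_ ?_).trans ?_
  · exact fun y h1 h2 _ => u_L hL h1 h2
  · exact fun x h1 h2 h3 => u_B1 hL hJ h1 h2 h3
  · exact fun y h1 h2 _ => u_R1 hL h1 h2
  · intro x h1 h2 h3 h4
    exfalso
    simp only [mem_insert, mem_singleton, not_or] at h3
    omega
  · exact fun y h1 h2 _ => u_L2 hL h1 h2
  · exact fun x h1 h2 h3 => u_B2 hL hJ h1 h2 h3
  · exact fun y h1 h2 _ => u_R hL h1 h2
  · exact fun x h1 h2 h3 h4 h5 => u_T hL h1 h2 h3 h4 h5
  · have c1 := card_union_le J {D.p - 1, D.q - 1}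
    have c2 : ({D.p - 1, D.q - 1} : Finset ℤ).card ≤ 2 := card_le_two
    have c3 : ({S.x1 - 2, S.x2} : Finset ℤ).card ≤ 2 := card_le_two
    rw [card_empty]
    omega

/-- the tiles of the region are in the box -/
lemma nb_inZ {u : ℤ × ℤ} (h : NB (D.p - 2) S.y0 (S.xs - (D.p - 2)) (hz S) (elz S) (erz S) (wlz S)
    (S.N + 3) (wrz S) u) : D.InZ u.1 u.2 := by
  have n1 := S.N_eq
  have w1 := wlz_eq (S := S)
  have w2 := wrz_eq (S := S)
  have w3 := hz_eq (S := S)
  have e3 := r_lo_y0 (S := S)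
  have s1 := S.s1
  have s2 := S.s2
  have hp := S.p_le
  have hq := S.le_q
  have up := S.up
  have r2 := S.r2
  unfold HWin.InZ
  obtain ⟨h1 | h1 | h1, -⟩ := h
  · push_cast at h1
    omega
  · rcases elz_eq (S := S) with ⟨e2, e4⟩ | ⟨e2, e4⟩
    · omega
    · omega
  · push_cast at h1
    rcases erz_eq (S := S) with ⟨e2, e4⟩ | ⟨e2, e4⟩
    · omega
    · omega

/-- **`FZ` for a row with a string in a window.** -/
theorem fz_slit (R : SlitEnv S X W B em) (hJ : Jmp D J)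
    (hroot : RootS X (zq S.M S.x1 S.y0 S.c0)) {ct : ℤ × ℤ}
    (htgt : ∀ x y, plab ct = lbt x y → ¬ D.InZ x y) (t : Finset (ℤ × ℤ)) (κ : Bool)
    {ζ : Finset (ℤ × ℤ)} (hζ : ζ ⊆ gE (ELz S B) (EUz S B) (1, -1)) :
    Nonempty (FZ ((fz1 (XFz X S B em t) em κ).freeze
        (univ.image (lbE S.N S.x1 S.y0 (lsZ S.M S.x1 S.y0 S.c0))) (ug (ELz S B) (EUz S B) (1, -1) ζ))
      (LGE (fz1 (XFz X S B em t) em κ) (WFz X W S B em t ∪ st1 em κ) S.M S.c0 S.x1 S.y0
        (ELz S B) (EUz S B) ζ) (ζ ∪ WGz S X W B em t κ) S.M S.c0 S.x1 S.y0 ct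
      (WrZ S.x1 S.y0 (ELz S B) (EUz S B) ζ) (6 * J.card + 55) S.r.toNat) := by
  have RE := R.renv t κ
  have hL := extL_LGE (t := t) R κ (ζ := ζ)
  set L := LGE (fz1 (XFz X S B em t) em κ) (WFz X W S B em t ∪ st1 em κ) S.M S.c0 S.x1 S.y0
        (ELz S B) (EUz S B) ζ with hLd
  obtain ⟨u, u1, u2⟩ := exists_up hL hJ
  obtain ⟨d, d1, d2, d3, d4⟩ := exists_dn hL hJ
  have n1 := S.N_eq
  have m1 := S.M_eq
  have e0 := S.e1
  have e3 := r_lo_y0 (S := S)
  have s1 := S.s1
  have s2 := S.s2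
  have hp := S.p_le
  have hq := S.le_q
  have up := S.up
  have r2 := S.r2
  have rr : ((S.r.toNat : ℕ) : ℤ) = S.r := by omega
  have hh : (((S.y0 - D.lo + 2).toNat : ℕ) : ℤ) = S.y0 - D.lo + 2 := by omega
  have xe : S.x1 + ((S.c0 : Fin S.N) : ℕ) = S.xs := S.xs_eq
  have hfl := S.fl S.x1 le_rfl (by omega)
  have hlo := D.hlo S.x1 hp (by omega)
  -- all tiles of the region are in the box
  have hin : ∀ v, (⟨u, d⟩ : FrameZ L S.M S.c0 S.x1 S.y0).In v ∨ InP S.x1 S.y0 S.c0 S.r.toNat v →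
      D.InZ v.1 v.2 := by
    rintro v ((h | h | h | h) | h)
    · have h' : u.Rg v := h
      rw [u1] at h'
      exact nb_inZ h'
    · have h' : InD S.x1 S.y0 d.o d.w d.h v := h
      rw [d1, d2, d3] at h'
      unfold InD at h'
      unfold HWin.InZ
      push_cast [hh] at h'
      omega
    · obtain ⟨c, rfl⟩ := h
      have := c.2
      unfold HWin.InZ
      simp only
      omega
    · rw [xe] at h
      unfold HWin.InZ
      omega
    · unfold InP at h
      unfold HWin.InZ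
      omega
  have hag : ∀ e ∈ ELz S B ∪ EUz S B, (e ∈ ug (ELz S B) (EUz S B) (1, -1) ζ ↔ e ∈ L) := by
    intro e he
    rw [hLd, mem_LGE RE, mem_ug]
    constructor
    · exact Or.inr
    · rintro (h1 | h1)
      · exact absurd h1 (disjoint_left.1 RE.po.disj ((layE_row RE.lay).2.2.2.1 e he))
      · exact h1
  refine ⟨{
    F := ⟨u, d⟩
    out := outL_LGE RE ζ
    hE := freeze_E_RZ RE _
    root := ?_
    r0 := fun v hv h => R.root _ _ h (hin v hv)
    r1 := fun v hv h => htgt _ _ h (hin v hv)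
    card := ?_
    hpos := by omega
    gu := ?_
    gd := ?_
    wU := ?_
    wD := ?_ }⟩
  · unfold fz1 XFz
    exact hroot.freeze.freeze.freeze
  · refine (card_union_le _ _).trans ?_
    have u2' : u.Ex.card ≤ 4 * J.card + 37 := u2
    have d4' : d.Ex.card ≤ 2 * J.card + 18 := d4
    show u.Ex.card + d.Ex.card ≤ _
    omega
  · intro v hv
    unfold InP at hv
    exact glt_upp RE hζ (by omega) (by omega) (by omega) (by omega)
  · intro v hv
    have h' : InD S.x1 S.y0 d.o d.w d.h v := hv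
    rw [d1, d2, d3] at h'
    unfold InD at h'
    push_cast [hh] at h'
    exact glt_low RE hζ (by omega) (by omega) (by omega) (by omega)
  · intro c c' h _ _
    refine h.mono hag fun v hv => ?_
    simp only [if_true] at hv
    have h1 := (mem_EUz.1 hv).1
    unfold InP
    omega
  · intro c c' h
    show ∃ n, WK L S.x1 S.y0 false (InD S.x1 S.y0 d.o d.w d.h) c n (zr0 S.x1 S.y0 false (c' : ℕ))
    refine h.mono hag fun v hv => ?_
    simp only [Bool.false_eq_true, if_false] at hv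
    have h1 := (mem_ELz.1 hv).1
    rw [d1, d2, d3]
    unfold InD
    push_cast [hh]
    omega

/-- **The reduced nets of a row with a string in a window**, in the form of `fb_slit`. -/
theorem zrow_slit (R : SlitEnv S X W B em) (hJ : Jmp D J)
    (hroot : RootS X (zq S.M S.x1 S.y0 S.c0)) {ct : ℤ × ℤ}
    (htgt : ∀ x y, plab ct = lbt x y → ¬ D.InZ x y) (t : Finset (ℤ × ℤ)) (κ : Bool)
    {ζ : Finset (ℤ × ℤ)} (hζ : ζ ⊆ gE (ELz S B) (EUz S B) (1, -1)) {T : Finset (Fin S.N)}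
    (hT : S.c0 ∈ T)
    (hne : AE (fz1 (XFz X S B em t) em κ) S.N S.x1 S.y0 (lsZ S.M S.x1 S.y0 S.c0) ct
      (fun _ => zt ^ (4 : ℤ)) (fun _ => zt ^ (-4 : ℤ)) (ELz S B) (EUz S B) T ζ ≠ 0) :
    Nonempty (ZRow S.x1 S.y0 S.c0 (ζ ∪ WGz S X W B em t κ)
      (WrZ S.x1 S.y0 (ELz S B) (EUz S B) ζ) (6 * J.card + 55) S.r.toNat T
      ‖AE (fz1 (XFz X S B em t) em κ) S.N S.x1 S.y0 (lsZ S.M S.x1 S.y0 S.c0) ct
        (fun _ => zt ^ (4 : ℤ)) (fun _ => zt ^ (-4 : ℤ)) (ELz S B) (EUz S B) T ζ‖) := by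
  obtain ⟨Z⟩ := fz_slit R hJ hroot htgt t κ hζ
  exact FZ.zrow (R.renv t κ).lay.fam Z hT (norm_pos_iff.2 hne) le_rfl

end

end Pool.Agent.H81.W
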