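import Mathlib
import Pool.Agent.H40.W.FBs
import Pool.Agent.H69.W.WFamE

set_option autoImplicit false
set_option linter.unusedSectionVars false
open Finset

/-! # The outside facts of a row with a string in a window

`OutZ S X em ct` : the root corner lies on the wire of the outer end of the string, the target corner `ct`
is outside of the box, the first random label on its path is `em`. `OutZ.famS` : the relations of the windows
for all boxes `B` and all frozen states `t`. `fbX_out` : the frozen bound `FBX` of a slit. -/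

namespace Pool.Agent.H81.W

open Pool.Agent.H75.Perc Pool.Agent.H75.TwoArm Pool.Agent.Q1 Pool.Agent.H81.G1
open Pool.Agent.H99.NC
open Pool.Agent.H30.Mid
open Pool.Agent.H30.W
open Pool.Agent.H40.W
open Pool.Agent.H69.M6b (lbt)
open Pool.Agent.H54.W
open Pool.Agent.Q1.M6b.Gl
open Pool.Agent.H69.W (TgE wfam_E)
open Pool.Agent.H76.W (FBX)
open Pool.Agent.H46.Sp (TSys)

variable {D : HWin}

/-- **The outside facts.** -/
structure OutZ (S : Slit D) (X : Env) (em ct : ℤ × ℤ) : Prop where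
  root : RootS X (zq S.M S.x1 S.y0 S.c0)
  tgt : ∀ x y, plab ct = lbt x y → ¬ D.InZ x y
  em : ∃ n, (∀ i < n, lab (X.out^[i] ct) ∉ X.E) ∧ lab (X.out^[n] ct) = em

variable {S : Slit D} {X : Env} {W B t : Finset (ℤ × ℤ)} {em ct : ℤ × ℤ} {J : Finset ℤ}

/-- the target condition in the frozen environments -/
lemma OutZ.tgE (h : OutZ S X em ct) (he : em ∈ X.E) (B t : Finset (ℤ × ℤ)) (yc : Fin S.N) :
    TgE (XFz X S B em t) S.N S.x1 S.y0 (l2z S em) yc ct := by
  obtain ⟨n, h1, h2⟩ := h.em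
  refine TgE.freeze (j := Sum.inr ()) h1 h2 he ?_
  rw [EFz_eq]
  exact mem_insert_self _ _

/-- **The relations of the windows** for all boxes and all frozen states. -/
theorem OutZ.famS (h : OutZ S X em ct) (R : SlitEnv S X W ∅ em) (B t : Finset (ℤ × ℤ)) :
    FamS S X em ct B t :=
  wfam_E ((slitEnv_mono R B).lay t) (h.tgE R.emE B t _) _ _

/-- **The frozen bound of a slit**, from the outside facts only. -/
theorem fbX_out (hAP : AP Pool.Agent.Q1.M6c.PlaneK) (m s A : ℕ) (K0 : ℤ) (hK0 : 6 ≤ K0) :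
    ∃ Cf : ℝ, 0 ≤ Cf ∧ ∀ {D : HWin} (S : Slit D) (X : Env) (W : Finset (ℤ × ℤ)) (em ct : ℤ × ℤ)
      (J : Finset ℤ) (R : ℝ), SlitEnv S X W ∅ em → Jmp D J → J.card ≤ s → OutZ S X em ct →
      ∀ {κ' : Type} [Fintype κ'] [DecidableEq κ'] [Nonempty κ'] (Sy : TSys κ')
      (C Bk : Finset (ℤ × ℤ)) (K : ℤ) (l : ℕ),
      (∀ v ∈ powersetCard l Sy.Ti, SepZ (v.biUnion (Sy.Bt K v)) S.N S.x1 S.y0 S.k ∧
        SepZ (v.biUnion (Sy.Bt K v)) S.N S.x1 (S.y0 + 1) S.k) →
      1 ≤ R → ((S.N + 1 : ℕ) : ℝ) ≤ A * R → (S.r : ℝ) ≤ A * R → (S.N : ℤ) ≤ A * S.r →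
      (S.N : ℤ) < K0 * (S.r + 1) →
      FBX X Sy C Bk S.N S.x1 S.y0 (lsZ S.M S.x1 S.y0 S.c0) ct (fun _ => zt ^ (4 : ℤ))
        (fun _ => zt ^ (-4 : ℤ)) (ELz S ∅) (EUz S ∅) S.k K m l
        (Cf * R ^ ((2 / 3 : ℝ) * m + 2 / 5)) := by
  obtain ⟨Cf, hC0, hC⟩ := fbX_slit hAP m s A K0 hK0
  exact ⟨Cf, hC0, fun S X W em ct J R hE hJ hs h => hC S X W em ct J R hE hJ hs h.root h.tgt (h.famS hE)⟩

end Pool.Agent.H81.W
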