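import Mathlib
import Pool.Agent.H85.W.RtS

set_option autoImplicit false
open Finset

/-! # The first random label on the path of the target corner

Frame of the windows with a vertical line (`H54/W/Def.lean`), windows `C.win n he h8 cr` of coarse data in the
box `B`, the line at the position `τ`. The strand of the target corner `ctW θ B` goes around the box to the lower
mark `(pq θ).1` (helper85), then along the interface of this mark (closed below, open above) to the window.
`emT θ B τ` : the first random tile on this path. `ctW_emT` : all tiles before it are fixed; `emT_InE`,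
`emT_near`. -/

namespace Pool.Agent.H81.W

open Pool.Agent.H75.Perc Pool.Agent.H75.TwoArm Pool.Agent.H33.Q1
open Pool.Agent.H74.R45
open Pool.Agent.H54.W (CD Win Out Zb mem_Zb neK Pos)
open Pool.Agent.H54.W.Win (mem_EJ InU InE InZ TA TB RE RW RB RT InO)
open Pool.Agent.H20.W (Th Mk)
open Pool.Agent.H85.W

variable {C : CD} {c0 : Bool}

/-- the window in the box -/
abbrev DB (B : BP C c0) (cr : ℤ → Bool) : Win := C.win B.n B.he B.hn cr

variable {θ : Th C c0} {B : BP C c0} {cr : ℤ → Bool} {τ : ℤ → ℤ} {x y r : ℤ}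

/-- the labels which are not random, without the tile of the wall in the row `r` -/
abbrev NR (D : Win) (τ : ℤ → ℤ) (r : ℤ) : Set (ℤ × ℤ) := {e | e ∉ D.EJ τ ∧ e ≠ lt (D.w, r)}

/-- a fixed tile of the colour `p`, not a turn tile -/
structure OutV (D : Win) (τ : ℤ → ℤ) (x y : ℤ) (p : Bool) : Prop where
  e : ¬ D.InE τ x y
  a : ¬ D.TA τ x y
  b : ¬ D.TB τ x y
  f : D.fill x y = p

section gen

variable {D : Win}

/-- **colours in the box**, off the line -/
lemma WJ_fill (hb : (ow θ B).Box x y)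
    (h1 : ¬ D.InE τ x y) (h2 : ¬ D.TA τ x y) (h3 : ¬ D.TB τ x y) :
    lt (x, y) ∈ D.WJ τ (Wo θ B D D.fill) ↔ D.fill x y = true := by
  unfold Win.WJ
  rw [mem_union, Win.mem_WR]
  by_cases hz : D.InZ x y
  · constructor
    · rintro (h | h)
      · obtain ⟨-, -, h | h | h⟩ := h
        · exact absurd h.1 h2
        · exact absurd h.1 h3
        · exact h.2.2
      · exact absurd hz (mem_Wo.1 h).1
    · intro h
      exact Or.inl ⟨hz, h1, Or.inr (Or.inr ⟨h2, h3, h⟩)⟩
  · rw [mem_Wo_in hb hz]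
    constructor
    · rintro (h | h)
      · exact absurd h.1 hz
      · exact h
    · exact fun h => Or.inr h

/-- the turn tile {W-N, S-E} at an odd place is closed -/
lemma wt_TA (H : Pos D τ) (h2 : D.TA τ x y) (ho : (x + y) % 2 = 1) :
    Wt (D.WJ τ (Wo θ B D D.fill)) (NR D τ r) x y := by
  refine ⟨?_, fun h => h2.not_InE H ((mem_EJ H).1 h), fun h => ?_⟩
  swap
  · have h3 := lt_inj h
    simp only [Prod.mk.injEq] at h3
    have := h2.z H
    omega
  unfold Win.WJ
  rw [mem_union, Win.mem_WR]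
  have hz : D.InZ x y := by have := h2.z H; unfold InZ; omega
  rintro (h | h)
  · obtain ⟨-, -, h | h | h⟩ := h
    · omega
    · exact h2.not_TB H h.1
    · exact h.1 h2
  · exact (mem_Wo.1 h).1 hz

/-- fixed open tile -/
lemma OutV.bt (H : Pos D τ) (h : OutV D τ x y true) (hb : (ow θ B).Box x y)
    (hr : x = D.w → y ≠ r) : Bt (D.WJ τ (Wo θ B D D.fill)) (NR D τ r) x y :=
  ⟨(WJ_fill hb h.e h.a h.b).2 h.f, fun h' => h.e ((mem_EJ H).1 h'), fun h' => by
    have h3 := lt_inj h'
    simp only [Prod.mk.injEq] at h3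
    exact hr h3.1 h3.2⟩

/-- fixed closed tile -/
lemma OutV.wt (H : Pos D τ) (h : OutV D τ x y false) (hb : (ow θ B).Box x y)
    (hr : x = D.w → y ≠ r) : Wt (D.WJ τ (Wo θ B D D.fill)) (NR D τ r) x y :=
  ⟨fun h' => by rw [WJ_fill hb h.e h.a h.b, h.f] at h'; exact absurd h' (by decide),
    fun h' => h.e ((mem_EJ H).1 h'), fun h' => by
    have h3 := lt_inj h'
    simp only [Prod.mk.injEq] at h3
    exact hr h3.1 h3.2⟩

/-- a tile to the left of a row -/
lemma outV_row (H : Pos D τ) (h0 : 0 ≤ y) (h1 : y < D.h) (h2 : x < D.a y - 1)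
    (h3 : 0 < y → x < τ (y - 1) - 1) (h4 : y + 1 < D.h → x < D.a (y + 1) - 1) :
    OutV D τ x y (D.cl y) := by
  have hh := D.hh
  have h4' : y + 1 < D.h → x < τ (y + 1) - 1 := fun h => by
    have := H.lo (y + 1) (by omega) h
    have := h4 h
    omega
  refine ⟨?_, ?_, ?_, ?_⟩
  · rintro (h | h | h | h | h)
    · have := h.2.2.1; omega
    · have := h.2.2.1; have := h3 h.1; omega
    · have := h.2.2.1; have := h4' h.2.1; omega
    · have := h.1; omega
    · have := h.1; omega
  · rintro (⟨g1, g2, g3, g4⟩ | ⟨g1, g2⟩)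
    · have := h3 g1; omega
    · omega
  · rintro (⟨g1, g2, g3, g4⟩ | ⟨g1, g2⟩)
    · have := h4' g2; omega
    · omega
  · unfold Win.fill
    rw [if_neg (by omega), if_neg (by omega), if_pos (by omega)]

/-- a tile above the window -/
lemma outV_top (h1 : D.h ≤ y) (h2 : y = D.h → x < τ (D.h - 1) - 1) :
    OutV D τ x y D.ct := by
  have hh := D.hh
  refine ⟨?_, ?_, ?_, ?_⟩
  · rintro (h | h | h | h | h)
    · have := h.2.1; omega
    · have := h.2.1; omega
    · have := h.2.1; omega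
    · have := h.1; omega
    · have := h.2.1; have := h2 h.1; omega
  · rintro (⟨g1, g2, g3, g4⟩ | ⟨g1, g2⟩)
    · omega
    · have := h2 g1; omega
  · rintro (⟨g1, g2, g3, g4⟩ | ⟨g1, g2⟩) <;> omega
  · unfold Win.fill
    rw [if_neg (by omega), if_pos (by omega)]

/-- a tile below the window -/
lemma outV_bot (h1 : y < 0) (h2 : y = -1 → x < τ 0 - 1 ∨ D.w ≤ x) (h3 : τ 0 ≤ D.w) :
    OutV D τ x y D.cb := by
  have hh := D.hh
  refine ⟨?_, ?_, ?_, ?_⟩
  · rintro (h | h | h | h | h)
    · have := h.1; omega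
    · have := h.1; omega
    · have := h.1; omega
    · have := h.2.1; have := h.2.2; have := h2 h.1; omega
    · have := h.1; omega
  · rintro (⟨g1, g2, g3, g4⟩ | ⟨g1, g2⟩) <;> omega
  · rintro (⟨g1, g2, g3, g4⟩ | ⟨g1, g2⟩)
    · omega
    · have := h2 g1; omega
  · unfold Win.fill
    rw [if_pos (by omega)]

/-- a tile to the right of the window -/
lemma outV_rgt (H : Pos D τ) (h0 : 0 ≤ y) (h1 : y < D.h) (h2 : D.w ≤ x) :
    OutV D τ x y (D.cr y) := by
  have hh := D.hh
  have := D.aw y h0 h1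
  refine ⟨fun h => ?_, fun h => ?_, fun h => ?_, ?_⟩
  · have := h.z H; omega
  · have := h.z H; omega
  · have := h.z H; omega
  · unfold Win.fill
    rw [if_neg (by omega), if_neg (by omega), if_neg (by omega)]

end gen

/-! ### The window near a mark -/

lemma nt_iff {n : ℤ} (hn : 0 < n) {Y j : ℤ} (h0 : 0 ≤ j) (h1 : j < n) : C.Nt n (n * Y + j) ↔
    C.CL Y = false ∧ ((j = 0 ∧ 0 < Y ∧ C.A (Y - 1) < C.A Y) ∨
      (j = n - 1 ∧ Y + 1 < C.H ∧ C.A (Y + 1) < C.A Y)) := by
  have e1 : (n * Y + j) / n = Y := Pool.Agent.H54.W.ediv_eq hn (by omega) (by omega)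
  have e2 : (n * Y + j) % n = j := by
    rw [Int.mul_add_emod_self_left, Int.emod_eq_of_lt h0 h1]
  unfold CD.Nt
  rw [e1, e2]

lemma wa_row {n : ℤ} (hn : 0 < n) {Y j : ℤ} (h0 : 0 ≤ j) (h1 : j < n) :
    (C.Nt n (n * Y + j) ∧ C.wa n (n * Y + j) = n * C.A Y - 1) ∨
      (¬ C.Nt n (n * Y + j) ∧ C.wa n (n * Y + j) = n * C.A Y) := by
  have e1 : (n * Y + j) / n = Y := Pool.Agent.H54.W.ediv_eq hn (by omega) (by omega)
  have := C.wa_cases n (n * Y + j)
  rwa [e1] at this

/-- **the window near a left mark** whose lower colour is closed -/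
structure NearM (C : CD) (n k : ℤ) : Prop where
  /-- rows next to the mark -/
  ge : ∀ y, n * k - 2 ≤ y → y ≤ n * k + 1 → 0 ≤ y → y < n * C.H → n * C.cX k ≤ C.wa n y
  /-- room above the mark -/
  up : C.Dp k → k < C.H ∧ C.wa n (n * k) = n * C.cX k
  /-- room below the mark -/
  dn : ¬ C.Dp k → 0 < k ∧ C.wa n (n * k - 1) = n * C.cX k
  /-- the ceiling -/
  far : ¬ C.Dp k → ∀ y, n * k ≤ y → y ≤ n * k + 2 → y < n * C.H → n * C.cX k + 4 ≤ C.wa n y

theorem nearM {n : ℤ} (hn : 8 ≤ n) {k : ℤ} (h0 : 0 ≤ k) (h1 : k ≤ C.H) (hc : C.cLo k ≠ C.cUp k) :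
    NearM C n k := by
  have hp : 0 < n := by omega
  have hH := C.H0
  -- the rows `n k - 2`, `n k - 1`
  have L : ∀ j, j = 1 ∨ j = 2 → 0 < k → (n * k - j = n * (k - 1) + (n - j)) := by
    intro j _ _; ring
  have kH : k < C.H → n * k + n ≤ n * C.H := fun h => CD.mul_lt hp h
  have k0 : 0 < k → n ≤ n * k := fun h => by nlinarith
  by_cases c0 : k = 0
  · subst c0
    have eD : C.Dp 0 := ⟨hH, Or.inl rfl⟩
    have eX : C.cX 0 = C.A 0 := by unfold CD.cX; rw [if_pos rfl]
    have w0 : ∀ j, 0 ≤ j → j < n - 1 → C.wa n (n * 0 + j) = n * C.A 0 := by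
      intro j a b
      rcases wa_row (C := C) hp (Y := 0) a (by omega : j < n) with ⟨c, e⟩ | ⟨-, e⟩
      · rw [nt_iff hp a (by omega)] at c; omega
      · exact e
    refine ⟨fun y a b c d => ?_, fun _ => ⟨hH, ?_⟩, fun h => absurd eD h, fun h => absurd eD h⟩
    · have := w0 y c (by omega)
      rw [mul_zero, zero_add] at this
      rw [this, eX]
    · have := w0 0 le_rfl (by omega)
      rw [add_zero] at this
      rw [this, eX]
  by_cases cH : k = C.H
  · subst cH
    have eD : ¬ C.Dp C.H := fun h => lt_irrefl _ h.1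
    have eX : C.cX C.H = C.A (C.H - 1) := by unfold CD.cX; rw [if_neg c0, if_pos rfl]
    have w0 : ∀ j, 0 < j → j < n → C.wa n (n * (C.H - 1) + j) = n * C.A (C.H - 1) := by
      intro j a b
      rcases wa_row (C := C) hp (Y := C.H - 1) a.le b with ⟨c, e⟩ | ⟨-, e⟩
      · rw [nt_iff hp a.le b] at c; omega
      · exact e
    refine ⟨fun y a b c d => ?_, fun h => absurd h eD, fun _ => ⟨hH, ?_⟩, fun _ y a b c => by omega⟩
    · have := w0 (y - n * (C.H - 1)) (by rw [mul_sub, mul_one]; omega) (by rw [mul_sub, mul_one]; omega)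
      rw [show n * (C.H - 1) + (y - n * (C.H - 1)) = y by ring] at this
      rw [this, eX]
    · have := w0 (n - 1) (by omega) (by omega)
      rw [show n * (C.H - 1) + (n - 1) = n * C.H - 1 by ring] at this
      rw [this, eX]
  have ne : C.A (k - 1) ≠ C.A k := by
    intro h
    apply hc
    have := C.sc (k - 1) (by omega) (by omega) (by rw [sub_add_cancel]; exact h)
    unfold CD.cLo CD.cUp
    rw [if_neg c0, if_neg cH, this, sub_add_cancel]
  have eX : C.cX k = min (C.A (k - 1)) (C.A k) := by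
    unfold CD.cX; rw [if_neg c0, if_neg cH]
  have r1 := wa_row (C := C) hp (Y := k - 1) (j := n - 1) (by omega) (by omega)
  have r2 := wa_row (C := C) hp (Y := k - 1) (j := n - 2) (by omega) (by omega)
  have s0 := wa_row (C := C) hp (Y := k) (j := 0) (by omega) (by omega)
  have s1 := wa_row (C := C) hp (Y := k) (j := 1) (by omega) (by omega)
  have s2 := wa_row (C := C) hp (Y := k) (j := 2) (by omega) (by omega)
  rw [nt_iff hp (by omega) (by omega)] at r1 r2 s0 s1 s2
  rw [sub_add_cancel] at r1 r2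
  rw [show n * (k - 1) + (n - 1) = n * k - 1 by ring] at r1
  rw [show n * (k - 1) + (n - 2) = n * k - 2 by ring] at r2
  rw [add_zero] at s0
  have K0 := k0 (by omega)
  have KH := kH (by omega)
  rcases lt_or_gt_of_ne ne with h | h
  · -- rise
    have hm := CD.mul_lt (n := n) hp h
    have eX' : C.cX k = C.A (k - 1) := by rw [eX]; exact min_eq_left h.le
    have eD : ¬ C.Dp k := fun h' => by have := h'.2; omega
    have a1 : C.wa n (n * k - 1) = n * C.A (k - 1) := by
      rcases r1 with ⟨c, e⟩ | ⟨-, e⟩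
      · omega
      · exact e
    have a2 : C.wa n (n * k - 2) = n * C.A (k - 1) := by
      rcases r2 with ⟨c, e⟩ | ⟨-, e⟩
      · omega
      · exact e
    have b0 : n * C.A k - 1 ≤ C.wa n (n * k) := by rcases s0 with ⟨c, e⟩ | ⟨-, e⟩ <;> omega
    have b1 : n * C.A k - 1 ≤ C.wa n (n * k + 1) := by rcases s1 with ⟨c, e⟩ | ⟨-, e⟩ <;> omega
    have b2 : n * C.A k - 1 ≤ C.wa n (n * k + 2) := by rcases s2 with ⟨c, e⟩ | ⟨-, e⟩ <;> omega
    refine ⟨fun y a b c d => ?_, fun h => absurd h eD, fun _ => ⟨by omega, ?_⟩, fun _ y a b c => ?_⟩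
    · rw [eX']
      have : y = n * k - 2 ∨ y = n * k - 1 ∨ y = n * k ∨ y = n * k + 1 := by omega
      rcases this with rfl | rfl | rfl | rfl <;> omega
    · rw [eX']; exact a1
    · rw [eX']
      have : y = n * k ∨ y = n * k + 1 ∨ y = n * k + 2 := by omega
      rcases this with rfl | rfl | rfl <;> omega
  · -- drop
    have hm := CD.mul_lt (n := n) hp h
    have eX' : C.cX k = C.A k := by rw [eX]; exact min_eq_right h.le
    have eD : C.Dp k := ⟨by omega, Or.inr h⟩
    have a1 : n * C.A (k - 1) - 1 ≤ C.wa n (n * k - 1) := by rcases r1 with ⟨c, e⟩ | ⟨-, e⟩ <;> omega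
    have a2 : n * C.A (k - 1) - 1 ≤ C.wa n (n * k - 2) := by rcases r2 with ⟨c, e⟩ | ⟨-, e⟩ <;> omega
    have b0 : C.wa n (n * k) = n * C.A k := by
      rcases s0 with ⟨c, e⟩ | ⟨-, e⟩
      · omega
      · exact e
    have b1 : C.wa n (n * k + 1) = n * C.A k := by
      rcases s1 with ⟨c, e⟩ | ⟨-, e⟩
      · omega
      · exact e
    refine ⟨fun y a b c d => ?_, fun _ => ⟨by omega, ?_⟩, fun h => absurd eD h, fun h => absurd eD h⟩
    · rw [eX']
      have : y = n * k - 2 ∨ y = n * k - 1 ∨ y = n * k ∨ y = n * k + 1 := by omega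
      rcases this with rfl | rfl | rfl | rfl <;> omega
    · rw [eX']; exact b0

/-! ### The path to a left mark -/

section left

variable {k : ℤ}

lemma box_of (h1 : B.X1 ≤ x) (h2 : x < B.X2) (h3 : B.Y1 ≤ y) (h4 : y < B.Y2) : (ow θ B).Box x y :=
  ⟨h1, h2, h3, h4⟩

/-- upper side of the interface of a left mark -/
lemma left_up (H : Pos (DB B cr) τ) (M : NearM C B.n k) (h0 : 0 ≤ k) (h1 : k ≤ C.H) {p : Bool}
    (cu : C.cUp k = p) (hx : x < B.n * C.cX k - 1) : OutV (DB B cr) τ x (B.n * k) p := by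
  have hn := B.hn
  have hp := B.n0
  have hH := C.H0
  have hk : 0 ≤ B.n * k := mul_nonneg hp.le h0
  have lo : ∀ y, B.n * k - 2 ≤ y → y ≤ B.n * k + 1 → 0 ≤ y → y < B.n * C.H →
      B.n * C.cX k ≤ (DB B cr).a y ∧ B.n * C.cX k ≤ τ y := fun y a b c d => by
    have e1 := M.ge y a b c d
    have e2 : C.wa B.n y ≤ τ y := H.lo y c d
    exact ⟨e1, e1.trans e2⟩
  by_cases e : k = C.H
  · subst e
    have e1 : C.CT = p := by unfold CD.cUp at cu; rwa [if_pos rfl] at cu
    subst e1
    have e2 : 1 ≤ B.n * C.H := by have := CD.mul_lt (n := B.n) hp hH; rw [mul_zero] at this; omega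
    refine outV_top le_rfl fun _ => ?_
    have := lo (B.n * C.H - 1) (by omega) (by omega) (by omega) (by omega)
    show x < τ (B.n * C.H - 1) - 1
    omega
  · have e1 : C.CL k = p := by unfold CD.cUp at cu; rwa [if_neg e] at cu
    have e2 : B.n * k + B.n ≤ B.n * C.H := CD.mul_lt hp (by omega)
    have e3 : B.n * k / B.n = k := Int.mul_ediv_cancel_left _ hp.ne'
    have := outV_row (D := DB B cr) (x := x) (y := B.n * k) H hk (show B.n * k < B.n * C.H by omega)
      (by have := lo (B.n * k) (by omega) (by omega) hk (by omega); omega)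
      (fun h => by have := lo (B.n * k - 1) (by omega) (by omega) (by omega) (by omega); omega)
      (fun h => by have := lo (B.n * k + 1) (by omega) (by omega) (by omega) h; omega)
    rwa [show (DB B cr).cl (B.n * k) = C.CL (B.n * k / B.n) from rfl, e3, e1] at this

/-- lower side of the interface of a left mark -/
lemma left_lo (H : Pos (DB B cr) τ) (M : NearM C B.n k) (h0 : 0 ≤ k) (h1 : k ≤ C.H) {p : Bool}
    (cu : C.cLo k = p) (hx : x < B.n * C.cX k - 1) : OutV (DB B cr) τ x (B.n * k - 1) p := by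
  have hn := B.hn
  have hp := B.n0
  have hH := C.H0
  have hk : 0 ≤ B.n * k := mul_nonneg hp.le h0
  have hkH : B.n * k ≤ B.n * C.H := mul_le_mul_of_nonneg_left h1 hp.le
  have lo : ∀ y, B.n * k - 2 ≤ y → y ≤ B.n * k + 1 → 0 ≤ y → y < B.n * C.H →
      B.n * C.cX k ≤ (DB B cr).a y ∧ B.n * C.cX k ≤ τ y := fun y a b c d => by
    have e1 := M.ge y a b c d
    have e2 : C.wa B.n y ≤ τ y := H.lo y c d
    exact ⟨e1, e1.trans e2⟩
  by_cases e : k = 0
  · subst e
    have e1 : C.CB = p := by unfold CD.cLo at cu; rwa [if_pos rfl] at cu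
    subst e1
    have e2 : 1 ≤ B.n * C.H := by have := CD.mul_lt (n := B.n) hp hH; rw [mul_zero] at this; omega
    rw [mul_zero] at lo ⊢
    refine outV_bot (by omega) (fun _ => Or.inl ?_) (H.hi 0 le_rfl (show (0 : ℤ) < B.n * C.H by omega))
    have := lo 0 (by omega) (by omega) (by omega) (by omega)
    omega
  · have e1 : C.CL (k - 1) = p := by unfold CD.cLo at cu; rwa [if_neg e] at cu
    have e2 : B.n * (k - 1) + B.n ≤ B.n * C.H := CD.mul_lt hp (by omega)
    have e4 : B.n ≤ B.n * k := le_mul_of_one_le_right hp.le (by omega)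
    have e3 : (B.n * k - 1) / B.n = k - 1 := Pool.Agent.H54.W.ediv_eq hp
      (by rw [mul_sub, mul_one]; omega) (by rw [mul_sub, mul_one]; omega)
    have := outV_row (D := DB B cr) (x := x) (y := B.n * k - 1) H (by omega)
      (show B.n * k - 1 < B.n * C.H by omega)
      (by have := lo (B.n * k - 1) (by omega) (by omega) (by omega) (by omega); omega)
      (fun h => by have := lo (B.n * k - 1 - 1) (by omega) (by omega) (by omega) (by omega); omega)
      (fun h => by
        have := lo (B.n * k - 1 + 1) (by omega) (by omega) (by omega) h; omega)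
    rwa [show (DB B cr).cl (B.n * k - 1) = C.CL ((B.n * k - 1) / B.n) from rfl, e3, e1] at this

lemma bk_left (h0 : 0 ≤ k) (h1 : k ≤ C.H) : bk B k = sv B.X1 (B.n * k) (C.cLo k) := by
  rw [sv_eq_lah]
  unfold bk
  rw [Pool.Agent.H54.W.neK_mid h0 h1]
  rfl

lemma bk_right : bk B (-1) = sv B.X2 0 C.CB := by
  rw [sv_eq_lah]
  unfold bk
  rw [Pool.Agent.H54.W.neK_neg (by omega)]
  rfl

lemma X1_cX (h0 : 0 ≤ k) (h1 : k ≤ C.H) : B.X1 + 2 ≤ B.n * C.cX k ∧ B.n * C.cX k < B.n * C.W := by
  have hp := B.n0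
  have h3 := B.x1
  have hH := C.H0
  have h4 : C.LO ≤ C.cX k ∧ C.cX k < C.W := by
    unfold CD.cX
    split_ifs with e1 e2
    · exact ⟨C.lo 0 le_rfl C.H0, C.AW 0 le_rfl C.H0⟩
    · exact ⟨C.lo (C.H - 1) (by omega) (by omega), C.AW (C.H - 1) (by omega) (by omega)⟩
    · exact ⟨le_min (C.lo _ (by omega) (by omega)) (C.lo _ h0 (by omega)),
        (min_le_right _ _).trans_lt (C.AW _ h0 (by omega))⟩
  have h5 : B.n * C.LO ≤ B.n * C.cX k := mul_le_mul_of_nonneg_left h4.1 hp.le
  have h6 := CD.mul_lt hp h4.2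
  omega

/-- **from the left side of the box to the corner** of a mark, closed below -/
theorem left_fw (H : Pos (DB B cr) τ) (M : NearM C B.n k) (h0 : 0 ≤ k) (h1 : k ≤ C.H)
    (cl : C.cLo k = false) (cu : C.cUp k = true) :
    Fw ((DB B cr).WJ τ (Wo θ B (DB B cr) (DB B cr).fill)) (NR (DB B cr) τ B.r) (bk B k)
      (ve (B.n * C.cX k - 1, B.n * k)) := by
  have hp := B.n0
  have hX := X1_cX (B := B) h0 h1
  have a2 := B.x2; have a3 := B.y1; have a4 := B.y2
  have hk : 0 ≤ B.n * k := mul_nonneg hp.le h0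
  have hkH : B.n * k ≤ B.n * C.H := mul_le_mul_of_nonneg_left h1 hp.le
  have up : ∀ x, B.X1 ≤ x → x < B.n * C.cX k - 1 →
      Bt ((DB B cr).WJ τ (Wo θ B (DB B cr) (DB B cr).fill)) (NR (DB B cr) τ B.r) x (B.n * k) :=
    fun x a b => (left_up H M h0 h1 cu b).bt H (box_of a (by omega) (by omega) (by omega))
      (fun h => by have h' : x = B.n * C.W := h; omega)
  have dn : ∀ x, B.X1 ≤ x → x < B.n * C.cX k - 1 →
      Wt ((DB B cr).WJ τ (Wo θ B (DB B cr) (DB B cr).fill)) (NR (DB B cr) τ B.r) x (B.n * k - 1) :=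
    fun x a b => (left_lo H M h0 h1 cl b).wt H (box_of a (by omega) (by omega) (by omega))
      (fun h => by have h' : x = B.n * C.W := h; omega)
  have ev : (B.n * C.cX k + B.n * k) % 2 = 0 := by
    rw [← mul_add, Int.mul_emod, B.he]; simp
  rw [bk_left h0 h1, cl]
  refine (svE_out (up _ le_rfl (by omega)) (dn _ le_rfl (by omega))).trans ?_
  have r := runE (w := (DB B cr).WJ τ (Wo θ B (DB B cr) (DB B cr).fill)) (S := NR (DB B cr) τ B.r)
    (y := B.n * k) (x0 := B.X1) (x1 := B.n * C.cX k - 1 - 1) (by omega)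
    (fun x a b => up x a (by omega)) (fun x a b => dn x a (by omega))
  refine r.trans ?_
  have s := svE_in (X := B.n * C.cX k - 1) (Y := B.n * k) (up (B.n * C.cX k - 1 - 1) (by omega)
    (by omega)) (dn (B.n * C.cX k - 1 - 1) (by omega) (by omega))
  rwa [sv_false_odd (by omega)] at s

end left

/-! ### The first random tile -/

/-- **the first random tile on the path of the target corner** -/
def emT (θ : Th C c0) (B : BP C c0) (τ : ℤ → ℤ) : ℤ × ℤ :=
  if (pq θ).1 < 0 then (B.n * C.W - 1, 0)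
  else if C.Dp (pq θ).1 then (B.n * C.cX (pq θ).1 - 1, B.n * (pq θ).1)
  else if τ (B.n * (pq θ).1 - 1) = B.n * C.cX (pq θ).1 then (B.n * C.cX (pq θ).1, B.n * (pq θ).1)
  else (B.n * C.cX (pq θ).1 - 1, B.n * (pq θ).1 - 1)

/-- colours at the mark `(pq θ).1` -/
lemma pq_col (θ : Th C c0) (B : BP C c0) : Pool.Agent.H20.W.col C c0 (pq θ).1 = false ∧
    Pool.Agent.H20.W.col C c0 ((pq θ).1 + 1) = true := by
  have h := lc_pq (θ := θ) (B := B)
  have h1 := pq_mk (θ := θ)
  have h2 := B.lc_hgt (k := (pq θ).1) ⟨h1.1.1, h1.1.2.1⟩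
  have h3 : Pool.Agent.H20.W.col C c0 ((pq θ).1 + 1) = true := by rw [← h2]; exact h
  refine ⟨?_, h3⟩
  have h4 := h1.1.2.2
  rw [h3] at h4
  simpa using h4

/-- the mark `(pq θ).1` is a left mark or the lower right corner -/
lemma pq_cases (θ : Th C c0) (B : BP C c0) : ((pq θ).1 = -1 ∧ c0 = false ∧ C.CB = true) ∨
    (0 ≤ (pq θ).1 ∧ (pq θ).1 ≤ C.H ∧ C.cLo (pq θ).1 = false ∧ C.cUp (pq θ).1 = true) := by
  obtain ⟨h1, h2⟩ := pq_col θ B
  have h3 := pq_mk (θ := θ)
  have h4 := pq_lt (θ := θ)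
  have h5 := h3.1.1
  have h6 := h3.2.2.1
  have hH := C.H0
  by_cases h : (pq θ).1 < 0
  · left
    have e : (pq θ).1 = -1 := by omega
    rw [e] at h1 h2
    refine ⟨e, ?_, ?_⟩
    · unfold Pool.Agent.H20.W.col at h1
      rwa [if_pos (by omega)] at h1
    · unfold Pool.Agent.H20.W.col at h2
      rwa [if_neg (by omega), if_pos (by omega)] at h2
  · right
    have a : 0 ≤ (pq θ).1 := by omega
    have b : (pq θ).1 ≤ C.H := by omega
    rw [Pool.Agent.H54.W.col_lo a b] at h1
    rw [Pool.Agent.H54.W.col_up a b] at h2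
    exact ⟨a, b, h1, h2⟩

lemma pq_near (θ : Th C c0) (B : BP C c0) (h : 0 ≤ (pq θ).1) : NearM C B.n (pq θ).1 := by
  rcases pq_cases θ B with h1 | h1
  · omega
  · exact nearM B.hn h1.1 h1.2.1 (by rw [h1.2.2.1, h1.2.2.2]; decide)

/-- the first random tile is random -/
theorem emT_InE (θ : Th C c0) (B : BP C c0) (H : Pos (DB B cr) τ) :
    (DB B cr).InE τ (emT θ B τ).1 (emT θ B τ).2 := by
  have hp := B.n0
  have hn := B.hn
  have hH := CD.mul_lt (n := B.n) hp C.H0
  rw [mul_zero, zero_add] at hH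
  unfold emT
  rcases pq_cases θ B with ⟨h1, h2, h3⟩ | ⟨h0, h1, h2, h3⟩
  · rw [if_pos (by omega)]
    left
    have := (DB B cr).aw 0 le_rfl (show (0 : ℤ) < B.n * C.H by omega)
    exact ⟨le_rfl, show (0 : ℤ) < B.n * C.H by omega, show (DB B cr).a 0 - 1 ≤ B.n * C.W - 1 by
      have e : (DB B cr).w = B.n * C.W := rfl
      omega, show B.n * C.W - 1 < B.n * C.W by omega⟩
  · have M := pq_near θ B h0
    have hX := X1_cX (B := B) h0 h1
    have hk : 0 ≤ B.n * (pq θ).1 := mul_nonneg hp.le h0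
    have hkH : B.n * (pq θ).1 ≤ B.n * C.H := mul_le_mul_of_nonneg_left h1 hp.le
    rw [if_neg (by omega)]
    split_ifs with c1 c2
    · obtain ⟨k1, k2⟩ := M.up c1
      have := CD.mul_lt (n := B.n) hp k1
      left
      exact ⟨hk, show B.n * (pq θ).1 < B.n * C.H by omega,
        show C.wa B.n (B.n * (pq θ).1) - 1 ≤ B.n * C.cX (pq θ).1 - 1 by omega,
        show B.n * C.cX (pq θ).1 - 1 < B.n * C.W by omega⟩
    · obtain ⟨k1, k2⟩ := M.dn c1
      have := CD.mul_lt (n := B.n) hp k1
      rw [mul_zero, zero_add] at this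
      by_cases e : (pq θ).1 = C.H
      · right; right; right; right
        rw [e] at c2 ⊢
        exact ⟨rfl, c2.le, show B.n * C.cX C.H < B.n * C.W by rw [← e]; omega⟩
      · right; left
        have h5 := CD.mul_lt (n := B.n) hp (show (pq θ).1 < C.H by omega)
        have h6 := M.far c1 (B.n * (pq θ).1) le_rfl (by omega) (by omega)
        have h7 : C.wa B.n (B.n * (pq θ).1) ≤ τ (B.n * (pq θ).1) :=
          H.lo _ hk (show B.n * (pq θ).1 < B.n * C.H by omega)
        exact ⟨by show 0 < B.n * (pq θ).1; omega, show B.n * (pq θ).1 < B.n * C.H by omega,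
          c2.le, show B.n * C.cX (pq θ).1 < τ (B.n * (pq θ).1) - 1 by omega⟩
    · obtain ⟨k1, k2⟩ := M.dn c1
      have := CD.mul_lt (n := B.n) hp k1
      rw [mul_zero, zero_add] at this
      left
      exact ⟨show 0 ≤ B.n * (pq θ).1 - 1 by omega, show B.n * (pq θ).1 - 1 < B.n * C.H by omega,
        show C.wa B.n (B.n * (pq θ).1 - 1) - 1 ≤ B.n * C.cX (pq θ).1 - 1 by omega,
        show B.n * C.cX (pq θ).1 - 1 < B.n * C.W by omega⟩

/-- **All tiles before `emT` on the path of the target corner are fixed.** -/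
theorem ctW_emT (θ : Th C c0) (B : BP C c0) (H : Pos (DB B cr) τ)
    (hin : ∀ x y, (DB B cr).InZ x y → (ow θ B).Box x y) (hcr : c0 = false → cr 0 = false) :
    ∃ c, Fw ((DB B cr).WJ τ (Wo θ B (DB B cr) (DB B cr).fill)) (NR (DB B cr) τ B.r) (ctW θ B) c ∧
      lab c = lt (emT θ B τ) := by
  have hp := B.n0
  have hn := B.hn
  have hH := CD.mul_lt (n := B.n) hp C.H0
  rw [mul_zero, zero_add] at hH
  have a2 := B.x2; have a3 := B.y1; have a4 := B.y2
  -- outside of the box
  have hf : (ow θ B).Full ((DB B cr).WJ τ (Wo θ B (DB B cr) (DB B cr).fill)) := by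
    have := full_WJ (θ := θ) (B := B) (D := DB B cr) (f := (DB B cr).fill) hin τ
      (ω := ∅) (empty_subset _)
    rwa [empty_union] at this
  have r0 := B.r0
  have r1 := B.r1
  have hoz : OZ B ⊆ NR (DB B cr) τ B.r := by
    intro e he
    refine ⟨fun h => ?_, fun h => ?_⟩
    · obtain ⟨x, y, rfl⟩ := exists_lt (Win.odd_EJ h)
      exact he (mem_Zb.2 (hin _ _ (((mem_EJ H).1 h).inZ H)))
    · rw [h] at he
      refine he (mem_Zb.2 (hin _ _ ?_))
      have e1 := (DB B cr).hlo 0 le_rfl (show (0 : ℤ) < B.n * C.H by omega)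
      have e2 := (DB B cr).aw 0 le_rfl (show (0 : ℤ) < B.n * C.H by omega)
      exact ⟨by omega, le_rfl, by omega, show B.r ≤ B.n * C.H + 1 by omega⟩
  have h0 := ((tgt_fw hf).2).mono hoz
  rcases pq_cases θ B with ⟨h1, h2, h3⟩ | ⟨k0, k1, h2, h3⟩
  · -- the lower right corner
    have eT : emT θ B τ = (B.n * C.W - 1, 0) := by unfold emT; rw [if_pos (by omega)]
    have hA : (DB B cr).a 0 + 2 ≤ B.n * C.W := (DB B cr).aw 0 le_rfl (show (0 : ℤ) < B.n * C.H by omega)
    have hX1 : B.X1 ≤ B.n * C.W := by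
      have := B.x1
      have h5 : B.n * C.LO ≤ B.n * C.W :=
        mul_le_mul_of_nonneg_left ((C.lo 0 le_rfl C.H0).trans (C.AW 0 le_rfl C.H0).le) hp.le
      omega
    have up : ∀ x, B.n * C.W ≤ x → x < B.X2 →
        Wt ((DB B cr).WJ τ (Wo θ B (DB B cr) (DB B cr).fill)) (NR (DB B cr) τ B.r) x 0 :=
      fun x a b => by
        have h6 := outV_rgt (D := DB B cr) (x := x) (y := 0) H le_rfl
          (show (0 : ℤ) < B.n * C.H by omega) a
        rw [show (DB B cr).cr 0 = false from hcr h2] at h6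
        exact h6.wt H (box_of (by omega) b (by omega) (by omega)) (fun _ => by omega)
    have dn : ∀ x, B.n * C.W ≤ x → x < B.X2 →
        Bt ((DB B cr).WJ τ (Wo θ B (DB B cr) (DB B cr).fill)) (NR (DB B cr) τ B.r) x (0 - 1) :=
      fun x a b => by
        have h6 := outV_bot (D := DB B cr) (τ := τ) (x := x) (y := 0 - 1) (by omega)
          (fun _ => Or.inr a) (H.hi 0 le_rfl (show (0 : ℤ) < B.n * C.H by omega))
        rw [show (DB B cr).cb = true from h3] at h6
        exact h6.bt H (box_of (by omega) b (by omega) (by omega)) (fun _ => by omega)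
    have ev : (B.n * C.W + 0) % 2 = 0 := by
      rw [add_zero, Int.mul_emod, B.he]; simp
    rw [h1, bk_right, h3] at h0
    refine ⟨ve (B.n * C.W, 0), h0.trans ?_, ?_⟩
    · refine (svW_out (up (B.X2 - 1) (by omega) (by omega)) (dn (B.X2 - 1) (by omega) (by omega))).trans ?_
      refine (runW (x0 := B.n * C.W) (x1 := B.X2 - 1) (by omega) (fun x a b => dn x a (by omega))
        (fun x a b => up x a (by omega))).trans ?_
      have := svW_in (up (B.n * C.W) le_rfl (by omega)) (dn (B.n * C.W) le_rfl (by omega))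
      rwa [sv_true_even ev] at this
    · rw [eT, lab_ve_W ev]
  · have M := pq_near θ B k0
    have hX := X1_cX (B := B) k0 k1
    have h4 := h0.trans (left_fw H M k0 k1 h2 h3)
    have ev : (B.n * C.cX (pq θ).1 + B.n * (pq θ).1) % 2 = 0 := by
      rw [← mul_add, Int.mul_emod, B.he]; simp
    have o1 : (B.n * C.cX (pq θ).1 - 1 + B.n * (pq θ).1) % 2 = 1 := by omega
    have hk : 0 ≤ B.n * (pq θ).1 := mul_nonneg hp.le k0
    have hkH : B.n * (pq θ).1 ≤ B.n * C.H := mul_le_mul_of_nonneg_left k1 hp.le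
    by_cases c1 : C.Dp (pq θ).1
    · refine ⟨_, h4, ?_⟩
      unfold emT
      rw [if_neg (by omega), if_pos c1, lab_ve_E o1]
    obtain ⟨d1, d2⟩ := M.dn c1
    have hk1 := CD.mul_lt (n := B.n) hp d1
    rw [mul_zero, zero_add] at hk1
    have t1 : B.n * C.cX (pq θ).1 ≤ τ (B.n * (pq θ).1 - 1) := by
      have : C.wa B.n (B.n * (pq θ).1 - 1) ≤ τ (B.n * (pq θ).1 - 1) :=
        H.lo _ (by omega) (show B.n * (pq θ).1 - 1 < B.n * C.H by omega)
      omega
    -- fixed tiles above the mark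
    have far : ∀ y, B.n * (pq θ).1 ≤ y → y ≤ B.n * (pq θ).1 + 2 → y < B.n * C.H →
        B.n * C.cX (pq θ).1 + 4 ≤ (DB B cr).a y ∧ B.n * C.cX (pq θ).1 + 4 ≤ τ y := fun y a b c => by
      have e1 : B.n * C.cX (pq θ).1 + 4 ≤ (DB B cr).a y := M.far c1 y a b c
      exact ⟨e1, e1.trans (H.lo y (by omega) c)⟩
    have key : ∀ x j, x ≤ B.n * C.cX (pq θ).1 → B.X1 ≤ x → (j = 0 ∨ j = 1) →
        (j = 0 → x < τ (B.n * (pq θ).1 - 1) - 1) →
        Bt ((DB B cr).WJ τ (Wo θ B (DB B cr) (DB B cr).fill)) (NR (DB B cr) τ B.r) x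
          (B.n * (pq θ).1 + j) := by
      intro x j hx hx1 hj hj0
      have hb : (ow θ B).Box x (B.n * (pq θ).1 + j) :=
        box_of hx1 (by omega) (by omega) (by omega)
      by_cases e : (pq θ).1 = C.H
      · have e1 : C.CT = true := by rw [e] at h3; unfold CD.cUp at h3; rwa [if_pos rfl] at h3
        have o := outV_top (D := DB B cr) (τ := τ) (x := x) (y := B.n * (pq θ).1 + j)
          (show B.n * C.H ≤ B.n * (pq θ).1 + j by rw [e]; omega) (fun h => by
            have h' : B.n * (pq θ).1 + j = B.n * C.H := h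
            have := hj0 (by rw [e] at h'; omega)
            rw [e] at this
            exact this)
        rw [show (DB B cr).ct = true from e1] at o
        exact o.bt H hb (fun h => by have h' : x = B.n * C.W := h; omega)
      · have e1 : C.CL (pq θ).1 = true := by unfold CD.cUp at h3; rwa [if_neg e] at h3
        have e2 := CD.mul_lt (n := B.n) hp (show (pq θ).1 < C.H by omega)
        have e3 : (B.n * (pq θ).1 + j) / B.n = (pq θ).1 :=
          Pool.Agent.H54.W.ediv_eq hp (by omega) (by omega)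
        have o := outV_row (D := DB B cr) (x := x) (y := B.n * (pq θ).1 + j) H (by omega)
          (show B.n * (pq θ).1 + j < B.n * C.H by omega)
          (by have := far (B.n * (pq θ).1 + j) (by omega) (by omega) (by omega); omega)
          (fun h => by
            rcases hj with rfl | rfl
            · rw [add_zero]; exact hj0 rfl
            · have := far (B.n * (pq θ).1) le_rfl (by omega) (by omega)
              rw [add_sub_cancel_right]; omega)
          (fun h => by
            have := far (B.n * (pq θ).1 + j + 1) (by omega) (by omega) h; omega)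
        rw [show (DB B cr).cl (B.n * (pq θ).1 + j) = C.CL ((B.n * (pq θ).1 + j) / B.n) from rfl,
          e3, e1] at o
        exact o.bt H hb (fun h => by have h' : x = B.n * C.W := h; omega)
    by_cases c2 : τ (B.n * (pq θ).1 - 1) = B.n * C.cX (pq θ).1
    · -- the turn tile
      have ta : (DB B cr).TA τ (B.n * C.cX (pq θ).1 - 1) (B.n * (pq θ).1) := by
        by_cases e : (pq θ).1 = C.H
        · right
          refine ⟨show B.n * (pq θ).1 = B.n * C.H by rw [e], ?_⟩
          show B.n * C.cX (pq θ).1 - 1 = τ (B.n * C.H - 1) - 1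
          rw [← c2, e]
        · left
          have e2 := CD.mul_lt (n := B.n) hp (show (pq θ).1 < C.H by omega)
          have := far (B.n * (pq θ).1) le_rfl (by omega) (by omega)
          exact ⟨by omega, show B.n * (pq θ).1 < B.n * C.H by omega, by rw [c2]; omega,
            by rw [c2]⟩
      have s1 := stEc o1 (wt_TA (θ := θ) (B := B) (r := B.r) H ta o1)
      have s2 := stNo (w := (DB B cr).WJ τ (Wo θ B (DB B cr) (DB B cr).fill)) (S := NR (DB B cr) τ B.r)
        (x := B.n * C.cX (pq θ).1 - 1) (y := B.n * (pq θ).1 + 1) (by omega)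
        (key _ 1 (by omega) (by omega) (Or.inr rfl) (by omega))
      rw [sub_add_cancel] at s2
      have s3 := stEo (w := (DB B cr).WJ τ (Wo θ B (DB B cr) (DB B cr).fill)) (S := NR (DB B cr) τ B.r)
        (x := B.n * C.cX (pq θ).1) (y := B.n * (pq θ).1 + 1) (by omega)
        (key _ 1 le_rfl (by omega) (Or.inr rfl) (by omega))
      refine ⟨_, h4.trans (s1.trans (s2.trans s3)), ?_⟩
      unfold emT
      rw [if_neg (by omega), if_neg c1, if_pos c2, lab_he_S (by omega), add_sub_cancel_right]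
    · have s1 := stEo (w := (DB B cr).WJ τ (Wo θ B (DB B cr) (DB B cr).fill)) (S := NR (DB B cr) τ B.r)
        (x := B.n * C.cX (pq θ).1 - 1) (y := B.n * (pq θ).1) o1 (by
          have := key (B.n * C.cX (pq θ).1 - 1) 0 (by omega) (by omega) (Or.inl rfl) (by omega)
          rwa [add_zero] at this)
      refine ⟨_, h4.trans s1, ?_⟩
      unfold emT
      rw [if_neg (by omega), if_neg c1, if_neg c2, lab_he_S o1]

/-- **`emT` is next to the mark**: the lower right corner, or the corner of a left mark -/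
theorem emT_near (θ : Th C c0) (B : BP C c0) (τ : ℤ → ℤ) :
    ((pq θ).1 = -1 ∧ emT θ B τ = (B.n * C.W - 1, 0)) ∨
    (0 ≤ (pq θ).1 ∧ (pq θ).1 ≤ C.H ∧
      B.n * C.cX (pq θ).1 - 1 ≤ (emT θ B τ).1 ∧ (emT θ B τ).1 ≤ B.n * C.cX (pq θ).1 ∧
      B.n * (pq θ).1 - 1 ≤ (emT θ B τ).2 ∧ (emT θ B τ).2 ≤ B.n * (pq θ).1) := by
  rcases pq_cases θ B with ⟨h1, h2, h3⟩ | ⟨h0, h1, h2, h3⟩
  · left
    refine ⟨h1, ?_⟩
    unfold emT
    rw [if_pos (by omega)]
  · right
    refine ⟨h0, h1, ?_⟩
    unfold emT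
    rw [if_neg (by omega)]
    split_ifs <;> simp only <;> omega

/-- **The first random label in the environment of the window.** -/
theorem em_XJ (θ : Th C c0) (B : BP C c0) (H : Pos (DB B cr) τ)
    (hin : ∀ x y, (DB B cr).InZ x y → (ow θ B).Box x y) (hcr : c0 = false → cr 0 = false) :
    lt (emT θ B τ) ∈ (Win.XJ (outO θ B (DB B cr) (DB B cr).fill hin) τ).E ∧
    ∃ n, (∀ i < n, lab ((Win.XJ (outO θ B (DB B cr) (DB B cr).fill hin) τ).out^[i] (ctW θ B)) ∉
      (Win.XJ (outO θ B (DB B cr) (DB B cr).fill hin) τ).E) ∧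
      lab ((Win.XJ (outO θ B (DB B cr) (DB B cr).fill hin) τ).out^[n] (ctW θ B)) =
        lt (emT θ B τ) := by
  refine ⟨(mem_EJ H).2 (emT_InE θ B H), ?_⟩
  obtain ⟨c, ⟨n, h1, h2⟩, h3⟩ := ctW_emT θ B H hin hcr
  refine ⟨n, fun i hi => (h2 i hi).1, ?_⟩
  rw [← h3, ← h1]
  rfl

end Pool.Agent.H81.W
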