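import Mathlib
import Pool.Agent.H81.W.EmV
import Pool.Agent.H25.W.TrackInc
import Pool.Agent.H76.W.TieE

set_option autoImplicit false
open Finset

/-! # The first random label on the path of the target corner, rotated windows

`emH θ B τ` : the tile `emT` in the frame of the windows with a horizontal line. It is in no cap
(`emH_ETH`), so it is random in the tied environments; `emH_path` : it is the first random label on the path of
the rotated target corner, for every environment with the labels of the tied form and possibly one random label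
in the ceiling (`XTH`, `XTE`). `tgtH`, `labH` : the target corner is outside of the box. -/

namespace Pool.Agent.H81.W

open Pool.Agent.H75.Perc Pool.Agent.H75.TwoArm Pool.Agent.H33.Q1 Pool.Agent.Q1
open Pool.Agent.H74.R45
open Pool.Agent.H54.W (CD Win HWin HOut HPos Out Zb mem_Zb neK Pos)
open Pool.Agent.H54.W.Win (mem_EJ InU InE InZ TA TB RE RW RB RT InO toH_InE toH_InZ pos_toH)
open Pool.Agent.H20.W (Th Mk)
open Pool.Agent.H85.W
open Pool.Agent.H25.W (EH_toH WH_toH pos_of_toH rt_rt lt_rotL mem_rotL rotL_lt)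
open Pool.Agent.H76.W (CPH ETH WTH OTp_subH)
open Pool.Agent.H42.Sp (Sd Ix kt rt kt_odd rt_even OTp)
open Pool.Agent.H69.M6b (lbt)

variable {C : CD} {c0 : Bool} {θ : Th C c0} {B : BP C c0} {cr : ℤ → Bool} {τ : ℤ → ℤ} {x y r : ℤ}

section rot

variable {w w' : Finset (ℤ × ℤ)} {S S' : Set (ℤ × ℤ)} {c c' : ℤ × ℤ}

/-- rotation of a piece of a strand -/
lemma fw_rot (h : Fw w S c c') (hS : ∀ e ∈ S, rotL e ∈ S') (hw : ∀ e ∈ S', e ∈ w.map rotL ↔ e ∈ w') :
    Fw w' S' (rotc c) (rotc c') := by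
  have h1 : Fw (w.map rotL) S' (rotc c) (rotc c') := by
    obtain ⟨n, h1, h2⟩ := h
    refine ⟨n, by rw [SymmAux.nx_rot_iter, h1], fun i hi => ?_⟩
    rw [SymmAux.nx_rot_iter, SymmAux.lab_rot]
    exact hS _ (h2 i hi)
  exact h1.congr hw

end rot

/-- the window in the box, rotated -/
abbrev DH (B : BP C c0) (cr : ℤ → Bool) : HWin := (DB B cr).toH

/-- **the first random tile on the path of the target corner**, rotated -/
def emH (θ : Th C c0) (B : BP C c0) (τ : ℤ → ℤ) : ℤ × ℤ :=
  (-(emT θ B (Win.rt τ)).2 - 1, (emT θ B (Win.rt τ)).1)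

lemma lt_emH (θ : Th C c0) (B : BP C c0) (τ : ℤ → ℤ) :
    lt (emH θ B τ) = rotL (lt (emT θ B (Win.rt τ))) := by
  unfold emH
  have h := rotL_lt (emT θ B (Win.rt τ)).1 (emT θ B (Win.rt τ)).2
  rw [show lt (emT θ B (Win.rt τ)) = lt ((emT θ B (Win.rt τ)).1, (emT θ B (Win.rt τ)).2) from rfl]
  rw [h]

theorem emH_InE (θ : Th C c0) (B : BP C c0) (H : HPos (DH B cr) τ) :
    (DH B cr).InE τ (emH θ B τ).1 (emH θ B τ).2 := by
  have h := emT_InE θ B (pos_of_toH H)
  have h2 := toH_InE (D := DB B cr) (τ := Win.rt τ) (x := (emH θ B τ).1) (y := (emH θ B τ).2)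
  rw [rt_rt] at h2
  rw [h2]
  unfold emH
  simp only
  rwa [show -(-(emT θ B (Win.rt τ)).2 - 1) - 1 = (emT θ B (Win.rt τ)).2 by ring]

/-- **the kinds of the tile `emH`** : at the right end of the ceiling, the bottom tile of a column whose right
neighbour is higher, or a tile of odd parity -/
theorem emH_cases (θ : Th C c0) (B : BP C c0) (τ : ℤ → ℤ) (cr : ℤ → Bool) :
    emH θ B τ = ((DH B cr).q - 1, (DH B cr).w - 1) ∨
    (∃ x, (DH B cr).p ≤ x ∧ x < (DH B cr).q ∧ emH θ B τ = (x, (DH B cr).a x - 1) ∧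
      (DH B cr).c x = true ∧ (x + (DH B cr).a x) % 2 = 1 ∧
      (x + 1 < (DH B cr).q → (DH B cr).a x < (DH B cr).a (x + 1))) ∨
    ((emH θ B τ).1 + (emH θ B τ).2) % 2 = 1 := by
  have hp := B.n0
  have hn := B.hn
  rcases pq_cases θ B with ⟨h1, h2, h3⟩ | ⟨h0, h1, h2, h3⟩
  · left
    unfold emH emT
    rw [if_pos (by omega)]
    rfl
  · have M := pq_near θ B h0
    have ev : (B.n * C.cX (pq θ).1 + B.n * (pq θ).1) % 2 = 0 := by
      rw [← mul_add, Int.mul_emod, B.he]; simp
    have hk : 0 ≤ B.n * (pq θ).1 := mul_nonneg hp.le h0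
    by_cases c1 : C.Dp (pq θ).1
    · right; left
      obtain ⟨k1, k2⟩ := M.up c1
      have hk1 := CD.mul_lt (n := B.n) hp k1
      have e0 : -(-(B.n * (pq θ).1) - 1) - 1 = B.n * (pq θ).1 := by ring
      have ea : (DH B cr).a (-(B.n * (pq θ).1) - 1) = B.n * C.cX (pq θ).1 := by
        show C.wa B.n (-(-(B.n * (pq θ).1) - 1) - 1) = _
        rw [e0, k2]
      refine ⟨-(B.n * (pq θ).1) - 1, show -(B.n * C.H) ≤ -(B.n * (pq θ).1) - 1 by omega,
        show -(B.n * (pq θ).1) - 1 < 0 by omega, ?_, ?_, by rw [ea]; omega, fun h => ?_⟩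
      · unfold emH emT
        rw [if_neg (by omega), if_pos c1, ea]
      · show C.CL ((-(-(B.n * (pq θ).1) - 1) - 1) / B.n) = true
        rw [e0, Int.mul_ediv_cancel_left _ hp.ne']
        unfold CD.cUp at h3
        rwa [if_neg (by omega)] at h3
      · have h' : -(B.n * (pq θ).1) - 1 + 1 < 0 := h
        rw [ea]
        show B.n * C.cX (pq θ).1 < C.wa B.n (-(-(B.n * (pq θ).1) - 1 + 1) - 1)
        rw [show -(-(B.n * (pq θ).1) - 1 + 1) - 1 = B.n * (pq θ).1 - 1 by ring]
        obtain ⟨-, h4⟩ := c1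
        have h5 : (pq θ).1 ≠ 0 := fun h => by rw [h, mul_zero] at h'; omega
        have h6 : C.A (pq θ).1 < C.A ((pq θ).1 - 1) := by
          rcases h4 with h4 | h4
          · exact absurd h4 h5
          · exact h4
        have eX : C.cX (pq θ).1 = C.A (pq θ).1 := by
          unfold CD.cX
          rw [if_neg h5, if_neg (by omega)]
          exact min_eq_right h6.le
        have h7 := CD.mul_lt (n := B.n) hp h6
        have h8 := wa_row (C := C) hp (Y := (pq θ).1 - 1) (j := B.n - 1) (by omega) (by omega)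
        rw [show B.n * ((pq θ).1 - 1) + (B.n - 1) = B.n * (pq θ).1 - 1 by ring] at h8
        rw [eX]
        rcases h8 with ⟨-, e⟩ | ⟨-, e⟩ <;> omega
    · right; right
      unfold emH emT
      rw [if_neg (by omega), if_neg c1]
      split_ifs <;> simp only <;> omega

/-- **`emH` is in no cap, it is random in the tied forms.** -/
theorem emH_ETH (θ : Th C c0) (B : BP C c0) (H : HPos (DH B cr) τ) {P : Finset Ix}
    (hP : ∀ k ∈ P, CPH (DH B cr) τ k) : lt (emH θ B τ) ∈ ETH (DH B cr) τ P := by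
  unfold ETH
  rw [mem_sdiff]
  refine ⟨(HWin.mem_EH H).2 (emH_InE θ B H), fun h => ?_⟩
  obtain ⟨k, hk, h1⟩ := mem_image.1 h
  have h2 := lt_inj h1
  have h3 := rt_even k
  have h4 := hP k hk
  have hh := (DH B cr).hh
  rcases emH_cases θ B τ cr with h5 | ⟨x', a1, a2, a3, a4, a5, a6⟩ | h5
  · -- the right end of the ceiling
    rw [h5] at h2
    obtain ⟨s, x0, y0⟩ := k
    cases s
    · rcases h4 with ⟨b1, b2, b3, b4, b5⟩ | ⟨b1, b2, b3, b4⟩
      · unfold rt at h2; simp only at h2
        split_ifs at h2 <;> simp only [Prod.mk.injEq] at h2 <;> omega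
      · unfold rt at h2; simp only at h2
        split_ifs at h2 <;> simp only [Prod.mk.injEq] at h2 <;> omega
    · rcases h4 with ⟨b1, b2, b3, b4, b5⟩ | ⟨b1, b2, b3, b4⟩
      · have := H.hi (x0 - 1) (by omega) b2
        unfold rt at h2; simp only at h2
        split_ifs at h2 <;> simp only [Prod.mk.injEq] at h2 <;> omega
      · unfold rt at h2; simp only at h2
        split_ifs at h2 <;> simp only [Prod.mk.injEq] at h2 <;> omega
    · obtain ⟨b1, b2, b3, b4, b5, b6, b7, b8, b9⟩ := h4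
      have := (DH B cr).aw x0 (by omega) b2
      unfold rt at h2; simp only at h2
      split_ifs at h2 <;> simp only [Prod.mk.injEq] at h2 <;> omega
    · exact h4
  · -- the bottom tile of a column
    rw [a3] at h2
    obtain ⟨s, x0, y0⟩ := k
    cases s
    · rcases h4 with ⟨b1, b2, b3, b4, b5⟩ | ⟨b1, b2, b3, b4⟩
      · have c1 := H.dn x0 b1 b2 (by omega)
        unfold rt at h2; simp only at h2
        split_ifs at h2 <;> simp only [Prod.mk.injEq] at h2 <;> (obtain ⟨e1, e2⟩ := h2; subst e1; omega)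
      · unfold rt at h2; simp only at h2
        split_ifs at h2 <;> simp only [Prod.mk.injEq] at h2 <;> omega
    · rcases h4 with ⟨b1, b2, b3, b4, b5⟩ | ⟨b1, b2, b3, b4⟩
      · have c1 := H.up (x0 - 2) (by omega) (by omega) (by
          rw [show x0 - 2 + 1 = x0 - 1 by ring]; omega)
        rw [show x0 - 2 + 1 = x0 - 1 by ring] at c1
        unfold rt at h2; simp only at h2
        split_ifs at h2 <;> simp only [Prod.mk.injEq] at h2 <;> (obtain ⟨e1, e2⟩ := h2; subst e1; omega)
      · unfold rt at h2; simp only at h2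
        split_ifs at h2 <;> simp only [Prod.mk.injEq] at h2 <;> omega
    · obtain ⟨b1, b2, b3, b4, b5, b6, b7, b8, b9⟩ := h4
      unfold rt at h2; simp only at h2
      split_ifs at h2 with h6 <;> simp only [Prod.mk.injEq] at h2
      · obtain ⟨e1, e2⟩ := h2
        have e3 : x0 = x' + 1 := by omega
        subst e3
        have := a6 b2
        rw [add_sub_cancel_right] at b5
        omega
      · obtain ⟨e1, e2⟩ := h2
        subst e1
        exact h6 (b9.2 a4)
    · exact h4
  · rw [h2] at h3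
    omega

/-- **The first random label on the path of the target corner**, for an environment with the labels of the
tied form and possibly the random label `(-r - 1, w)` of the string in the ceiling. -/
theorem emH_path (θ : Th C c0) (B : BP C c0) (H : HPos (DH B cr) τ)
    (hin : ∀ x y, (DB B cr).InZ x y → (ow θ B).Box x y) (hcr : c0 = false → cr 0 = false)
    {P : Finset Ix} (hP : ∀ k ∈ P, CPH (DH B cr) τ k) (O : HOut (DH B cr))
    (hWo : O.Wo = (Wo θ B (DB B cr) (DB B cr).fill).map rotL) {X : Env} {W : Finset (ℤ × ℤ)}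
    (hout : X.out = nx W)
    (hE : ∀ e ∈ X.E, e ∈ ETH (DH B cr) τ P ∨ e = lt (-B.r - 1, (DH B cr).w))
    (hW : ∀ e, e ≠ lt (-B.r - 1, (DH B cr).w) → (e ∈ W ↔ e ∈ WTH (DH B cr) τ P O.Wo)) :
    ∃ n, (∀ i < n, lab (X.out^[i] (rotc (ctW θ B))) ∉ X.E) ∧
      lab (X.out^[n] (rotc (ctW θ B))) = lt (emH θ B τ) := by
  have H' := pos_of_toH H
  obtain ⟨c, h1, h2⟩ := ctW_emT θ B H' hin hcr
  have eE : (DH B cr).EH τ = ((DB B cr).EJ (Win.rt τ)).map rotL := by
    have := EH_toH H'
    rwa [rt_rt] at this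
  have eW : (DH B cr).WH τ O.Wo =
      ((DB B cr).WJ (Win.rt τ) (Wo θ B (DB B cr) (DB B cr).fill)).map rotL := by
    have := WH_toH (D := DB B cr) (τ := Win.rt τ) hWo
    rwa [rt_rt] at this
  have e1 : lt (-B.r - 1, (DH B cr).w) = rotL (lt ((DB B cr).w, B.r)) := by rw [rotL_lt]; rfl
  have key : Fw W {e | e ∉ (DH B cr).EH τ ∧ e ≠ lt (-B.r - 1, (DH B cr).w)} (rotc (ctW θ B))
      (rotc c) := by
    refine fw_rot h1 (fun e he => ?_) fun e he => ?_
    · refine ⟨fun h => ?_, fun h => ?_⟩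
      · rw [eE] at h
        exact he.1 ((mem_map' rotL).1 h)
      · rw [e1] at h
        exact he.2 (rotL.injective h)
    · rw [hW e he.2, ← eW]
      unfold WTH
      rw [mem_union, or_iff_left (fun h => he.1 (OTp_subH H O hP h))]
  obtain ⟨n, k1, k2⟩ := key
  refine ⟨n, fun i hi h => ?_, ?_⟩
  · rw [hout] at h
    have h3 := k2 i hi
    rcases hE _ h with h4 | h4
    · exact h3.1 (Pool.Agent.H76.W.ETH_sub h4)
    · exact h3.2 h4
  · rw [hout, k1, SymmAux.lab_rot, h2, lt_emH]

/-- the target corner is outside of the box -/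
theorem tgtH (θ : Th C c0) (B : BP C c0)
    (hin : ∀ x y, (DB B cr).InZ x y → (ow θ B).Box x y) (x y : ℤ)
    (h : plab (rotc (ctW θ B)) = lbt x y) : ¬ (DH B cr).InZ x y := by
  intro hz
  rw [toH_InZ] at hz
  rw [Pool.Agent.H75.Four.RotAux.plab_rot] at h
  have h1 : plab (ctW θ B) = lt (y, -x - 1) := rotL.injective (by rw [h, ← lt_rotL]; rfl)
  have h2 := (ctW_out (θ := θ) (B := B)).2
  rw [h1, mem_Zb] at h2
  exact h2 (hin _ _ hz)

/-- the label of the target corner is outside of the box -/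
theorem labH (θ : Th C c0) (B : BP C c0)
    (hin : ∀ x y, (DB B cr).InZ x y → (ow θ B).Box x y) :
    lab (rotc (ctW θ B)) ∉ (DH B cr).GA := by
  intro h
  obtain ⟨x, y, hxy⟩ := exists_lt (HWin.odd_GA h)
  rw [hxy, HWin.mem_GA, toH_InZ] at h
  rw [SymmAux.lab_rot] at hxy
  have h1 : lab (ctW θ B) = lt (y, -x - 1) := rotL.injective (by rw [hxy, ← lt_rotL])
  have h2 := (ctW_out (θ := θ) (B := B)).1
  rw [h1, mem_Zb] at h2
  exact h2 (hin _ _ h)

end Pool.Agent.H81.W
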