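import Mathlib
import Pool.Agent.H81.W.EmH
import Pool.Agent.H81.W.OutZ
import Pool.Agent.H76.W.RootH

set_option autoImplicit false
open Finset

/-! # The outside facts of a slit, instance

`outZ_SX` : `OutZ` for the target corner of the box of a room, for both parities (`XTH`, `XTE`). -/

namespace Pool.Agent.H81.W

open Pool.Agent.H75.Perc Pool.Agent.H75.TwoArm Pool.Agent.H33.Q1 Pool.Agent.Q1
open Pool.Agent.H74.R45
open Pool.Agent.H54.W (CD Win HWin HOut HPos)
open Pool.Agent.H20.W (Th Mk)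
open Pool.Agent.H85.W
open Pool.Agent.H76.W (CPH ETH WTH SX exl ExitC rootS_SX)
open Pool.Agent.H42.Sp (Ix)
open Pool.Agent.H30.W (Slit)

variable {C : CD} {c0 : Bool} {cr : ℤ → Bool}

/-- **The outside facts** of a slit in a room, both parities. -/
theorem outZ_SX (θ : Th C c0) (B : BP C c0) (S : Slit (DH B cr))
    (h : ExitC θ B (DB B cr) (DB B cr).fill ((DB B cr).w + S.e)) (hxs : S.xs = -B.r - 1)
    (hcr : c0 = false → cr 0 = false) (O : HOut (DH B cr))
    (hWo : O.Wo = (Wo θ B (DB B cr) (DB B cr).fill).map rotL) (hc : O.c0 = rotc (rtW B))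
    {P : Finset Ix} (hP : ∀ k ∈ P, CPH (DH B cr) S.τ k) {X : Env} {W : Finset (ℤ × ℤ)}
    (hX : SX S P O.Wo X W) (hout : X.out = nx W) (hXc : X.c0 = O.c0)
    (hx : S.e = 0 → (exl S ∈ W ↔ exl S ∈ WTH (DH B cr) S.τ P O.Wo)) :
    OutZ S X (lt (emH θ B S.τ)) (rotc (ctW θ B)) ∧ lt (emH θ B S.τ) ∈ X.E ∧
      lab (rotc (ctW θ B)) ∉ (DH B cr).GA := by
  have e1 : exl S = lt (-B.r - 1, (DH B cr).w) := by
    unfold exl
    rw [hxs]
  refine ⟨⟨rootS_SX S h hxs O hWo hc hP hX (fun c => by rw [hout]) hXc hx, tgtH θ B h.hin, ?_⟩,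
    (hX.E _).2 (Or.inl (emH_ETH θ B S.pos hP)), labH θ B h.hin⟩
  refine emH_path θ B S.pos h.hin hcr hP O hWo hout (fun e he => ?_) (fun e he => ?_)
  · rcases (hX.E e).1 he with h1 | h1
    · exact Or.inl h1
    · exact Or.inr (h1.2.trans e1)
  · rw [← e1] at he
    exact hX.W e he

end Pool.Agent.H81.W
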