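import Mathlib
import Pool.Agent.H81.W.FzS
import Pool.Agent.H40.W.FBx

set_option autoImplicit false
set_option linter.unusedSectionVars false
open Finset

/-! # The inputs of the frozen bound of a slit from the relations of the windows

`fbin_slit` : `FBIn` of `H40/W/FBx.lean` from `WFam` with the wires `WrZ` and the outside facts (`RootS`, target
outside of the box). -/

namespace Pool.Agent.H81.W

open Pool.Agent.H75.Perc Pool.Agent.H75.TwoArm Pool.Agent.Q1 Pool.Agent.H81.G1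
open Pool.Agent.H30.Mid
open Pool.Agent.H30.W
open Pool.Agent.H40.W
open Pool.Agent.H69.M6b (lbt)
open Pool.Agent.H54.W
open Pool.Agent.Q1.M6b.Gl

/-- more exceptional columns -/
def ZRow.mono_g {N : ℕ} {x0 y0 : ℤ} {c0 : Fin N} {w' : Finset (ℤ × ℤ)}
    {Wr : Bool → Fin N → Fin N → Prop} {g g' rr : ℕ} {S : Finset (Fin N)} {r : ℝ}
    (Z : ZRow x0 y0 c0 w' Wr g rr S r) (h : g ≤ g') : ZRow x0 y0 c0 w' Wr g' rr S r :=
  { Z with card := Z.card.trans h }

variable {D : HWin} {S : Slit D} {X : Env} {W B : Finset (ℤ × ℤ)} {em : ℤ × ℤ} {J : Finset ℤ}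

/-- **The inputs of the frozen bound of a slit.** -/
theorem fbin_slit (R : SlitEnv S X W B em) (hJ : Jmp D J)
    (hroot : RootS X (zq S.M S.x1 S.y0 S.c0)) {ct : ℤ × ℤ}
    (htgt : ∀ x y, plab ct = lbt x y → ¬ D.InZ x y) {g : ℕ} (hg : 6 * J.card + 55 ≤ g) (m : ℕ)
    (t : Finset (ℤ × ℤ))
    (fam : WFam (ELz S B) (EUz S B) S.N S.x1 S.y0 S.c0
      (AE (XFz X S B em t) S.N S.x1 S.y0 (l2z S em) ct
        (Sum.elim (fun _ => zt ^ (4 : ℤ)) fun _ => emA em (decide (em ∈ t)))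
        (Sum.elim (fun _ => zt ^ (-4 : ℤ)) fun _ => emB em (decide (em ∈ t))) (ELz S B) (EUz S B))
      (WrZ S.x1 S.y0 (ELz S B) (EUz S B))) :
    Nonempty (FBIn S X W em ct (fun _ => zt ^ (4 : ℤ)) (fun _ => zt ^ (-4 : ℤ)) m g S.r.toNat B t) := by
  refine ⟨⟨WrZ S.x1 S.y0 (ELz S B) (EUz S B), fam, ?_⟩⟩
  intro T hT _ ζ hζ hne
  obtain ⟨Z⟩ := zrow_slit R hJ hroot htgt t (decide (em ∈ t)) hζ hT hne
  exact ⟨Z.mono_g hg⟩

end Pool.Agent.H81.W
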